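import Pool.Agent.CBSl2.Rk

open Finset

namespace Pool.Agent.CBSl2

/-- fusion predicate -/
def Fs (l a b c : ℕ) : Prop :=
  (a + b + c) % 2 = 0 ∧ a ≤ b + c ∧ b ≤ a + c ∧ c ≤ a + b ∧ a + b + c ≤ 2 * l

/-- positivity of the four point degree -/
def Ps (l a b c d : ℕ) : Prop :=
  (a + b + c + d) % 2 = 0 ∧ 2 * l + 2 ≤ a + b + c + d ∧ b + c + d ≤ 2 * l + a ∧
  a + c + d ≤ 2 * l + b ∧ a + b + d ≤ 2 * l + c ∧ a + b + c ≤ 2 * l + d

theorem fus_pos (l a b c : ℕ) : 0 < fus l a b c ↔ Fs l a b c := fus_pos_iff l a b c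

theorem Fs.le1 {l a b c : ℕ} (h : Fs l a b c) : a ≤ l := by unfold Fs at h; omega
theorem Fs.le2 {l a b c : ℕ} (h : Fs l a b c) : b ≤ l := by unfold Fs at h; omega
theorem Fs.le3 {l a b c : ℕ} (h : Fs l a b c) : c ≤ l := by unfold Fs at h; omega
theorem Fs.s12 {l a b c : ℕ} (h : Fs l a b c) : Fs l b a c := by unfold Fs at h ⊢; omega
theorem Fs.s23 {l a b c : ℕ} (h : Fs l a b c) : Fs l a c b := by unfold Fs at h ⊢; omega

theorem N4_pos_iff (l a b c d : ℕ) : 0 < N4 l a b c d ↔ ∃ t, Fs l a b t ∧ Fs l t c d := by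
  unfold N4
  rw [sum_pos_iff]
  constructor
  · rintro ⟨t, _, ht⟩
    have h1 : 0 < fus l a b t := Nat.pos_of_mul_pos_left ht |> fun h => by
      rcases Nat.eq_zero_or_pos (fus l a b t) with h0 | h0
      · rw [h0] at ht; simp at ht
      · exact h0
    have h2 : 0 < fus l t c d := by
      rcases Nat.eq_zero_or_pos (fus l t c d) with h0 | h0
      · rw [h0] at ht; simp at ht
      · exact h0
    exact ⟨t, (fus_pos _ _ _ _).1 h1, (fus_pos _ _ _ _).1 h2⟩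
  · rintro ⟨t, h1, h2⟩
    refine ⟨t, ?_, ?_⟩
    · rw [mem_range]; have := h1.le3; omega
    · exact Nat.mul_pos ((fus_pos _ _ _ _).2 h1) ((fus_pos _ _ _ _).2 h2)

theorem exch {l a b c d x : ℕ} (h1 : Fs l a b x) (h2 : Fs l x c d) :
    ∃ y, Fs l a c y ∧ Fs l y b d := by
  rw [← N4_pos_iff, N4_swap23, N4_pos_iff]
  exact ⟨x, h1, h2⟩

theorem E4_pos_iff (l a b c d : ℕ) (ha : a ≤ l) (hb : b ≤ l) (hc : c ≤ l) (hd : d ≤ l) :
    0 < E4 l a b c d ↔ Ps l a b c d := by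
  unfold E4
  constructor
  · intro h
    have h1 : 0 < N4 l a b c d := by
      rcases Nat.eq_zero_or_pos (N4 l a b c d) with h0 | h0
      · rw [h0] at h; simp at h
      · exact h0
    have h2 : 0 < (a + b + c + d) / 2 - l := by
      rcases Nat.eq_zero_or_pos ((a + b + c + d) / 2 - l) with h0 | h0
      · rw [h0] at h; simp at h
      · exact h0
    have hp : (a + b + c + d) % 2 = 0 := by
      by_contra hp
      rw [N4_closed l a b c d ha hb hc hd, if_neg hp] at h1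
      omega
    have h3 := (le_N4_iff l a b c d 1 ha hb hc hd hp le_rfl).1 h1
    obtain ⟨_, _, _, ⟨k1, k2, k3, k4⟩⟩ := h3
    refine ⟨hp, by omega, by omega, by omega, by omega, by omega⟩
  · rintro ⟨hp, h1, h2, h3, h4, h5⟩
    apply Nat.mul_pos
    · apply (le_N4_iff l a b c d 1 ha hb hc hd hp le_rfl).2
      refine ⟨⟨by omega, by omega, by omega, by omega⟩, ⟨by omega, by omega, by omega, by omega⟩,
        ⟨by omega, by omega, by omega, by omega⟩, ⟨by omega, by omega, by omega, by omega⟩⟩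
    · omega

theorem val_pos_iff (l : ℕ) (u0 u1 u2 u3 : ℕ → ℕ) : 0 < val l u0 u1 u2 u3 ↔
    ∃ a b c d, a ≤ l ∧ b ≤ l ∧ c ≤ l ∧ d ≤ l ∧ 0 < u0 a ∧ 0 < u1 b ∧ 0 < u2 c ∧ 0 < u3 d ∧
      Ps l a b c d := by
  unfold val
  simp only [sum_pos_iff, mem_range]
  constructor
  · rintro ⟨a, ha, b, hb, c, hc, d, hd, h⟩
    have h0 : u0 a ≠ 0 := by rintro h0; simp [h0] at h
    have h1 : u1 b ≠ 0 := by rintro h0; simp [h0] at h
    have h2 : u2 c ≠ 0 := by rintro h0; simp [h0] at h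
    have h3 : u3 d ≠ 0 := by rintro h0; simp [h0] at h
    have h4 : E4 l a b c d ≠ 0 := by rintro h0; simp [h0] at h
    refine ⟨a, b, c, d, by omega, by omega, by omega, by omega, by omega, by omega, by omega,
      by omega, ?_⟩
    rw [← E4_pos_iff l a b c d (by omega) (by omega) (by omega) (by omega)]
    omega
  · rintro ⟨a, b, c, d, ha, hb, hc, hd, h0, h1, h2, h3, h4⟩
    refine ⟨a, by omega, b, by omega, c, by omega, d, by omega, ?_⟩
    rw [← E4_pos_iff l a b c d ha hb hc hd] at h4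
    positivity

theorem val_zero {l : ℕ} {u0 u1 u2 u3 : ℕ → ℕ} (h : val l u0 u1 u2 u3 = 0)
    {a b c d : ℕ} (ha : a ≤ l) (hb : b ≤ l) (hc : c ≤ l) (hd : d ≤ l)
    (h0 : 0 < u0 a) (h1 : 0 < u1 b) (h2 : 0 < u2 c) (h3 : 0 < u3 d) : ¬ Ps l a b c d := by
  intro hP
  have : 0 < val l u0 u1 u2 u3 := by
    rw [val_pos_iff]
    exact ⟨a, b, c, d, ha, hb, hc, hd, h0, h1, h2, h3, hP⟩
  omega

/-- largest weight in a fusion product -/
def mx (l a b : ℕ) : ℕ := min (a + b) (2 * l - a - b)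

theorem mx_spec (l a b : ℕ) (ha : a ≤ l) (hb : b ≤ l) :
    mx l a b ≤ a + b ∧ mx l a b + a + b ≤ 2 * l ∧
    (mx l a b = a + b ∨ mx l a b + a + b = 2 * l) := by
  unfold mx; omega

theorem Fs.le_mx {l a b c : ℕ} (h : Fs l a b c) : c ≤ mx l a b := by
  unfold Fs at h; unfold mx; omega

theorem Fs.up {l a b c c' : ℕ} (h : Fs l a b c) (h1 : c ≤ c') (h2 : c' ≤ mx l a b)
    (h3 : (c' + c) % 2 = 0) : Fs l a b c' := by
  unfold Fs at h ⊢; unfold mx at h2; omega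

theorem mx_par (l a b : ℕ) (ha : a ≤ l) (hb : b ≤ l) : (mx l a b + a + b) % 2 = 0 := by
  obtain ⟨_, _, h⟩ := mx_spec l a b ha hb
  omega

theorem exists_mid (a b c d A B C D T : ℕ) (ha : a ≤ A) (hb : b ≤ B) (hc : c ≤ C) (hd : d ≤ D)
    (pa : (A + a) % 2 = 0) (pb : (B + b) % 2 = 0) (pc : (C + c) % 2 = 0) (pd : (D + d) % 2 = 0)
    (h1 : a + b + c + d ≤ T) (h2 : T ≤ A + B + C + D) (pT : (T + a + b + c + d) % 2 = 0) :
    ∃ a' b' c' d', (a ≤ a' ∧ a' ≤ A ∧ (a' + a) % 2 = 0) ∧ (b ≤ b' ∧ b' ≤ B ∧ (b' + b) % 2 = 0) ∧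
      (c ≤ c' ∧ c' ≤ C ∧ (c' + c) % 2 = 0) ∧ (d ≤ d' ∧ d' ≤ D ∧ (d' + d) % 2 = 0) ∧
      a' + b' + c' + d' = T := by
  rcases le_total T (A + b + c + d) with h | h
  · exact ⟨T - b - c - d, b, c, d, by omega, by omega, by omega, by omega, by omega⟩
  rcases le_total T (A + B + c + d) with h' | h'
  · exact ⟨A, T - A - c - d, c, d, by omega, by omega, by omega, by omega, by omega⟩
  rcases le_total T (A + B + C + d) with h'' | h''
  · exact ⟨A, B, T - A - B - d, d, by omega, by omega, by omega, by omega, by omega⟩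
  · exact ⟨A, B, C, T - A - B - C, by omega, by omega, by omega, by omega, by omega⟩

/-- separation of two intervals -/
theorem sep (R0 R1 v0 v1 D : ℕ) (hR : R0 ≤ R1) (hv : v0 ≤ v1) (hD : 2 ≤ D)
    (pR : (R0 + R1) % 2 = 0) (pv : (v0 + v1) % 2 = 0)
    (h : ∀ m v, R0 ≤ m → m ≤ R1 → (m + R0) % 2 = 0 → v0 ≤ v → v ≤ v1 → (v + v0) % 2 = 0 →
      (m + D ≤ v ∨ v + D ≤ m)) : R1 + D ≤ v0 ∨ v1 + D ≤ R0 := by
  by_contra hcon
  rcases lt_or_ge R1 v0 with h1 | h1
  · have := h R1 v0 hR le_rfl (by omega) le_rfl hv (by omega)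
    omega
  rcases lt_or_ge v1 R0 with h2 | h2
  · have := h R0 v1 le_rfl hR (by omega) hv le_rfl (by omega)
    omega
  rcases le_total R0 v0 with h3 | h3
  · by_cases hp : (v0 + R0) % 2 = 0
    · have := h v0 v0 h3 h1 hp le_rfl hv (by omega)
      omega
    · have := h (v0 + 1) v0 (by omega) (by omega) (by omega) le_rfl hv (by omega)
      omega
  · by_cases hp : (R0 + v0) % 2 = 0
    · have := h R0 R0 le_rfl hR (by omega) h3 h2 hp
      omega
    · have := h R0 (R0 + 1) le_rfl hR (by omega) (by omega) (by omega) (by omega)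
      omega

end Pool.Agent.CBSl2
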