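import Pool.Agent.CBSl2.Arith

open Finset

namespace Pool.Agent.CBSl2

theorem raise1 (a i : ℕ) (h : 1 ≤ a + 2 * i) :
    ∃ e, e ≤ i ∧ 1 ≤ a + 2 * e ∧ (a = 0 ∧ e = 1 ∨ 1 ≤ a ∧ e = 0) := by
  rcases Nat.eq_zero_or_pos a with h' | h'
  · exact ⟨1, by omega, by omega, by omega⟩
  · exact ⟨0, by omega, by omega, by omega⟩

theorem exists_mid' (i j k m t : ℕ) (h : t ≤ i + j + k + m) :
    ∃ i' j' k' m', i' ≤ i ∧ j' ≤ j ∧ k' ≤ k ∧ m' ≤ m ∧ i' + j' + k' + m' = t := by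
  rcases le_total t i with h1 | h1
  · exact ⟨t, 0, 0, 0, by omega, by omega, by omega, by omega, by omega⟩
  rcases le_total t (i + j) with h2 | h2
  · exact ⟨i, t - i, 0, 0, by omega, by omega, by omega, by omega, by omega⟩
  rcases le_total t (i + j + k) with h3 | h3
  · exact ⟨i, j, t - i - j, 0, by omega, by omega, by omega, by omega, by omega⟩
  · exact ⟨i, j, k, t - i - j - k, by omega, by omega, by omega, by omega, by omega⟩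

theorem Ps_of_sum (l a b c d : ℕ) (ha : 1 ≤ a) (hb : 1 ≤ b) (hc : 1 ≤ c) (hd : 1 ≤ d)
    (h : a + b + c + d = 2 * l + 2) : Ps l a b c d := by
  unfold Ps
  refine ⟨by omega, by omega, by omega, by omega, by omega, by omega⟩

theorem Ps_raised (l a b c d e1 e2 e3 e4 s : ℕ)
    (la : a + 2 * e1 ≤ l) (lb : b + 2 * e2 ≤ l) (lc : c + 2 * e3 ≤ l) (ld : d + 2 * e4 ≤ l)
    (ha1 : a = 0 ∧ e1 = 1 ∨ 1 ≤ a ∧ e1 = 0) (hb1 : b = 0 ∧ e2 = 1 ∨ 1 ≤ b ∧ e2 = 0)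
    (hc1 : c = 0 ∧ e3 = 1 ∨ 1 ≤ c ∧ e3 = 0) (hd1 : d = 0 ∧ e4 = 1 ∨ 1 ≤ d ∧ e4 = 0)
    (hp : a + b + c + d = 2 * s)
    (k1 : a ≤ b + c + d) (k2 : b ≤ a + c + d) (k3 : c ≤ a + b + d) (k4 : d ≤ a + b + c)
    (h0 : s ≤ l) (h1 : l + 2 ≤ s + e1 + e2 + e3 + e4) :
    Ps l (a + 2 * e1) (b + 2 * e2) (c + 2 * e3) (d + 2 * e4) := by
  have e : (a + 2 * e1) + (b + 2 * e2) + (c + 2 * e3) + (d + 2 * e4) =
    2 * (s + e1 + e2 + e3 + e4) := by omega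
  unfold Ps
  rw [e]
  refine ⟨by omega, by omega, ?_⟩
  rcases ha1 with ⟨ha, ha1⟩ | ⟨ha, ha1⟩ <;> rcases hb1 with ⟨hb, hb1⟩ | ⟨hb, hb1⟩ <;>
    rcases hc1 with ⟨hc, hc1⟩ | ⟨hc, hc1⟩ <;> rcases hd1 with ⟨hd, hd1⟩ | ⟨hd, hd1⟩ <;>
    subst ha1 <;> subst hb1 <;> subst hc1 <;> subst hd1 <;>
    refine ⟨by omega, by omega, by omega, by omega⟩

/-- generic crossing lemma -/
theorem gcl (l a b c d i j k m s : ℕ)
    (hA : 1 ≤ a + 2 * i) (hB : 1 ≤ b + 2 * j) (hC : 1 ≤ c + 2 * k) (hD : 1 ≤ d + 2 * m)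
    (lA : a + 2 * i ≤ l) (lB : b + 2 * j ≤ l) (lC : c + 2 * k ≤ l) (lD : d + 2 * m ≤ l)
    (hp : a + b + c + d = 2 * s)
    (k1 : a ≤ b + c + d) (k2 : b ≤ a + c + d) (k3 : c ≤ a + b + d) (k4 : d ≤ a + b + c)
    (k5 : b + c + d ≤ 2 * l + a) (k6 : a + c + d ≤ 2 * l + b) (k7 : a + b + d ≤ 2 * l + c)
    (k8 : a + b + c ≤ 2 * l + d) (hsum : l + 1 ≤ s + i + j + k + m) :
    ∃ i' j' k' m', i' ≤ i ∧ j' ≤ j ∧ k' ≤ k ∧ m' ≤ m ∧
      Ps l (a + 2 * i') (b + 2 * j') (c + 2 * k') (d + 2 * m') := by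
  by_cases h0 : l + 1 ≤ s
  · exact ⟨0, 0, 0, 0, Nat.zero_le _, Nat.zero_le _, Nat.zero_le _, Nat.zero_le _,
      ⟨by omega, by omega, by omega, by omega, by omega, by omega⟩⟩
  obtain ⟨e1, f1, g1, h1⟩ := raise1 a i hA
  obtain ⟨e2, f2, g2, h2⟩ := raise1 b j hB
  obtain ⟨e3, f3, g3, h3⟩ := raise1 c k hC
  obtain ⟨e4, f4, g4, h4⟩ := raise1 d m hD
  by_cases hh : s + e1 + e2 + e3 + e4 ≤ l + 1
  · clear h1 h2 h3 h4 k1 k2 k3 k4 k5 k6 k7 k8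
    obtain ⟨i', j', k', m', q1, q2, q3, q4, q5⟩ := exists_mid' (i - e1) (j - e2) (k - e3) (m - e4)
      (l + 1 - (s + e1 + e2 + e3 + e4)) (by omega)
    refine ⟨e1 + i', e2 + j', e3 + k', e4 + m', by omega, by omega, by omega, by omega,
      Ps_of_sum l _ _ _ _ (by omega) (by omega) (by omega) (by omega) (by omega)⟩
  · exact ⟨e1, e2, e3, e4, f1, f2, f3, f4, Ps_raised l a b c d e1 e2 e3 e4 s
      (by omega) (by omega) (by omega) (by omega) h1 h2 h3 h4 hp k1 k2 k3 k4 (by omega) (by omega)⟩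

theorem Fs.mid {l r s a b c : ℕ} (h : Fs l r s a) (h' : Fs l r s c) (h1 : a ≤ b) (h2 : b ≤ c)
    (hp : (a + b) % 2 = 0) : Fs l r s b := by
  obtain ⟨p1, p2, p3, p4, p5⟩ := h
  obtain ⟨q1, q2, q3, q4, q5⟩ := h'
  refine ⟨?_, by omega, by omega, by omega, by omega⟩
  clear q1 q2 q3 q4 q5 p2 p3 p4 p5 h1 h2
  omega

theorem Fs.par {l r s a b : ℕ} (h : Fs l r s a) (h' : Fs l r s b) : (a + b) % 2 = 0 := by
  have h1 := h.1
  have h2 := h'.1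
  clear h h'
  omega

/-- connectedness of the support of a fusion product of two intervals -/
theorem conn (l r s za zb m0 v0 k0 m v k : ℕ) (h1 : Fs l r s m0) (h2 : Fs l za zb v0)
    (h3 : Fs l m0 v0 k0) (h4 : Fs l r s m) (h5 : Fs l za zb v) (h6 : Fs l m v k)
    (hk : k0 + 2 ≤ k) : ∃ m' v', Fs l r s m' ∧ Fs l za zb v' ∧ Fs l m' v' (k0 + 2) := by
  have pm := h1.par h4
  have pv := h2.par h5
  have lk := h6.le3
  obtain ⟨a1, a2, a3, a4, a5⟩ := h3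
  obtain ⟨b1, b2, b3, b4, b5⟩ := h6
  by_cases c1 : k0 + 2 ≤ m0 + v0
  · by_cases c2 : k0 + 2 + m0 + v0 ≤ 2 * l
    · refine ⟨m0, v0, h1, h2, ?_⟩
      clear h1 h2 h4 h5 pm pv b1 b2 b3 b4 b5
      refine ⟨by omega, by omega, by omega, by omega, by omega⟩
    · have e : k0 + m0 + v0 = 2 * l := by clear h1 h2 h4 h5 pm pv b1 b2 b3 b4 b5; omega
      have c3 : m < m0 ∨ v < v0 := by
        clear h1 h2 h4 h5 pm pv b1 b2 b3 b4 a1 a2 a3 a4 a5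
        omega
      rcases c3 with c3 | c3
      · have c4 : m + 2 ≤ m0 := by clear h1 h2 h4 h5 pv b1 b2 b3 b4 a1 a2 a3 a4 a5 e; omega
        refine ⟨m0 - 2, v0, h4.mid h1 (by omega) (by omega) (by clear h1 h2 h4 h5 pv b1 b2 b3 b4 a1 a2 a3 a4 a5 e; omega), h2, ?_⟩
        clear h1 h2 h4 h5 pm pv b1 b2 b3 b4 b5
        refine ⟨by omega, by omega, by omega, by omega, by omega⟩
      · have c4 : v + 2 ≤ v0 := by clear h1 h2 h4 h5 pm b1 b2 b3 b4 a1 a2 a3 a4 a5 e; omega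
        refine ⟨m0, v0 - 2, h1, h5.mid h2 (by omega) (by omega) (by clear h1 h2 h4 h5 pm b1 b2 b3 b4 a1 a2 a3 a4 a5 e; omega), ?_⟩
        clear h1 h2 h4 h5 pm pv b1 b2 b3 b4 b5
        refine ⟨by omega, by omega, by omega, by omega, by omega⟩
  · have e : k0 = m0 + v0 := by clear h1 h2 h4 h5 pm pv b1 b2 b3 b4 b5; omega
    have c3 : m0 < m ∨ v0 < v := by
      clear h1 h2 h4 h5 pm pv b1 b2 b3 a1 a2 a3 a4 a5
      omega
    rcases c3 with c3 | c3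
    · have c4 : m0 + 2 ≤ m := by clear h1 h2 h4 h5 pv b1 b2 b3 b4 a1 a2 a3 a4 a5 e; omega
      refine ⟨m0 + 2, v0, h1.mid h4 (by omega) (by omega) (by clear h1 h2 h4 h5 pm pv b1 b2 b3 b4 a1 a2 a3 a4 a5 e; omega), h2, ?_⟩
      clear h1 h2 h4 h5 pm pv b1 b2 b3 b4 b5
      refine ⟨by omega, by omega, by omega, by omega, by omega⟩
    · have c4 : v0 + 2 ≤ v := by clear h1 h2 h4 h5 pm b1 b2 b3 b4 a1 a2 a3 a4 a5 e; omega
      refine ⟨m0, v0 + 2, h1, h2.mid h5 (by omega) (by omega) (by clear h1 h2 h4 h5 pm pv b1 b2 b3 b4 a1 a2 a3 a4 a5 e; omega), ?_⟩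
      clear h1 h2 h4 h5 pm pv b1 b2 b3 b4 b5
      refine ⟨by omega, by omega, by omega, by omega, by omega⟩

end Pool.Agent.CBSl2
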