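import Pool.Agent.CBSl2.Curves

open Finset

namespace Pool.Agent.CBSl2

section
variable (l a b r s z5 z6 : ℕ) (v : ℕ → ℕ) (hv : ∀ c, l < c → v c = 0)
include hv

theorem lin_V : fV l a b r s z5 z6 v = ∑ ν ∈ range (l + 1), v ν * fV l a b r s z5 z6 (dl ν) :=
  val_lin3 l _ _ _ (fun v => conv l (dl z5) (conv l (dl z6) v))
    (PL_conv l _ _ (PL_conv l _ _ (PL_id l))) v hv
theorem lin_Y5 : fY5 l a b r s z5 z6 v = ∑ ν ∈ range (l + 1), v ν * fY5 l a b r s z5 z6 (dl ν) :=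
  val_lin2 l _ _ _ (fun v => conv l (dl z6) v) (PL_conv l _ _ (PL_id l)) v hv
theorem lin_Y6 : fY6 l a b r s z5 z6 v = ∑ ν ∈ range (l + 1), v ν * fY6 l a b r s z5 z6 (dl ν) :=
  val_lin2 l _ _ _ (fun v => conv l (dl z5) v) (PL_conv l _ _ (PL_id l)) v hv
theorem lin_Y7 : fY7 l a b r s z5 z6 v = ∑ ν ∈ range (l + 1), v ν * fY7 l a b r s z5 z6 (dl ν) :=
  val_lin3 l _ _ _ (fun v => v) (PL_id l) v hv
theorem lin_O5 : fO5 l a b r s z5 z6 v = ∑ ν ∈ range (l + 1), v ν * fO5 l a b r s z5 z6 (dl ν) :=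
  val_lin3 l _ _ _ (fun v => conv l (dl z6) v) (PL_conv l _ _ (PL_id l)) v hv
theorem lin_O6 : fO6 l a b r s z5 z6 v = ∑ ν ∈ range (l + 1), v ν * fO6 l a b r s z5 z6 (dl ν) :=
  val_lin3 l _ _ _ (fun v => conv l (dl z5) v) (PL_conv l _ _ (PL_id l)) v hv
theorem lin_O7 : fO7 l a b r s z5 z6 v = ∑ ν ∈ range (l + 1), v ν * fO7 l a b r s z5 z6 (dl ν) :=
  val_lin2 l _ _ _ (fun v => conv l (dl s) v) (PL_conv l _ _ (PL_id l)) v hv
theorem lin_P5 : fP5 l a b r s z5 z6 v = ∑ ν ∈ range (l + 1), v ν * fP5 l a b r s z5 z6 (dl ν) :=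
  val_lin3 l _ _ _ (fun v => conv l (dl z6) v) (PL_conv l _ _ (PL_id l)) v hv
theorem lin_P6 : fP6 l a b r s z5 z6 v = ∑ ν ∈ range (l + 1), v ν * fP6 l a b r s z5 z6 (dl ν) :=
  val_lin3 l _ _ _ (fun v => conv l (dl z5) v) (PL_conv l _ _ (PL_id l)) v hv
theorem lin_P7 : fP7 l a b r s z5 z6 v = ∑ ν ∈ range (l + 1), v ν * fP7 l a b r s z5 z6 (dl ν) :=
  val_lin2 l _ _ _ (fun v => conv l (dl r) v) (PL_conv l _ _ (PL_id l)) v hv
theorem lin_K5 : fK5 l a b r s z5 z6 v = ∑ ν ∈ range (l + 1), v ν * fK5 l a b r s z5 z6 (dl ν) :=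
  val_lin2 l _ _ _ (fun v => conv l (conv l (dl r) (dl s)) (conv l (dl z6) v))
    (PL_conv l _ _ (PL_conv l _ _ (PL_id l))) v hv
theorem lin_K6 : fK6 l a b r s z5 z6 v = ∑ ν ∈ range (l + 1), v ν * fK6 l a b r s z5 z6 (dl ν) :=
  val_lin2 l _ _ _ (fun v => conv l (conv l (dl r) (dl s)) (conv l (dl z5) v))
    (PL_conv l _ _ (PL_conv l _ _ (PL_id l))) v hv
theorem lin_K7 : fK7 l a b r s z5 z6 v = ∑ ν ∈ range (l + 1), v ν * fK7 l a b r s z5 z6 (dl ν) :=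
  val_lin3 l _ _ _ (fun v => v) (PL_id l) v hv

end

theorem zero_of_sum {l : ℕ} {v f : ℕ → ℕ} (h : ∑ ν ∈ range (l + 1), v ν * f ν = 0) {ν : ℕ}
    (hν : ν ≤ l) (hp : v ν ≠ 0) : f ν = 0 := by
  rw [sum_eq_zero_iff] at h
  have := h ν (mem_range.2 (by omega))
  rcases Nat.mul_eq_zero.1 this with h | h
  · exact absurd h hp
  · exact h

/-- class property in terms of values -/
theorem class_val (l a b r s z5 z6 : ℕ) (v : ℕ → ℕ) (hv : ∀ c, l < c → v c = 0)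
    (ha : a ≤ l) (hb : b ≤ l) (hr : r ≤ l) (hs : s ≤ l) (h5 : z5 ≤ l) (h6 : z6 ≤ l)
    (o5 : fO5 l a b r s z5 z6 v = 0) (o6 : fO6 l a b r s z5 z6 v = 0)
    (o7 : fO7 l a b r s z5 z6 v = 0) (p5 : fP5 l a b r s z5 z6 v = 0)
    (p6 : fP6 l a b r s z5 z6 v = 0) (p7 : fP7 l a b r s z5 z6 v = 0)
    (k5 : fK5 l a b r s z5 z6 v = 0) (k6 : fK6 l a b r s z5 z6 v = 0)
    (k7 : fK7 l a b r s z5 z6 v = 0) :
    fV l a b r s z5 z6 v = 0 ∨ 3 * fV l a b r s z5 z6 v <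
      fY5 l a b r s z5 z6 v + fY6 l a b r s z5 z6 v + fY7 l a b r s z5 z6 v := by
  rw [lin_O5 l a b r s z5 z6 v hv] at o5
  rw [lin_O6 l a b r s z5 z6 v hv] at o6
  rw [lin_O7 l a b r s z5 z6 v hv] at o7
  rw [lin_P5 l a b r s z5 z6 v hv] at p5
  rw [lin_P6 l a b r s z5 z6 v hv] at p6
  rw [lin_P7 l a b r s z5 z6 v hv] at p7
  rw [lin_K5 l a b r s z5 z6 v hv] at k5
  rw [lin_K6 l a b r s z5 z6 v hv] at k6
  rw [lin_K7 l a b r s z5 z6 v hv] at k7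
  rw [lin_V l a b r s z5 z6 v hv, lin_Y5 l a b r s z5 z6 v hv, lin_Y6 l a b r s z5 z6 v hv,
    lin_Y7 l a b r s z5 z6 v hv]
  have key : ∀ ν, ν ≤ l → v ν ≠ 0 → 0 < fV l a b r s z5 z6 (dl ν) →
      3 * fV l a b r s z5 z6 (dl ν) < fY5 l a b r s z5 z6 (dl ν) + fY6 l a b r s z5 z6 (dl ν)
        + fY7 l a b r s z5 z6 (dl ν) := by
    intro ν hν hne hpos
    exact main7 l a b r s z5 z6 ν ha hb hr hs h5 h6 hν (zero_of_sum o5 hν hne)
      (zero_of_sum o6 hν hne) (zero_of_sum o7 hν hne) (zero_of_sum p5 hν hne)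
      (zero_of_sum p6 hν hne) (zero_of_sum p7 hν hne) (zero_of_sum k5 hν hne)
      (zero_of_sum k6 hν hne) (zero_of_sum k7 hν hne) hpos
  by_cases h0 : ∑ ν ∈ range (l + 1), v ν * fV l a b r s z5 z6 (dl ν) = 0
  · left; exact h0
  right
  obtain ⟨ν0, hν0, hne0⟩ := Finset.exists_ne_zero_of_sum_ne_zero h0
  rw [← sum_add_distrib, ← sum_add_distrib, mul_sum]
  have hle : ∀ ν ∈ range (l + 1), 3 * (v ν * fV l a b r s z5 z6 (dl ν)) ≤
      v ν * fY5 l a b r s z5 z6 (dl ν) + v ν * fY6 l a b r s z5 z6 (dl ν)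
        + v ν * fY7 l a b r s z5 z6 (dl ν) := by
    intro ν hν
    have hνl : ν ≤ l := by have := mem_range.1 hν; omega
    by_cases hv0 : v ν = 0
    · rw [hv0]; simp
    by_cases hV0 : fV l a b r s z5 z6 (dl ν) = 0
    · rw [hV0]; simp
    have := key ν hνl hv0 (Nat.pos_of_ne_zero hV0)
    rw [mul_left_comm, ← mul_add, ← mul_add]
    exact Nat.mul_le_mul_left _ this.le
  apply sum_lt_sum hle
  refine ⟨ν0, hν0, ?_⟩
  have hνl : ν0 ≤ l := by have := mem_range.1 hν0; omega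
  have hv0 : v ν0 ≠ 0 := by rintro h; simp [h] at hne0
  have hV0 : fV l a b r s z5 z6 (dl ν0) ≠ 0 := by rintro h; simp [h] at hne0
  have := key ν0 hνl hv0 (Nat.pos_of_ne_zero hV0)
  rw [mul_left_comm, ← mul_add, ← mul_add]
  exact Nat.mul_lt_mul_of_pos_left this (Nat.pos_of_ne_zero hv0)

/-- the functional of the nine vanishing curves -/
noncomputable def Zf {n : ℕ} (h7 : 7 ≤ n) (D : FCurve n → ℝ) : ℝ :=
  D (mkF h7 gO5 gO5_surj) + D (mkF h7 gO6 gO6_surj) + D (mkF h7 gO7 gO7_surj)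
  + D (mkF h7 gP5 gP5_surj) + D (mkF h7 gP6 gP6_surj) + D (mkF h7 gP7 gP7_surj)
  + D (mkF h7 gK5 gK5_surj) + D (mkF h7 gK6 gK6_surj) + D (mkF h7 gK7 gK7_surj)

/-- the functional `V` -/
noncomputable def Vf {n : ℕ} (h7 : 7 ≤ n) (D : FCurve n → ℝ) : ℝ := D (mkF h7 gV gV_surj)

/-- the functional `Y` -/
noncomputable def Yf {n : ℕ} (h7 : 7 ≤ n) (D : FCurve n → ℝ) : ℝ :=
  D (mkF h7 gY5 gY5_surj) + D (mkF h7 gY6 gY6_surj) + D (mkF h7 gY7 gY7_surj)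

theorem class_prop {n : ℕ} (h7 : 7 ≤ n) (l : ℕ) (lam : Fin n → ℕ) (hl : ∀ i, lam i ≤ l) :
    0 ≤ Zf h7 (cbDiv l lam) ∧ 0 ≤ Vf h7 (cbDiv l lam) ∧ 0 ≤ Yf h7 (cbDiv l lam) ∧
    (Zf h7 (cbDiv l lam) = 0 → Vf h7 (cbDiv l lam) = 0 ∨
      3 * Vf h7 (cbDiv l lam) < Yf h7 (cbDiv l lam)) := by
  unfold Zf Vf Yf
  rw [eval_O5 h7 l lam hl, eval_O6 h7 l lam hl, eval_O7 h7 l lam hl, eval_P5 h7 l lam hl,
    eval_P6 h7 l lam hl, eval_P7 h7 l lam hl, eval_K5 h7 l lam hl, eval_K6 h7 l lam hl,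
    eval_K7 h7 l lam hl, eval_V h7 l lam hl, eval_Y5 h7 l lam hl, eval_Y6 h7 l lam hl,
    eval_Y7 h7 l lam hl]
  refine ⟨by positivity, by positivity, by positivity, ?_⟩
  intro hZ
  have hZ' := hZ
  norm_cast at hZ'
  have := class_val l _ _ _ _ _ _ (rk l lam (pre n {6})) (fun c hc => rk_gt l lam _ c hc)
    (hl ⟨0, by omega⟩) (hl ⟨1, by omega⟩) (hl ⟨2, by omega⟩) (hl ⟨3, by omega⟩)
    (hl ⟨4, by omega⟩) (hl ⟨5, by omega⟩) (by omega) (by omega) (by omega) (by omega)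
    (by omega) (by omega) (by omega) (by omega) (by omega)
  rcases this with h | h
  · left; exact_mod_cast h
  · right; exact_mod_cast h

end Pool.Agent.CBSl2
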