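import Pool.Agent.CBSl2.Rk

open Finset

namespace Pool.Agent.CBSl2

section
variable {n : ℕ} (F : FCurve n)

theorem union_compl (S : Finset (Fin 4)) : (F.union S)ᶜ = F.union Sᶜ := by
  ext i; simp [FCurve.union]

theorem union_union (S T : Finset (Fin 4)) : F.union (S ∪ T) = F.union S ∪ F.union T := by
  ext i; simp [FCurve.union]

theorem union_disj (S T : Finset (Fin 4)) (h : Disjoint S T) :
    Disjoint (F.union S) (F.union T) := by
  rw [Finset.disjoint_left] at h ⊢
  intro i hi hi'
  simp only [FCurve.union, mem_filter, mem_univ, true_and] at hi hi'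
  exact h hi hi'

theorem union_inj {S T : Finset (Fin 4)} (h : F.union S = F.union T) : S = T := by
  ext k
  obtain ⟨i, hi⟩ := F.2 k
  have : i ∈ F.union S ↔ i ∈ F.union T := by rw [h]
  simpa [FCurve.union, hi] using this

theorem card_union_ge (S : Finset (Fin 4)) : S.card ≤ (F.union S).card := by
  have : S ⊆ (F.union S).image F.1 := by
    intro k hk
    obtain ⟨i, hi⟩ := F.2 k
    rw [mem_image]
    exact ⟨i, by simp [FCurve.union, hi, hk], hi⟩
  exact (card_le_card this).trans card_image_le

theorem card_union_add (S : Finset (Fin 4)) : (F.union S).card + (F.union Sᶜ).card = n := by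
  rw [← union_compl, card_compl, Fintype.card_fin]
  have := card_le_univ (F.union S)
  rw [Fintype.card_fin] at this
  omega

/-- weights of unions -/
def wt (S : Finset (Fin 4)) : ℝ := if S.card = 2 then 1 else if S.card = 1 ∨ S.card = 3 then -1 else 0

theorem delta_eq (A : Finset (Fin n)) :
    delta A F = ∑ S : Finset (Fin 4), if A = F.union S then wt S else 0 := by
  classical
  unfold delta
  split_ifs with h1 h2
  · obtain ⟨S, hS, hA⟩ := h1
    rw [sum_eq_single S]
    · simp [hA, wt, hS]
    · intro T _ hT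
      rw [if_neg]
      intro h
      exact hT (union_inj F (h.symm.trans hA))
    · intro h; exact absurd (mem_univ _) h
  · obtain ⟨S, hS, hA⟩ := h2
    rw [sum_eq_single S]
    · rw [if_pos hA, wt, if_neg (by omega), if_pos hS]
    · intro T _ hT
      rw [if_neg]
      intro h
      exact hT (union_inj F (h.symm.trans hA))
    · intro h; exact absurd (mem_univ _) h
  · symm
    apply sum_eq_zero
    intro S _
    split_ifs with h
    · unfold wt
      rw [if_neg, if_neg]
      · intro h3; exact h2 ⟨S, h3, h⟩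
      · intro h3; exact h1 ⟨S, h3, h⟩
    · rfl

theorem sum_delta (g : Finset (Fin n) → ℝ) :
    ∑ A ∈ univ.filter (fun A : Finset (Fin n) => 2 ≤ A.card ∧ A.card + 2 ≤ n), g A * delta A F
      = ∑ S : Finset (Fin 4), if 2 ≤ (F.union S).card ∧ (F.union S).card + 2 ≤ n then
          g (F.union S) * wt S else 0 := by
  simp only [delta_eq, mul_sum]
  rw [sum_comm]
  apply sum_congr rfl
  intro S _
  simp only [mul_ite, mul_zero]
  rw [← sum_filter, filter_filter]
  split_ifs with h
  · have : (univ.filter (fun A : Finset (Fin n) => (2 ≤ A.card ∧ A.card + 2 ≤ n) ∧ A = F.union S))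
        = {F.union S} := by
      ext A
      simp only [mem_filter, mem_univ, true_and, mem_singleton]
      constructor
      · exact fun h => h.2
      · rintro rfl; exact ⟨h, rfl⟩
    rw [this, sum_singleton]
  · rw [filter_false_of_mem, sum_empty]
    rintro A _ ⟨h1, rfl⟩
    exact h h1

theorem univ_fin4 : (univ : Finset (Finset (Fin 4))) = {∅, {0}, {1}, {2}, {3}, {0,1}, {0,2}, {0,3},
    {1,2}, {1,3}, {2,3}, {0,1,2}, {0,1,3}, {0,2,3}, {1,2,3}, {0,1,2,3}} := by decide

theorem sum_fin4 (f : Finset (Fin 4) → ℝ) : ∑ S : Finset (Fin 4), f S =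
    f ∅ + f {0} + f {1} + f {2} + f {3} + f {0,1} + f {0,2} + f {0,3} + f {1,2} + f {1,3}
    + f {2,3} + f {0,1,2} + f {0,1,3} + f {0,2,3} + f {1,2,3} + f {0,1,2,3} := by
  rw [univ_fin4]
  iterate 15 rw [sum_insert (by decide)]
  rw [sum_singleton]
  ring

theorem bcoef_compl (l : ℕ) (lam : Fin n → ℕ) (A : Finset (Fin n)) :
    bcoef l lam Aᶜ = bcoef l lam A := by
  unfold bcoef
  apply sum_congr rfl; intro m _
  rw [compl_compl]; ring

theorem bcoef_singleton (l : ℕ) (lam : Fin n → ℕ) (i : Fin n) (hi : lam i ≤ l) :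
    bcoef l lam {i} = (rk l lam univ 0 : ℝ) * Delta l (lam i) := by
  have h1 : rk l lam univ = conv l (rk l lam {i}) (rk l lam {i}ᶜ) := by
    rw [← rk_union _ _ _ _ disjoint_compl_right, Finset.union_compl]
  have h2 : rk l lam univ 0 = rk l lam {i}ᶜ (lam i) := by
    rw [h1, rk_singleton l lam i hi, conv_dl_left l _ hi, sum_eq_single (lam i)]
    · unfold fus; rw [if_pos, mul_one]; omega
    · intro b _ hb
      unfold fus; rw [if_neg, mul_zero]; omega
    · intro h; exact absurd (mem_range.2 (by omega)) h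
  unfold bcoef
  rw [h2, rk_singleton l lam i hi, sum_eq_single (lam i)]
  · simp [dl]; ring
  · intro b _ hb; simp [dl, hb]
  · intro h; exact absurd (mem_range.2 (by omega)) h

theorem psi_sum (l : ℕ) (lam : Fin n → ℕ) (hl : ∀ i, lam i ≤ l) :
    (rk l lam univ 0 : ℝ) * ∑ i : Fin n, Delta l (lam i) * psi i F =
      ∑ k : Fin 4, if 2 ≤ (F.union {k}).card then 0 else bcoef l lam (F.union {k}) := by
  rw [← Finset.sum_fiberwise (univ : Finset (Fin n)) F.1, mul_sum]
  apply sum_congr rfl
  intro k _
  have hk : (univ.filter (fun i => F.1 i = k)) = F.union {k} := by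
    ext i; simp [FCurve.union]
  rw [hk]
  split_ifs with h
  · rw [sum_eq_zero, mul_zero]
    intro i hi
    have hik : F.1 i = k := by simpa [FCurve.union] using hi
    unfold psi
    rw [if_neg, mul_zero]
    intro h3
    rw [hik] at h3
    rw [h3] at h
    simp at h
  · have h1 : (F.union {k}).card = 1 := by
      have := card_union_ge F {k}
      rw [card_singleton] at this
      omega
    obtain ⟨i, hi⟩ := card_eq_one.1 h1
    have hik : F.1 i = k := by
      have : i ∈ F.union {k} := by rw [hi]; simp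
      simpa [FCurve.union] using this
    rw [hi, sum_singleton, bcoef_singleton l lam i (hl i)]
    unfold psi
    rw [hik, if_pos hi, mul_one]

theorem cbDiv_block (l : ℕ) (lam : Fin n → ℕ) (hl : ∀ i, lam i ≤ l) :
    cbDiv l lam F = (bcoef l lam (F.union {0}) + bcoef l lam (F.union {1})
      + bcoef l lam (F.union {2}) + bcoef l lam (F.union {3}))
      - (bcoef l lam (F.union {0,1}) + bcoef l lam (F.union {0,2})
      + bcoef l lam (F.union {0,3})) := by
  have e1 : cbDiv l lam F = (rk l lam univ 0 : ℝ) * ∑ i : Fin n, Delta l (lam i) * psi i F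
      - (1 / 2 : ℝ) * ∑ A ∈ univ.filter (fun A : Finset (Fin n) => 2 ≤ A.card ∧ A.card + 2 ≤ n),
      bcoef l lam A * delta A F := by
    unfold cbDiv
    simp only [Pi.sub_apply, Pi.smul_apply, Finset.sum_apply, smul_eq_mul]
  rw [e1, psi_sum F l lam hl, sum_delta F (bcoef l lam), sum_fin4]
  have w0 : wt ∅ = 0 := by simp [wt]
  have w4 : wt {0,1,2,3} = 0 := by
    have : ({0,1,2,3} : Finset (Fin 4)).card = 4 := by decide
    simp [wt, this]
  have w1 : ∀ k : Fin 4, wt {k} = -1 := by intro k; simp [wt]
  have w2 : ∀ S : Finset (Fin 4), S.card = 2 → wt S = 1 := by intro S h; simp [wt, h]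
  have w3 : ∀ S : Finset (Fin 4), S.card = 3 → wt S = -1 := by intro S h; simp [wt, h]
  have c2 : ∀ S : Finset (Fin 4), S.card = 2 →
      (2 ≤ (F.union S).card ∧ (F.union S).card + 2 ≤ n) := by
    intro S h
    have h1 := card_union_ge F S
    have h2 := card_union_ge F Sᶜ
    have h3 := card_union_add F S
    have h4 : Sᶜ.card = 2 := by rw [card_compl, h, Fintype.card_fin]
    omega
  have c1 : ∀ k : Fin 4, (2 ≤ (F.union {k}).card ∧ (F.union {k}).card + 2 ≤ n) ↔
      2 ≤ (F.union {k}).card := by
    intro k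
    have h2 := card_union_ge F {k}ᶜ
    have h3 := card_union_add F {k}
    have h4 : ({k}ᶜ : Finset (Fin 4)).card = 3 := by
      rw [card_compl, card_singleton, Fintype.card_fin]
    omega
  have c3 : ∀ (k : Fin 4) (S : Finset (Fin 4)), S = {k}ᶜ →
      ((2 ≤ (F.union S).card ∧ (F.union S).card + 2 ≤ n) ↔ 2 ≤ (F.union {k}).card) := by
    intro k S hS
    have h1 := card_union_ge F S
    have h3 := card_union_add F {k}
    have h4 : S.card = 3 := by rw [hS, card_compl, card_singleton, Fintype.card_fin]
    rw [← hS] at h3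
    omega
  have b3 : ∀ (k : Fin 4) (S : Finset (Fin 4)), S = {k}ᶜ →
      bcoef l lam (F.union S) = bcoef l lam (F.union {k}) := by
    intro k S hS
    rw [hS, ← union_compl, bcoef_compl]
  have b23 : bcoef l lam (F.union {2,3}) = bcoef l lam (F.union {0,1}) := by
    rw [← bcoef_compl l lam (F.union {0,1}), union_compl]; congr 2
  have b13 : bcoef l lam (F.union {1,3}) = bcoef l lam (F.union {0,2}) := by
    rw [← bcoef_compl l lam (F.union {0,2}), union_compl]; congr 2
  have b12 : bcoef l lam (F.union {1,2}) = bcoef l lam (F.union {0,3}) := by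
    rw [← bcoef_compl l lam (F.union {0,3}), union_compl]; congr 2
  rw [w0, w4, w1, w1, w1, w1, w2 {0,1} (by decide), w2 {0,2} (by decide), w2 {0,3} (by decide),
    w2 {1,2} (by decide), w2 {1,3} (by decide), w2 {2,3} (by decide), w3 {0,1,2} (by decide),
    w3 {0,1,3} (by decide), w3 {0,2,3} (by decide), w3 {1,2,3} (by decide)]
  rw [if_pos (c2 {0,1} (by decide)), if_pos (c2 {0,2} (by decide)), if_pos (c2 {0,3} (by decide)),
    if_pos (c2 {1,2} (by decide)), if_pos (c2 {1,3} (by decide)), if_pos (c2 {2,3} (by decide))]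
  simp only [c1, c3 3 {0,1,2} (by decide), c3 2 {0,1,3} (by decide), c3 1 {0,2,3} (by decide),
    c3 0 {1,2,3} (by decide), b3 3 {0,1,2} (by decide), b3 2 {0,1,3} (by decide),
    b3 1 {0,2,3} (by decide), b3 0 {1,2,3} (by decide), b23, b13, b12, Fin.sum_univ_four,
    mul_zero, ite_self]
  split_ifs <;> ring

theorem cbDiv_eq_val (l : ℕ) (lam : Fin n → ℕ) (hl : ∀ i, lam i ≤ l) :
    cbDiv l lam F = (val l (rk l lam (F.union {0})) (rk l lam (F.union {1}))
      (rk l lam (F.union {2})) (rk l lam (F.union {3})) : ℝ) := by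
  rw [cbDiv_block F l lam hl, ← val_formula]
  have r2 : ∀ (i j : Fin 4), i ≠ j → rk l lam (F.union {i, j}) =
      conv l (rk l lam (F.union {i})) (rk l lam (F.union {j})) := by
    intro i j hij
    rw [← rk_union _ _ _ _ (union_disj F {i} {j} (by simpa using hij)), ← union_union]
    rfl
  have r3 : ∀ (i j k : Fin 4), i ≠ j → i ≠ k → j ≠ k → rk l lam (F.union {i, j, k}) =
      conv l (conv l (rk l lam (F.union {i})) (rk l lam (F.union {j}))) (rk l lam (F.union {k})) := by
    intro i j k hij hik hjk
    rw [← r2 i j hij, ← rk_union _ _ _ _ (union_disj F {i, j} {k} (by simp [hik.symm, hjk.symm])),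
      ← union_union]
    congr 2
    ext x; simp [or_assoc]
  unfold bcoef
  rw [union_compl F {0}, union_compl F {1}, union_compl F {2}, union_compl F {3},
    union_compl F {0,1}, union_compl F {0,2}, union_compl F {0,3},
    show ({0}ᶜ : Finset (Fin 4)) = {1,2,3} by decide,
    show ({1}ᶜ : Finset (Fin 4)) = {0,2,3} by decide,
    show ({2}ᶜ : Finset (Fin 4)) = {0,1,3} by decide,
    show ({3}ᶜ : Finset (Fin 4)) = {0,1,2} by decide,
    show ({0,1}ᶜ : Finset (Fin 4)) = {2,3} by decide,
    show ({0,2}ᶜ : Finset (Fin 4)) = {1,3} by decide,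
    show ({0,3}ᶜ : Finset (Fin 4)) = {1,2} by decide]
  rw [r3 1 2 3 (by decide) (by decide) (by decide), r3 0 2 3 (by decide) (by decide) (by decide),
    r3 0 1 3 (by decide) (by decide) (by decide), r3 0 1 2 (by decide) (by decide) (by decide),
    r2 0 1 (by decide), r2 0 2 (by decide), r2 0 3 (by decide), r2 2 3 (by decide),
    r2 1 3 (by decide), r2 1 2 (by decide)]

end

end Pool.Agent.CBSl2
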