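import Pool.Agent.CBSl2.Main7b
import Pool.Agent.CBSl2.Pair

open Finset

namespace Pool.Agent.CBSl2

section
variable {n : ℕ}

/-- collapse all points after the seventh to the seventh -/
def col (i : Fin n) : Fin 7 := ⟨min i 6, by omega⟩

theorem col_surj (h7 : 7 ≤ n) : Function.Surjective (col : Fin n → Fin 7) := by
  intro j
  refine ⟨⟨j, by omega⟩, ?_⟩
  unfold col
  ext
  simp
  omega

/-- preimage of a set of points -/
def pre (n : ℕ) (T : Finset (Fin 7)) : Finset (Fin n) := univ.filter (fun i => col i ∈ T)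

theorem pre_insert (l : ℕ) (lam : Fin n → ℕ) (j : Fin 7) (T : Finset (Fin 7)) (h : j ∉ T) :
    rk l lam (pre n (insert j T)) = conv l (rk l lam (pre n {j})) (rk l lam (pre n T)) := by
  have e : pre n (insert j T) = pre n {j} ∪ pre n T := by
    ext i; simp [pre]
  have d : Disjoint (pre n {j}) (pre n T) := by
    rw [Finset.disjoint_left]
    intro i hi hi'
    simp only [pre, mem_filter, mem_univ, true_and, mem_singleton] at hi hi'
    rw [hi] at hi'
    exact h hi'
  rw [e, rk_union l lam _ _ d]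

/-- an F-curve from a labelling of the seven groups -/
def mkF (h7 : 7 ≤ n) (g : Fin 7 → Fin 4) (hg : Function.Surjective g) : FCurve n :=
  ⟨g ∘ col, hg.comp (col_surj h7)⟩

theorem mkF_union (h7 : 7 ≤ n) (g : Fin 7 → Fin 4) (hg : Function.Surjective g) (S : Finset (Fin 4))
    (T : Finset (Fin 7)) (hT : univ.filter (fun j => g j ∈ S) = T) :
    (mkF h7 g hg : FCurve n).union S = pre n T := by
  subst hT
  ext i
  simp [mkF, FCurve.union, pre]

theorem pre_single (h7 : 7 ≤ n) (j : Fin 7) (hj : j.1 < 6) : pre n {j} = {⟨j, by omega⟩} := by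
  ext i
  simp only [pre, mem_filter, mem_univ, true_and, mem_singleton, col, Fin.ext_iff]
  omega

end

/-- pointwise linearity -/
def PL (l : ℕ) (g : (ℕ → ℕ) → (ℕ → ℕ)) : Prop :=
  ∀ v : ℕ → ℕ, (∀ c, l < c → v c = 0) → ∀ c, g v c = ∑ ν ∈ range (l + 1), v ν * g (dl ν) c

theorem PL_id (l : ℕ) : PL l (fun v => v) := by
  intro v hv c
  by_cases hc : c ≤ l
  · rw [sum_eq_single c]
    · simp [dl]
    · intro x _ hx; simp [dl, Ne.symm hx]
    · intro h; exact absurd (mem_range.2 (by omega)) h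
  · show v c = ∑ ν ∈ range (l + 1), v ν * dl ν c
    rw [hv c (by omega)]
    symm
    apply sum_eq_zero; intro x hx
    have := mem_range.1 hx
    simp only [dl]
    rw [if_neg (by omega), mul_zero]

theorem PL_conv (l : ℕ) (u : ℕ → ℕ) (g : (ℕ → ℕ) → (ℕ → ℕ)) (hg : PL l g) :
    PL l (fun v => conv l u (g v)) := by
  intro v hv c
  show conv l u (g v) c = ∑ ν ∈ range (l + 1), v ν * conv l u (g (dl ν)) c
  unfold conv
  simp only [mul_sum]
  symm
  rw [sum3_comm]
  apply sum_congr rfl; intro a _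
  apply sum_congr rfl; intro b _
  rw [hg v hv b, mul_sum, sum_mul]
  apply sum_congr rfl; intro ν _
  ring

theorem val_lin3 (l : ℕ) (u0 u1 u2 : ℕ → ℕ) (g : (ℕ → ℕ) → (ℕ → ℕ)) (hg : PL l g)
    (v : ℕ → ℕ) (hv : ∀ c, l < c → v c = 0) :
    val l u0 u1 u2 (g v) = ∑ ν ∈ range (l + 1), v ν * val l u0 u1 u2 (g (dl ν)) := by
  unfold val
  simp only [mul_sum]
  symm
  rw [sum_comm]
  apply sum_congr rfl; intro a _
  rw [sum_comm]
  apply sum_congr rfl; intro b _
  rw [sum_comm]
  apply sum_congr rfl; intro c _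
  rw [sum_comm]
  apply sum_congr rfl; intro d _
  rw [hg v hv d, mul_sum, sum_mul]
  apply sum_congr rfl; intro ν _
  ring

theorem val_lin2 (l : ℕ) (u0 u1 u3 : ℕ → ℕ) (g : (ℕ → ℕ) → (ℕ → ℕ)) (hg : PL l g)
    (v : ℕ → ℕ) (hv : ∀ c, l < c → v c = 0) :
    val l u0 u1 (g v) u3 = ∑ ν ∈ range (l + 1), v ν * val l u0 u1 (g (dl ν)) u3 := by
  unfold val
  simp only [mul_sum]
  symm
  rw [sum_comm]
  apply sum_congr rfl; intro a _
  rw [sum_comm]
  apply sum_congr rfl; intro b _
  rw [sum_comm]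
  apply sum_congr rfl; intro c _
  rw [sum_comm]
  apply sum_congr rfl; intro d _
  rw [hg v hv c, mul_sum, sum_mul, sum_mul]
  apply sum_congr rfl; intro ν _
  ring

end Pool.Agent.CBSl2
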