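import Pool.Agent.CBSl2.Family

open Finset

namespace Pool.Agent.CBSl2

theorem finite_cbSet (n l0 : ℕ) : (cbSet n (Set.Iic l0)).Finite := by
  have h : cbSet n (Set.Iic l0) ⊆ ⋃ l ∈ Set.Iic l0, (fun lam : Fin n → ℕ => cbDiv l lam) ''
      (Set.pi Set.univ (fun _ => Set.Iic l0)) := by
    rintro D ⟨l, _, hl, lam, hlam, rfl⟩
    rw [Set.mem_iUnion₂]
    refine ⟨l, hl, lam, ?_, rfl⟩
    intro i _
    exact (hlam i).trans hl
  refine Set.Finite.subset ?_ h
  apply Set.Finite.biUnion (Set.finite_Iic l0)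
  intro l _
  apply Set.Finite.image
  exact Set.Finite.pi (fun _ => Set.finite_Iic l0)

section
variable {n : ℕ} (h7 : 7 ≤ n)

theorem Zf_add (x y : FCurve n → ℝ) : Zf h7 (x + y) = Zf h7 x + Zf h7 y := by
  unfold Zf; simp only [Pi.add_apply]; ring
theorem Vf_add (x y : FCurve n → ℝ) : Vf h7 (x + y) = Vf h7 x + Vf h7 y := by
  unfold Vf; simp only [Pi.add_apply]
theorem Yf_add (x y : FCurve n → ℝ) : Yf h7 (x + y) = Yf h7 x + Yf h7 y := by
  unfold Yf; simp only [Pi.add_apply]; ring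
theorem nn_smul (c : {c : ℝ // 0 ≤ c}) (x : FCurve n → ℝ) (F : FCurve n) :
    (c • x) F = (c : ℝ) * x F := rfl
theorem Zf_smul (c : {c : ℝ // 0 ≤ c}) (x : FCurve n → ℝ) :
    Zf h7 (c • x) = (c : ℝ) * Zf h7 x := by
  unfold Zf; simp only [nn_smul]; ring
theorem Vf_smul (c : {c : ℝ // 0 ≤ c}) (x : FCurve n → ℝ) :
    Vf h7 (c • x) = (c : ℝ) * Vf h7 x := by
  unfold Vf; simp only [nn_smul]
theorem Yf_smul (c : {c : ℝ // 0 ≤ c}) (x : FCurve n → ℝ) :
    Yf h7 (c • x) = (c : ℝ) * Yf h7 x := by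
  unfold Yf; simp only [nn_smul]; ring

/-- a uniform gap on finitely many classes -/
theorem gap (S : Set (FCurve n → ℝ)) (hS : S.Finite) (h : S ⊆ cbSet n Set.univ) :
    ∃ ε : ℝ, 0 < ε ∧ ∀ D ∈ S, Zf h7 D = 0 → (3 + ε) * Vf h7 D ≤ Yf h7 D := by
  induction S, hS using Set.Finite.induction_on with
  | empty => exact ⟨1, one_pos, by simp⟩
  | @insert D S hD hS ih =>
    obtain ⟨ε, hε, hh⟩ := ih ((Set.subset_insert D S).trans h)
    have hmem := h (Set.mem_insert D S)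
    obtain ⟨l, _, _, lam, hlam, hDe⟩ := hmem
    have cp := class_prop h7 l lam hlam
    rw [← hDe] at cp
    obtain ⟨_, c2, c3, c4⟩ := cp
    have key : ∃ δ : ℝ, 0 < δ ∧ (Zf h7 D = 0 → (3 + δ) * Vf h7 D ≤ Yf h7 D) := by
      by_cases hZ : Zf h7 D = 0
      · rcases c4 hZ with hv | hv
        · exact ⟨1, one_pos, fun _ => by rw [hv]; simpa using c3⟩
        · rcases c2.eq_or_lt with h0 | h0
          · exact ⟨1, one_pos, fun _ => by rw [← h0]; simpa using c3⟩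
          · refine ⟨(Yf h7 D - 3 * Vf h7 D) / Vf h7 D, div_pos (by linarith) h0, fun _ => ?_⟩
            have : (3 + (Yf h7 D - 3 * Vf h7 D) / Vf h7 D) * Vf h7 D = Yf h7 D := by
              field_simp; ring
            exact this.le
      · exact ⟨1, one_pos, fun h => absurd h hZ⟩
    obtain ⟨δ, hδ, hk⟩ := key
    refine ⟨min ε δ, lt_min hε hδ, ?_⟩
    intro E hE hZ
    rcases hE with rfl | hE
    · have h1 := hk hZ
      have h2 : min ε δ ≤ δ := min_le_right _ _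
      nlinarith
    · have h1 := hh E hE hZ
      have h2 : min ε δ ≤ ε := min_le_left _ _
      obtain ⟨l', _, _, lam', hlam', hDe'⟩ := h (Set.mem_insert_of_mem D hE)
      have cp' := (class_prop h7 l' lam' hlam').2.1
      rw [← hDe'] at cp'
      nlinarith

theorem hull_prop (S : Set (FCurve n → ℝ)) (h : S ⊆ cbSet n Set.univ) (ε : ℝ)
    (hε : ∀ D ∈ S, Zf h7 D = 0 → (3 + ε) * Vf h7 D ≤ Yf h7 D) (x : FCurve n → ℝ)
    (hx : x ∈ PointedCone.hull ℝ S) :
    0 ≤ Zf h7 x ∧ (Zf h7 x = 0 → (3 + ε) * Vf h7 x ≤ Yf h7 x) := by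
  unfold PointedCone.hull at hx
  induction hx using Submodule.span_induction with
  | mem D hD =>
    refine ⟨?_, hε D hD⟩
    obtain ⟨l, _, _, lam, hlam, hDe⟩ := h hD
    rw [hDe]
    exact (class_prop h7 l lam hlam).1
  | zero =>
    have e1 : Zf h7 (0 : FCurve n → ℝ) = 0 := by unfold Zf; simp
    have e2 : Vf h7 (0 : FCurve n → ℝ) = 0 := by unfold Vf; simp
    have e3 : Yf h7 (0 : FCurve n → ℝ) = 0 := by unfold Yf; simp
    rw [e1, e2, e3]; simp
  | add x y _ _ hx hy =>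
    rw [Zf_add, Vf_add, Yf_add]
    refine ⟨add_nonneg hx.1 hy.1, fun hZ => ?_⟩
    have h1 : Zf h7 x = 0 := by linarith [hx.1, hy.1]
    have h2 : Zf h7 y = 0 := by linarith [hx.1, hy.1]
    have := hx.2 h1
    have := hy.2 h2
    linarith
  | smul c x _ hx =>
    rw [Zf_smul, Vf_smul, Yf_smul]
    refine ⟨mul_nonneg c.2 hx.1, fun hZ => ?_⟩
    rcases mul_eq_zero.1 hZ with h0 | h0
    · rw [h0]; simp
    · have := hx.2 h0
      have hc : (0 : ℝ) ≤ c := c.2
      calc (3 + ε) * ((c : ℝ) * Vf h7 x) = (c : ℝ) * ((3 + ε) * Vf h7 x) := by ring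
        _ ≤ (c : ℝ) * Yf h7 x := mul_le_mul_of_nonneg_left this hc

include h7 in
/-- some class of the family is not in the cone of a given level bound -/
theorem exists_not_mem (l0 : ℕ) : ∃ m : ℕ, 1 ≤ m ∧ l0 < 8 * m ∧
    cbDiv (8 * m) (fam n m) ∉ cbConeLE n l0 := by
  have hsub : cbSet n (Set.Iic l0) ⊆ cbSet n Set.univ := by
    rintro D ⟨l, h1, _, h2⟩
    exact ⟨l, h1, Set.mem_univ _, h2⟩
  obtain ⟨ε, hε, hgap⟩ := gap h7 _ (finite_cbSet n l0) hsub
  obtain ⟨m0, hm0⟩ := exists_nat_gt (3 / ε)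
  refine ⟨m0 + l0 + 1, by omega, by omega, ?_⟩
  intro hmem
  obtain ⟨_, hp⟩ := hull_prop h7 _ hsub ε hgap _ hmem
  obtain ⟨f1, f2, f3⟩ := fam_vals h7 (m0 + l0 + 1) (by omega)
  have h1 := hp f1
  have hm : (3 / ε : ℝ) < ((m0 + l0 + 1 : ℕ) : ℝ) := by
    refine hm0.trans_le ?_
    push_cast
    have : (0 : ℝ) ≤ l0 := Nat.cast_nonneg _
    linarith
  set M : ℝ := ((m0 + l0 + 1 : ℕ) : ℝ) with hM
  have hMpos : 0 < M := lt_trans (by positivity) hm
  have h2 : (3 + ε) * (M * M) ≤ 3 * (M * (M + 1)) := by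
    have : (3 + ε) * (M * M) ≤ (3 + ε) * Vf h7 (cbDiv (8 * (m0 + l0 + 1)) (fam n (m0 + l0 + 1))) :=
      mul_le_mul_of_nonneg_left f2 (by positivity)
    linarith
  have h3 : ε * M ≤ 3 := by
    have : ε * M * M ≤ 3 * M := by nlinarith
    exact le_of_mul_le_mul_right this hMpos
  rw [div_lt_iff₀ hε] at hm
  linarith

end

theorem cbConeLE_mono (n : ℕ) {l0 l1 : ℕ} (h : l0 ≤ l1) : cbConeLE n l0 ≤ cbConeLE n l1 := by
  unfold cbConeLE PointedCone.hull
  apply Submodule.span_mono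
  rintro D ⟨l, h1, h2, h3⟩
  exact ⟨l, h1, le_trans h2 h, h3⟩

theorem mem_cbCone (n : ℕ) (x : FCurve n → ℝ) (hx : x ∈ cbCone n) : ∃ l0, x ∈ cbConeLE n l0 := by
  unfold cbCone PointedCone.hull at hx
  induction hx using Submodule.span_induction with
  | mem D hD =>
    obtain ⟨l, h1, _, h3⟩ := hD
    exact ⟨l, Submodule.subset_span ⟨l, h1, Set.mem_Iic.2 (Nat.le_refl l), h3⟩⟩
  | zero => exact ⟨0, Submodule.zero_mem _⟩
  | add x y _ _ hx hy =>
    obtain ⟨a, ha⟩ := hx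
    obtain ⟨b, hb⟩ := hy
    exact ⟨max a b, Submodule.add_mem _ (cbConeLE_mono n (le_max_left _ _) ha)
      (cbConeLE_mono n (le_max_right _ _) hb)⟩
  | smul c x _ hx =>
    obtain ⟨a, ha⟩ := hx
    exact ⟨a, Submodule.smul_mem _ c ha⟩

theorem fg_bound (n : ℕ) (h : (cbCone n).FG) : ∃ l0, cbCone n ≤ cbConeLE n l0 := by
  obtain ⟨T, hT⟩ := h
  have : ∀ T : Finset (FCurve n → ℝ), (∀ x ∈ T, x ∈ cbCone n) → ∃ l0, ∀ x ∈ T, x ∈ cbConeLE n l0 := by
    classical
    intro T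
    induction T using Finset.induction_on with
    | empty => intro _; exact ⟨0, by simp⟩
    | insert x T _ ih =>
      intro hh
      obtain ⟨a, ha⟩ := ih (fun y hy => hh y (Finset.mem_insert_of_mem hy))
      obtain ⟨b, hb⟩ := mem_cbCone n x (hh x (Finset.mem_insert_self x T))
      refine ⟨max a b, ?_⟩
      intro y hy
      rcases Finset.mem_insert.1 hy with rfl | hy
      · exact cbConeLE_mono n (le_max_right _ _) hb
      · exact cbConeLE_mono n (le_max_left _ _) (ha y hy)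
  obtain ⟨l0, hl0⟩ := this T (fun x hx => by
    rw [← hT]; exact Submodule.subset_span hx)
  refine ⟨l0, ?_⟩
  rw [← hT]
  exact Submodule.span_le.2 hl0

end Pool.Agent.CBSl2
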