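import Pool.Agent.CBSl2.Collapse

open Finset

namespace Pool.Agent.CBSl2

theorem cb_eval {n : ℕ} (h7 : 7 ≤ n) (l : ℕ) (lam : Fin n → ℕ) (hl : ∀ i, lam i ≤ l)
    (g : Fin 7 → Fin 4) (hg : Function.Surjective g) (T0 T1 T2 T3 : Finset (Fin 7))
    (h0 : univ.filter (fun j => g j ∈ ({0} : Finset (Fin 4))) = T0)
    (h1 : univ.filter (fun j => g j ∈ ({1} : Finset (Fin 4))) = T1)
    (h2 : univ.filter (fun j => g j ∈ ({2} : Finset (Fin 4))) = T2)
    (h3 : univ.filter (fun j => g j ∈ ({3} : Finset (Fin 4))) = T3) :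
    cbDiv l lam (mkF h7 g hg) = (val l (rk l lam (pre n T0)) (rk l lam (pre n T1))
      (rk l lam (pre n T2)) (rk l lam (pre n T3)) : ℝ) := by
  rw [cbDiv_eq_val _ l lam hl, mkF_union h7 g hg {0} T0 h0, mkF_union h7 g hg {1} T1 h1,
    mkF_union h7 g hg {2} T2 h2, mkF_union h7 g hg {3} T3 h3]

theorem rk_pre_lt {n : ℕ} (h7 : 7 ≤ n) (l : ℕ) (lam : Fin n → ℕ) (hl : ∀ i, lam i ≤ l)
    (j : Fin 7) (hj : j.1 < 6) : rk l lam (pre n {j}) = dl (lam ⟨j, by omega⟩) := by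
  rw [pre_single h7 j hj, rk_singleton l lam _ (hl _)]

section
variable (l a b r s z5 z6 : ℕ) (v : ℕ → ℕ)

/-- value on the F-curve `V` -/
def fV (l a b r s z5 z6 : ℕ) (v : ℕ → ℕ) : ℕ :=
  val l (dl a) (dl b) (conv l (dl r) (dl s)) (conv l (dl z5) (conv l (dl z6) v))

/-- value on the F-curve `Y5` -/
def fY5 (l a b r s z5 z6 : ℕ) (v : ℕ → ℕ) : ℕ :=
  val l (dl a) (conv l (dl b) (conv l (dl r) (dl s))) (conv l (dl z6) v) (dl z5)

/-- value on the F-curve `Y6` -/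
def fY6 (l a b r s z5 z6 : ℕ) (v : ℕ → ℕ) : ℕ :=
  val l (dl a) (conv l (dl b) (conv l (dl r) (dl s))) (conv l (dl z5) v) (dl z6)

/-- value on the F-curve `Y7` -/
def fY7 (l a b r s z5 z6 : ℕ) (v : ℕ → ℕ) : ℕ :=
  val l (dl a) (conv l (dl b) (conv l (dl r) (dl s))) (conv l (dl z5) (dl z6)) v

/-- value on the F-curve `O5` -/
def fO5 (l a b r s z5 z6 : ℕ) (v : ℕ → ℕ) : ℕ :=
  val l (conv l (dl a) (dl b)) (dl r) (conv l (dl s) (dl z5)) (conv l (dl z6) v)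

/-- value on the F-curve `O6` -/
def fO6 (l a b r s z5 z6 : ℕ) (v : ℕ → ℕ) : ℕ :=
  val l (conv l (dl a) (dl b)) (dl r) (conv l (dl s) (dl z6)) (conv l (dl z5) v)

/-- value on the F-curve `O7` -/
def fO7 (l a b r s z5 z6 : ℕ) (v : ℕ → ℕ) : ℕ :=
  val l (conv l (dl a) (dl b)) (dl r) (conv l (dl s) v) (conv l (dl z5) (dl z6))

/-- value on the F-curve `P5` -/
def fP5 (l a b r s z5 z6 : ℕ) (v : ℕ → ℕ) : ℕ :=
  val l (conv l (dl a) (dl b)) (dl s) (conv l (dl r) (dl z5)) (conv l (dl z6) v)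

/-- value on the F-curve `P6` -/
def fP6 (l a b r s z5 z6 : ℕ) (v : ℕ → ℕ) : ℕ :=
  val l (conv l (dl a) (dl b)) (dl s) (conv l (dl r) (dl z6)) (conv l (dl z5) v)

/-- value on the F-curve `P7` -/
def fP7 (l a b r s z5 z6 : ℕ) (v : ℕ → ℕ) : ℕ :=
  val l (conv l (dl a) (dl b)) (dl s) (conv l (dl r) v) (conv l (dl z5) (dl z6))

/-- value on the F-curve `K5` -/
def fK5 (l a b r s z5 z6 : ℕ) (v : ℕ → ℕ) : ℕ :=
  val l (dl a) (dl b) (conv l (conv l (dl r) (dl s)) (conv l (dl z6) v)) (dl z5)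

/-- value on the F-curve `K6` -/
def fK6 (l a b r s z5 z6 : ℕ) (v : ℕ → ℕ) : ℕ :=
  val l (dl a) (dl b) (conv l (conv l (dl r) (dl s)) (conv l (dl z5) v)) (dl z6)

/-- value on the F-curve `K7` -/
def fK7 (l a b r s z5 z6 : ℕ) (v : ℕ → ℕ) : ℕ :=
  val l (dl a) (dl b) (conv l (conv l (dl r) (dl s)) (conv l (dl z5) (dl z6))) v

end

/-- labelling of `V` -/
def gV : Fin 7 → Fin 4 := ![0, 1, 2, 2, 3, 3, 3]

theorem gV_surj : Function.Surjective gV := by decide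

theorem eval_V {n : ℕ} (h7 : 7 ≤ n) (l : ℕ) (lam : Fin n → ℕ) (hl : ∀ i, lam i ≤ l) :
    cbDiv l lam (mkF h7 gV gV_surj) = (fV l (lam ⟨0, by omega⟩) (lam ⟨1, by omega⟩)
      (lam ⟨2, by omega⟩) (lam ⟨3, by omega⟩) (lam ⟨4, by omega⟩) (lam ⟨5, by omega⟩)
      (rk l lam (pre n {6})) : ℝ) := by
  rw [cb_eval h7 l lam hl gV gV_surj {0} {1} {2, 3} {4, 5, 6}
    (by decide) (by decide) (by decide) (by decide)]
  have w0 : rk l lam (pre n {0}) = dl (lam ⟨0, by omega⟩) := rk_pre_lt h7 l lam hl 0 (by decide)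
  have w1 : rk l lam (pre n {1}) = dl (lam ⟨1, by omega⟩) := rk_pre_lt h7 l lam hl 1 (by decide)
  have w2 : rk l lam (pre n {2}) = dl (lam ⟨2, by omega⟩) := rk_pre_lt h7 l lam hl 2 (by decide)
  have w3 : rk l lam (pre n {3}) = dl (lam ⟨3, by omega⟩) := rk_pre_lt h7 l lam hl 3 (by decide)
  have w4 : rk l lam (pre n {4}) = dl (lam ⟨4, by omega⟩) := rk_pre_lt h7 l lam hl 4 (by decide)
  have w5 : rk l lam (pre n {5}) = dl (lam ⟨5, by omega⟩) := rk_pre_lt h7 l lam hl 5 (by decide)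
  rw [pre_insert l lam 2 {3} (by decide), pre_insert l lam 4 {5, 6} (by decide), pre_insert l lam 5 {6} (by decide), w0, w1, w2, w3, w4, w5]
  unfold fV
  simp only [conv_assoc]

/-- labelling of `Y5` -/
def gY5 : Fin 7 → Fin 4 := ![0, 1, 1, 1, 3, 2, 2]

theorem gY5_surj : Function.Surjective gY5 := by decide

theorem eval_Y5 {n : ℕ} (h7 : 7 ≤ n) (l : ℕ) (lam : Fin n → ℕ) (hl : ∀ i, lam i ≤ l) :
    cbDiv l lam (mkF h7 gY5 gY5_surj) = (fY5 l (lam ⟨0, by omega⟩) (lam ⟨1, by omega⟩)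
      (lam ⟨2, by omega⟩) (lam ⟨3, by omega⟩) (lam ⟨4, by omega⟩) (lam ⟨5, by omega⟩)
      (rk l lam (pre n {6})) : ℝ) := by
  rw [cb_eval h7 l lam hl gY5 gY5_surj {0} {1, 2, 3} {5, 6} {4}
    (by decide) (by decide) (by decide) (by decide)]
  have w0 : rk l lam (pre n {0}) = dl (lam ⟨0, by omega⟩) := rk_pre_lt h7 l lam hl 0 (by decide)
  have w1 : rk l lam (pre n {1}) = dl (lam ⟨1, by omega⟩) := rk_pre_lt h7 l lam hl 1 (by decide)
  have w2 : rk l lam (pre n {2}) = dl (lam ⟨2, by omega⟩) := rk_pre_lt h7 l lam hl 2 (by decide)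
  have w3 : rk l lam (pre n {3}) = dl (lam ⟨3, by omega⟩) := rk_pre_lt h7 l lam hl 3 (by decide)
  have w4 : rk l lam (pre n {4}) = dl (lam ⟨4, by omega⟩) := rk_pre_lt h7 l lam hl 4 (by decide)
  have w5 : rk l lam (pre n {5}) = dl (lam ⟨5, by omega⟩) := rk_pre_lt h7 l lam hl 5 (by decide)
  rw [pre_insert l lam 1 {2, 3} (by decide), pre_insert l lam 2 {3} (by decide), pre_insert l lam 5 {6} (by decide), w0, w1, w2, w3, w4, w5]
  unfold fY5
  simp only [conv_assoc]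

/-- labelling of `Y6` -/
def gY6 : Fin 7 → Fin 4 := ![0, 1, 1, 1, 2, 3, 2]

theorem gY6_surj : Function.Surjective gY6 := by decide

theorem eval_Y6 {n : ℕ} (h7 : 7 ≤ n) (l : ℕ) (lam : Fin n → ℕ) (hl : ∀ i, lam i ≤ l) :
    cbDiv l lam (mkF h7 gY6 gY6_surj) = (fY6 l (lam ⟨0, by omega⟩) (lam ⟨1, by omega⟩)
      (lam ⟨2, by omega⟩) (lam ⟨3, by omega⟩) (lam ⟨4, by omega⟩) (lam ⟨5, by omega⟩)
      (rk l lam (pre n {6})) : ℝ) := by
  rw [cb_eval h7 l lam hl gY6 gY6_surj {0} {1, 2, 3} {4, 6} {5}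
    (by decide) (by decide) (by decide) (by decide)]
  have w0 : rk l lam (pre n {0}) = dl (lam ⟨0, by omega⟩) := rk_pre_lt h7 l lam hl 0 (by decide)
  have w1 : rk l lam (pre n {1}) = dl (lam ⟨1, by omega⟩) := rk_pre_lt h7 l lam hl 1 (by decide)
  have w2 : rk l lam (pre n {2}) = dl (lam ⟨2, by omega⟩) := rk_pre_lt h7 l lam hl 2 (by decide)
  have w3 : rk l lam (pre n {3}) = dl (lam ⟨3, by omega⟩) := rk_pre_lt h7 l lam hl 3 (by decide)
  have w4 : rk l lam (pre n {4}) = dl (lam ⟨4, by omega⟩) := rk_pre_lt h7 l lam hl 4 (by decide)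
  have w5 : rk l lam (pre n {5}) = dl (lam ⟨5, by omega⟩) := rk_pre_lt h7 l lam hl 5 (by decide)
  rw [pre_insert l lam 1 {2, 3} (by decide), pre_insert l lam 2 {3} (by decide), pre_insert l lam 4 {6} (by decide), w0, w1, w2, w3, w4, w5]
  unfold fY6
  simp only [conv_assoc]

/-- labelling of `Y7` -/
def gY7 : Fin 7 → Fin 4 := ![0, 1, 1, 1, 2, 2, 3]

theorem gY7_surj : Function.Surjective gY7 := by decide

theorem eval_Y7 {n : ℕ} (h7 : 7 ≤ n) (l : ℕ) (lam : Fin n → ℕ) (hl : ∀ i, lam i ≤ l) :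
    cbDiv l lam (mkF h7 gY7 gY7_surj) = (fY7 l (lam ⟨0, by omega⟩) (lam ⟨1, by omega⟩)
      (lam ⟨2, by omega⟩) (lam ⟨3, by omega⟩) (lam ⟨4, by omega⟩) (lam ⟨5, by omega⟩)
      (rk l lam (pre n {6})) : ℝ) := by
  rw [cb_eval h7 l lam hl gY7 gY7_surj {0} {1, 2, 3} {4, 5} {6}
    (by decide) (by decide) (by decide) (by decide)]
  have w0 : rk l lam (pre n {0}) = dl (lam ⟨0, by omega⟩) := rk_pre_lt h7 l lam hl 0 (by decide)
  have w1 : rk l lam (pre n {1}) = dl (lam ⟨1, by omega⟩) := rk_pre_lt h7 l lam hl 1 (by decide)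
  have w2 : rk l lam (pre n {2}) = dl (lam ⟨2, by omega⟩) := rk_pre_lt h7 l lam hl 2 (by decide)
  have w3 : rk l lam (pre n {3}) = dl (lam ⟨3, by omega⟩) := rk_pre_lt h7 l lam hl 3 (by decide)
  have w4 : rk l lam (pre n {4}) = dl (lam ⟨4, by omega⟩) := rk_pre_lt h7 l lam hl 4 (by decide)
  have w5 : rk l lam (pre n {5}) = dl (lam ⟨5, by omega⟩) := rk_pre_lt h7 l lam hl 5 (by decide)
  rw [pre_insert l lam 1 {2, 3} (by decide), pre_insert l lam 2 {3} (by decide), pre_insert l lam 4 {5} (by decide), w0, w1, w2, w3, w4, w5]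
  unfold fY7
  simp only [conv_assoc]

/-- labelling of `O5` -/
def gO5 : Fin 7 → Fin 4 := ![0, 0, 1, 2, 2, 3, 3]

theorem gO5_surj : Function.Surjective gO5 := by decide

theorem eval_O5 {n : ℕ} (h7 : 7 ≤ n) (l : ℕ) (lam : Fin n → ℕ) (hl : ∀ i, lam i ≤ l) :
    cbDiv l lam (mkF h7 gO5 gO5_surj) = (fO5 l (lam ⟨0, by omega⟩) (lam ⟨1, by omega⟩)
      (lam ⟨2, by omega⟩) (lam ⟨3, by omega⟩) (lam ⟨4, by omega⟩) (lam ⟨5, by omega⟩)
      (rk l lam (pre n {6})) : ℝ) := by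
  rw [cb_eval h7 l lam hl gO5 gO5_surj {0, 1} {2} {3, 4} {5, 6}
    (by decide) (by decide) (by decide) (by decide)]
  have w0 : rk l lam (pre n {0}) = dl (lam ⟨0, by omega⟩) := rk_pre_lt h7 l lam hl 0 (by decide)
  have w1 : rk l lam (pre n {1}) = dl (lam ⟨1, by omega⟩) := rk_pre_lt h7 l lam hl 1 (by decide)
  have w2 : rk l lam (pre n {2}) = dl (lam ⟨2, by omega⟩) := rk_pre_lt h7 l lam hl 2 (by decide)
  have w3 : rk l lam (pre n {3}) = dl (lam ⟨3, by omega⟩) := rk_pre_lt h7 l lam hl 3 (by decide)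
  have w4 : rk l lam (pre n {4}) = dl (lam ⟨4, by omega⟩) := rk_pre_lt h7 l lam hl 4 (by decide)
  have w5 : rk l lam (pre n {5}) = dl (lam ⟨5, by omega⟩) := rk_pre_lt h7 l lam hl 5 (by decide)
  rw [pre_insert l lam 0 {1} (by decide), pre_insert l lam 3 {4} (by decide), pre_insert l lam 5 {6} (by decide), w0, w1, w2, w3, w4, w5]
  unfold fO5
  simp only [conv_assoc]

/-- labelling of `O6` -/
def gO6 : Fin 7 → Fin 4 := ![0, 0, 1, 2, 3, 2, 3]

theorem gO6_surj : Function.Surjective gO6 := by decide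

theorem eval_O6 {n : ℕ} (h7 : 7 ≤ n) (l : ℕ) (lam : Fin n → ℕ) (hl : ∀ i, lam i ≤ l) :
    cbDiv l lam (mkF h7 gO6 gO6_surj) = (fO6 l (lam ⟨0, by omega⟩) (lam ⟨1, by omega⟩)
      (lam ⟨2, by omega⟩) (lam ⟨3, by omega⟩) (lam ⟨4, by omega⟩) (lam ⟨5, by omega⟩)
      (rk l lam (pre n {6})) : ℝ) := by
  rw [cb_eval h7 l lam hl gO6 gO6_surj {0, 1} {2} {3, 5} {4, 6}
    (by decide) (by decide) (by decide) (by decide)]
  have w0 : rk l lam (pre n {0}) = dl (lam ⟨0, by omega⟩) := rk_pre_lt h7 l lam hl 0 (by decide)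
  have w1 : rk l lam (pre n {1}) = dl (lam ⟨1, by omega⟩) := rk_pre_lt h7 l lam hl 1 (by decide)
  have w2 : rk l lam (pre n {2}) = dl (lam ⟨2, by omega⟩) := rk_pre_lt h7 l lam hl 2 (by decide)
  have w3 : rk l lam (pre n {3}) = dl (lam ⟨3, by omega⟩) := rk_pre_lt h7 l lam hl 3 (by decide)
  have w4 : rk l lam (pre n {4}) = dl (lam ⟨4, by omega⟩) := rk_pre_lt h7 l lam hl 4 (by decide)
  have w5 : rk l lam (pre n {5}) = dl (lam ⟨5, by omega⟩) := rk_pre_lt h7 l lam hl 5 (by decide)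
  rw [pre_insert l lam 0 {1} (by decide), pre_insert l lam 3 {5} (by decide), pre_insert l lam 4 {6} (by decide), w0, w1, w2, w3, w4, w5]
  unfold fO6
  simp only [conv_assoc]

/-- labelling of `O7` -/
def gO7 : Fin 7 → Fin 4 := ![0, 0, 1, 2, 3, 3, 2]

theorem gO7_surj : Function.Surjective gO7 := by decide

theorem eval_O7 {n : ℕ} (h7 : 7 ≤ n) (l : ℕ) (lam : Fin n → ℕ) (hl : ∀ i, lam i ≤ l) :
    cbDiv l lam (mkF h7 gO7 gO7_surj) = (fO7 l (lam ⟨0, by omega⟩) (lam ⟨1, by omega⟩)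
      (lam ⟨2, by omega⟩) (lam ⟨3, by omega⟩) (lam ⟨4, by omega⟩) (lam ⟨5, by omega⟩)
      (rk l lam (pre n {6})) : ℝ) := by
  rw [cb_eval h7 l lam hl gO7 gO7_surj {0, 1} {2} {3, 6} {4, 5}
    (by decide) (by decide) (by decide) (by decide)]
  have w0 : rk l lam (pre n {0}) = dl (lam ⟨0, by omega⟩) := rk_pre_lt h7 l lam hl 0 (by decide)
  have w1 : rk l lam (pre n {1}) = dl (lam ⟨1, by omega⟩) := rk_pre_lt h7 l lam hl 1 (by decide)
  have w2 : rk l lam (pre n {2}) = dl (lam ⟨2, by omega⟩) := rk_pre_lt h7 l lam hl 2 (by decide)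
  have w3 : rk l lam (pre n {3}) = dl (lam ⟨3, by omega⟩) := rk_pre_lt h7 l lam hl 3 (by decide)
  have w4 : rk l lam (pre n {4}) = dl (lam ⟨4, by omega⟩) := rk_pre_lt h7 l lam hl 4 (by decide)
  have w5 : rk l lam (pre n {5}) = dl (lam ⟨5, by omega⟩) := rk_pre_lt h7 l lam hl 5 (by decide)
  rw [pre_insert l lam 0 {1} (by decide), pre_insert l lam 3 {6} (by decide), pre_insert l lam 4 {5} (by decide), w0, w1, w2, w3, w4, w5]
  unfold fO7
  simp only [conv_assoc]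

/-- labelling of `P5` -/
def gP5 : Fin 7 → Fin 4 := ![0, 0, 2, 1, 2, 3, 3]

theorem gP5_surj : Function.Surjective gP5 := by decide

theorem eval_P5 {n : ℕ} (h7 : 7 ≤ n) (l : ℕ) (lam : Fin n → ℕ) (hl : ∀ i, lam i ≤ l) :
    cbDiv l lam (mkF h7 gP5 gP5_surj) = (fP5 l (lam ⟨0, by omega⟩) (lam ⟨1, by omega⟩)
      (lam ⟨2, by omega⟩) (lam ⟨3, by omega⟩) (lam ⟨4, by omega⟩) (lam ⟨5, by omega⟩)
      (rk l lam (pre n {6})) : ℝ) := by
  rw [cb_eval h7 l lam hl gP5 gP5_surj {0, 1} {3} {2, 4} {5, 6}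
    (by decide) (by decide) (by decide) (by decide)]
  have w0 : rk l lam (pre n {0}) = dl (lam ⟨0, by omega⟩) := rk_pre_lt h7 l lam hl 0 (by decide)
  have w1 : rk l lam (pre n {1}) = dl (lam ⟨1, by omega⟩) := rk_pre_lt h7 l lam hl 1 (by decide)
  have w2 : rk l lam (pre n {2}) = dl (lam ⟨2, by omega⟩) := rk_pre_lt h7 l lam hl 2 (by decide)
  have w3 : rk l lam (pre n {3}) = dl (lam ⟨3, by omega⟩) := rk_pre_lt h7 l lam hl 3 (by decide)
  have w4 : rk l lam (pre n {4}) = dl (lam ⟨4, by omega⟩) := rk_pre_lt h7 l lam hl 4 (by decide)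
  have w5 : rk l lam (pre n {5}) = dl (lam ⟨5, by omega⟩) := rk_pre_lt h7 l lam hl 5 (by decide)
  rw [pre_insert l lam 0 {1} (by decide), pre_insert l lam 2 {4} (by decide), pre_insert l lam 5 {6} (by decide), w0, w1, w2, w3, w4, w5]
  unfold fP5
  simp only [conv_assoc]

/-- labelling of `P6` -/
def gP6 : Fin 7 → Fin 4 := ![0, 0, 2, 1, 3, 2, 3]

theorem gP6_surj : Function.Surjective gP6 := by decide

theorem eval_P6 {n : ℕ} (h7 : 7 ≤ n) (l : ℕ) (lam : Fin n → ℕ) (hl : ∀ i, lam i ≤ l) :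
    cbDiv l lam (mkF h7 gP6 gP6_surj) = (fP6 l (lam ⟨0, by omega⟩) (lam ⟨1, by omega⟩)
      (lam ⟨2, by omega⟩) (lam ⟨3, by omega⟩) (lam ⟨4, by omega⟩) (lam ⟨5, by omega⟩)
      (rk l lam (pre n {6})) : ℝ) := by
  rw [cb_eval h7 l lam hl gP6 gP6_surj {0, 1} {3} {2, 5} {4, 6}
    (by decide) (by decide) (by decide) (by decide)]
  have w0 : rk l lam (pre n {0}) = dl (lam ⟨0, by omega⟩) := rk_pre_lt h7 l lam hl 0 (by decide)
  have w1 : rk l lam (pre n {1}) = dl (lam ⟨1, by omega⟩) := rk_pre_lt h7 l lam hl 1 (by decide)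
  have w2 : rk l lam (pre n {2}) = dl (lam ⟨2, by omega⟩) := rk_pre_lt h7 l lam hl 2 (by decide)
  have w3 : rk l lam (pre n {3}) = dl (lam ⟨3, by omega⟩) := rk_pre_lt h7 l lam hl 3 (by decide)
  have w4 : rk l lam (pre n {4}) = dl (lam ⟨4, by omega⟩) := rk_pre_lt h7 l lam hl 4 (by decide)
  have w5 : rk l lam (pre n {5}) = dl (lam ⟨5, by omega⟩) := rk_pre_lt h7 l lam hl 5 (by decide)
  rw [pre_insert l lam 0 {1} (by decide), pre_insert l lam 2 {5} (by decide), pre_insert l lam 4 {6} (by decide), w0, w1, w2, w3, w4, w5]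
  unfold fP6
  simp only [conv_assoc]

/-- labelling of `P7` -/
def gP7 : Fin 7 → Fin 4 := ![0, 0, 2, 1, 3, 3, 2]

theorem gP7_surj : Function.Surjective gP7 := by decide

theorem eval_P7 {n : ℕ} (h7 : 7 ≤ n) (l : ℕ) (lam : Fin n → ℕ) (hl : ∀ i, lam i ≤ l) :
    cbDiv l lam (mkF h7 gP7 gP7_surj) = (fP7 l (lam ⟨0, by omega⟩) (lam ⟨1, by omega⟩)
      (lam ⟨2, by omega⟩) (lam ⟨3, by omega⟩) (lam ⟨4, by omega⟩) (lam ⟨5, by omega⟩)
      (rk l lam (pre n {6})) : ℝ) := by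
  rw [cb_eval h7 l lam hl gP7 gP7_surj {0, 1} {3} {2, 6} {4, 5}
    (by decide) (by decide) (by decide) (by decide)]
  have w0 : rk l lam (pre n {0}) = dl (lam ⟨0, by omega⟩) := rk_pre_lt h7 l lam hl 0 (by decide)
  have w1 : rk l lam (pre n {1}) = dl (lam ⟨1, by omega⟩) := rk_pre_lt h7 l lam hl 1 (by decide)
  have w2 : rk l lam (pre n {2}) = dl (lam ⟨2, by omega⟩) := rk_pre_lt h7 l lam hl 2 (by decide)
  have w3 : rk l lam (pre n {3}) = dl (lam ⟨3, by omega⟩) := rk_pre_lt h7 l lam hl 3 (by decide)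
  have w4 : rk l lam (pre n {4}) = dl (lam ⟨4, by omega⟩) := rk_pre_lt h7 l lam hl 4 (by decide)
  have w5 : rk l lam (pre n {5}) = dl (lam ⟨5, by omega⟩) := rk_pre_lt h7 l lam hl 5 (by decide)
  rw [pre_insert l lam 0 {1} (by decide), pre_insert l lam 2 {6} (by decide), pre_insert l lam 4 {5} (by decide), w0, w1, w2, w3, w4, w5]
  unfold fP7
  simp only [conv_assoc]

/-- labelling of `K5` -/
def gK5 : Fin 7 → Fin 4 := ![0, 1, 2, 2, 3, 2, 2]

theorem gK5_surj : Function.Surjective gK5 := by decide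

theorem eval_K5 {n : ℕ} (h7 : 7 ≤ n) (l : ℕ) (lam : Fin n → ℕ) (hl : ∀ i, lam i ≤ l) :
    cbDiv l lam (mkF h7 gK5 gK5_surj) = (fK5 l (lam ⟨0, by omega⟩) (lam ⟨1, by omega⟩)
      (lam ⟨2, by omega⟩) (lam ⟨3, by omega⟩) (lam ⟨4, by omega⟩) (lam ⟨5, by omega⟩)
      (rk l lam (pre n {6})) : ℝ) := by
  rw [cb_eval h7 l lam hl gK5 gK5_surj {0} {1} {2, 3, 5, 6} {4}
    (by decide) (by decide) (by decide) (by decide)]
  have w0 : rk l lam (pre n {0}) = dl (lam ⟨0, by omega⟩) := rk_pre_lt h7 l lam hl 0 (by decide)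
  have w1 : rk l lam (pre n {1}) = dl (lam ⟨1, by omega⟩) := rk_pre_lt h7 l lam hl 1 (by decide)
  have w2 : rk l lam (pre n {2}) = dl (lam ⟨2, by omega⟩) := rk_pre_lt h7 l lam hl 2 (by decide)
  have w3 : rk l lam (pre n {3}) = dl (lam ⟨3, by omega⟩) := rk_pre_lt h7 l lam hl 3 (by decide)
  have w4 : rk l lam (pre n {4}) = dl (lam ⟨4, by omega⟩) := rk_pre_lt h7 l lam hl 4 (by decide)
  have w5 : rk l lam (pre n {5}) = dl (lam ⟨5, by omega⟩) := rk_pre_lt h7 l lam hl 5 (by decide)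
  rw [pre_insert l lam 2 {3, 5, 6} (by decide), pre_insert l lam 3 {5, 6} (by decide), pre_insert l lam 5 {6} (by decide), w0, w1, w2, w3, w4, w5]
  unfold fK5
  simp only [conv_assoc]

/-- labelling of `K6` -/
def gK6 : Fin 7 → Fin 4 := ![0, 1, 2, 2, 2, 3, 2]

theorem gK6_surj : Function.Surjective gK6 := by decide

theorem eval_K6 {n : ℕ} (h7 : 7 ≤ n) (l : ℕ) (lam : Fin n → ℕ) (hl : ∀ i, lam i ≤ l) :
    cbDiv l lam (mkF h7 gK6 gK6_surj) = (fK6 l (lam ⟨0, by omega⟩) (lam ⟨1, by omega⟩)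
      (lam ⟨2, by omega⟩) (lam ⟨3, by omega⟩) (lam ⟨4, by omega⟩) (lam ⟨5, by omega⟩)
      (rk l lam (pre n {6})) : ℝ) := by
  rw [cb_eval h7 l lam hl gK6 gK6_surj {0} {1} {2, 3, 4, 6} {5}
    (by decide) (by decide) (by decide) (by decide)]
  have w0 : rk l lam (pre n {0}) = dl (lam ⟨0, by omega⟩) := rk_pre_lt h7 l lam hl 0 (by decide)
  have w1 : rk l lam (pre n {1}) = dl (lam ⟨1, by omega⟩) := rk_pre_lt h7 l lam hl 1 (by decide)
  have w2 : rk l lam (pre n {2}) = dl (lam ⟨2, by omega⟩) := rk_pre_lt h7 l lam hl 2 (by decide)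
  have w3 : rk l lam (pre n {3}) = dl (lam ⟨3, by omega⟩) := rk_pre_lt h7 l lam hl 3 (by decide)
  have w4 : rk l lam (pre n {4}) = dl (lam ⟨4, by omega⟩) := rk_pre_lt h7 l lam hl 4 (by decide)
  have w5 : rk l lam (pre n {5}) = dl (lam ⟨5, by omega⟩) := rk_pre_lt h7 l lam hl 5 (by decide)
  rw [pre_insert l lam 2 {3, 4, 6} (by decide), pre_insert l lam 3 {4, 6} (by decide), pre_insert l lam 4 {6} (by decide), w0, w1, w2, w3, w4, w5]
  unfold fK6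
  simp only [conv_assoc]

/-- labelling of `K7` -/
def gK7 : Fin 7 → Fin 4 := ![0, 1, 2, 2, 2, 2, 3]

theorem gK7_surj : Function.Surjective gK7 := by decide

theorem eval_K7 {n : ℕ} (h7 : 7 ≤ n) (l : ℕ) (lam : Fin n → ℕ) (hl : ∀ i, lam i ≤ l) :
    cbDiv l lam (mkF h7 gK7 gK7_surj) = (fK7 l (lam ⟨0, by omega⟩) (lam ⟨1, by omega⟩)
      (lam ⟨2, by omega⟩) (lam ⟨3, by omega⟩) (lam ⟨4, by omega⟩) (lam ⟨5, by omega⟩)
      (rk l lam (pre n {6})) : ℝ) := by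
  rw [cb_eval h7 l lam hl gK7 gK7_surj {0} {1} {2, 3, 4, 5} {6}
    (by decide) (by decide) (by decide) (by decide)]
  have w0 : rk l lam (pre n {0}) = dl (lam ⟨0, by omega⟩) := rk_pre_lt h7 l lam hl 0 (by decide)
  have w1 : rk l lam (pre n {1}) = dl (lam ⟨1, by omega⟩) := rk_pre_lt h7 l lam hl 1 (by decide)
  have w2 : rk l lam (pre n {2}) = dl (lam ⟨2, by omega⟩) := rk_pre_lt h7 l lam hl 2 (by decide)
  have w3 : rk l lam (pre n {3}) = dl (lam ⟨3, by omega⟩) := rk_pre_lt h7 l lam hl 3 (by decide)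
  have w4 : rk l lam (pre n {4}) = dl (lam ⟨4, by omega⟩) := rk_pre_lt h7 l lam hl 4 (by decide)
  have w5 : rk l lam (pre n {5}) = dl (lam ⟨5, by omega⟩) := rk_pre_lt h7 l lam hl 5 (by decide)
  rw [pre_insert l lam 2 {3, 4, 5} (by decide), pre_insert l lam 3 {4, 5} (by decide), pre_insert l lam 4 {5} (by decide), w0, w1, w2, w3, w4, w5]
  unfold fK7
  simp only [conv_assoc]


end Pool.Agent.CBSl2
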