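import Mathlib

/-!
# Conformal block divisors for `sl_2` on the moduli space of stable rational curves

Weights of `sl_2` are natural numbers (multiples of the fundamental weight), `P_l = {0, ..., l}`,
and all weights are self dual.

* `fus l a b c` is the level `l` fusion rule;
* `rk l lam A m` is the rank of the bundle of conformal blocks of level `l` whose weights are
  `lam i` for `i ∈ A` together with one more point of weight `m`;
* `FCurve n` is the set of (labelled) F-curves; classes in `N^1` of the moduli space are written
  as their vectors of intersection numbers with all F-curves. As F-curves span the space of curve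
  classes this embeds `N^1` into `FCurve n → ℝ`;
* `psi i`, `delta A` are the psi classes and the boundary divisors;
* `cbDiv l lam` is the first Chern class of the bundle of conformal blocks.
-/

open Finset

namespace Pool.Agent.CBSl2

/-- The level `l` fusion rule of `sl_2` (rank of the conformal blocks with three points of
weights `a, b, c`). -/
def fus (l a b c : ℕ) : ℕ :=
  if (a + b + c) % 2 = 0 ∧ a ≤ b + c ∧ b ≤ a + c ∧ c ≤ a + b ∧ a + b + c ≤ 2 * l then 1 else 0

/-- Fusion product of two rank vectors. -/
def conv (l : ℕ) (u v : ℕ → ℕ) : ℕ → ℕ := fun c =>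
  ∑ a ∈ range (l + 1), ∑ b ∈ range (l + 1), u a * v b * fus l a b c

/-- The rank vector concentrated at weight `a`. -/
def dl (a : ℕ) : ℕ → ℕ := fun c => if c = a then 1 else 0

/-- `rk l lam A m` is the rank of the bundle of conformal blocks with weights `lam i`, `i ∈ A`,
and one further weight `m`: fuse the weights `lam i` one after the other. -/
def rk {n : ℕ} (l : ℕ) (lam : Fin n → ℕ) (A : Finset (Fin n)) : ℕ → ℕ :=
  (A.sort (· ≤ ·)).foldr (fun i v => conv l (dl (lam i)) v) (dl 0)

/-- The trace anomaly `(m, m + 2 rho) / (2 (l + 2))` of the weight `m` at level `l`. -/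
noncomputable def Delta (l m : ℕ) : ℝ := ((m : ℝ) * (m + 2)) / (4 * (l + 2))

/-- An F-curve is a partition of the `n` points in four nonempty blocks (labelled
`0, 1, 2, 3`): the blocks are the fibres of a surjection to `Fin 4`. -/
def FCurve (n : ℕ) : Type := {F : Fin n → Fin 4 // Function.Surjective F}

/-- The union of the blocks of the F-curve whose label is in `S`. -/
def FCurve.union {n : ℕ} (F : FCurve n) (S : Finset (Fin 4)) : Finset (Fin n) :=
  univ.filter (fun i => F.1 i ∈ S)

/-- The class `psi_i`: its degree on an F-curve is `1` if `{i}` is a block and `0` if not. -/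
noncomputable def psi {n : ℕ} (i : Fin n) : FCurve n → ℝ := fun F =>
  if F.union {F.1 i} = {i} then 1 else 0

/-- The boundary divisor of the partition in `A` and its complement: its degree on an F-curve is
`1` if `A` is the union of two blocks, `-1` if `A` or its complement is a block (that is if `A`
is the union of one or of three blocks), and `0` otherwise. -/
noncomputable def delta {n : ℕ} (A : Finset (Fin n)) : FCurve n → ℝ := fun F =>
  open Classical in
  if ∃ S : Finset (Fin 4), S.card = 2 ∧ A = F.union S then 1
  else if ∃ S : Finset (Fin 4), (S.card = 1 ∨ S.card = 3) ∧ A = F.union S then -1 else 0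

/-- The coefficient of the boundary divisor of `A` in the formula for `c_1`. -/
noncomputable def bcoef {n : ℕ} (l : ℕ) (lam : Fin n → ℕ) (A : Finset (Fin n)) : ℝ :=
  ∑ m ∈ range (l + 1), Delta l m * ((rk l lam A m : ℝ) * (rk l lam Aᶜ m : ℝ))

/-- The conformal block divisor `D(sl_2, l, lam)`:
`c_1 = rank * ∑_i Delta(lam_i) psi_i - ∑_A bcoef(A) delta_A`, the second sum over the boundary
divisors. Every boundary divisor is the `delta A` of exactly two sets `A`, which accounts for the
factor `1 / 2`. -/
noncomputable def cbDiv {n : ℕ} (l : ℕ) (lam : Fin n → ℕ) : FCurve n → ℝ :=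
  (rk l lam univ 0 : ℝ) • ∑ i : Fin n, Delta l (lam i) • psi i
  - (1 / 2 : ℝ) • ∑ A ∈ univ.filter (fun A : Finset (Fin n) => 2 ≤ A.card ∧ A.card + 2 ≤ n),
      bcoef l lam A • delta A

/-- The set of the conformal block divisors of level `l` with `1 ≤ l` and `l ∈ I`. -/
def cbSet (n : ℕ) (I : Set ℕ) : Set (FCurve n → ℝ) :=
  {D | ∃ l : ℕ, 1 ≤ l ∧ l ∈ I ∧ ∃ lam : Fin n → ℕ, (∀ i, lam i ≤ l) ∧ D = cbDiv l lam}

/-- The cone generated by all conformal block divisors. -/
noncomputable def cbCone (n : ℕ) : PointedCone ℝ (FCurve n → ℝ) :=
  PointedCone.hull ℝ (cbSet n Set.univ)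

/-- The cone generated by the conformal block divisors of level at most `l0`. -/
noncomputable def cbConeLE (n l0 : ℕ) : PointedCone ℝ (FCurve n → ℝ) :=
  PointedCone.hull ℝ (cbSet n (Set.Iic l0))

end Pool.Agent.CBSl2
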