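import Pool.Agent.CBSl2.Fus

open Finset

namespace Pool.Agent.CBSl2

/-- `c_1` of the four point bundle -/
noncomputable def c1deg (l a b c d : ℕ) : ℝ :=
  (N4 l a b c d : ℝ) * (Delta l a + Delta l b + Delta l c + Delta l d)
  - (∑ t ∈ range (l + 1), Delta l t * ((fus l a b t * fus l t c d : ℕ) : ℝ)
    + ∑ t ∈ range (l + 1), Delta l t * ((fus l a c t * fus l t b d : ℕ) : ℝ)
    + ∑ t ∈ range (l + 1), Delta l t * ((fus l a d t * fus l t b c : ℕ) : ℝ))

/-- closed form of the four point degree -/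
def E4 (l a b c d : ℕ) : ℕ := N4 l a b c d * ((a + b + c + d) / 2 - l)

theorem sumDelta (l lo n : ℕ) : ∑ i ∈ range n, Delta l (lo + 2 * i)
    = (n : ℝ) * (((lo : ℝ) + n) ^ 2 + ((n : ℝ) ^ 2 - 1) / 3 - 1) / (4 * (l + 2)) := by
  have hl : (4 * ((l : ℝ) + 2)) ≠ 0 := by positivity
  induction n with
  | zero => simp
  | succ n ih =>
    rw [sum_range_succ, ih]
    unfold Delta
    push_cast
    field_simp
    ring

theorem chan_swap (l a b c d t : ℕ) :
    fus l a b t * fus l t c d = fus l c d t * fus l t a b := by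
  have e1 : fus l a b t = fus l t a b := by rw [fus_swap23, fus_swap12]
  have e2 : fus l t c d = fus l c d t := by rw [fus_swap12, fus_swap23]
  rw [e1, e2, mul_comm]

theorem c1deg_swap12 (l a b c d : ℕ) : c1deg l a b c d = c1deg l b a c d := by
  unfold c1deg
  rw [N4_swap12 l a b c d]
  have e1 : ∑ t ∈ range (l + 1), Delta l t * ((fus l a b t * fus l t c d : ℕ) : ℝ)
      = ∑ t ∈ range (l + 1), Delta l t * ((fus l b a t * fus l t c d : ℕ) : ℝ) := by
    apply sum_congr rfl; intro t _; rw [fus_swap12 l a b t]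
  have e2 : ∑ t ∈ range (l + 1), Delta l t * ((fus l a c t * fus l t b d : ℕ) : ℝ)
      = ∑ t ∈ range (l + 1), Delta l t * ((fus l b d t * fus l t a c : ℕ) : ℝ) := by
    apply sum_congr rfl; intro t _; rw [chan_swap l a c b d t]
  have e3 : ∑ t ∈ range (l + 1), Delta l t * ((fus l a d t * fus l t b c : ℕ) : ℝ)
      = ∑ t ∈ range (l + 1), Delta l t * ((fus l b c t * fus l t a d : ℕ) : ℝ) := by
    apply sum_congr rfl; intro t _; rw [chan_swap l a d b c t]
  rw [e1, e2, e3]
  ring

theorem c1deg_swap34 (l a b c d : ℕ) : c1deg l a b c d = c1deg l a b d c := by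
  unfold c1deg
  rw [N4_swap34 l a b c d]
  have e1 : ∑ t ∈ range (l + 1), Delta l t * ((fus l a b t * fus l t c d : ℕ) : ℝ)
      = ∑ t ∈ range (l + 1), Delta l t * ((fus l a b t * fus l t d c : ℕ) : ℝ) := by
    apply sum_congr rfl; intro t _; rw [fus_swap23 l t c d]
  rw [e1]
  ring

theorem c1deg_swap23 (l a b c d : ℕ) : c1deg l a b c d = c1deg l a c b d := by
  unfold c1deg
  rw [N4_swap23 l a b c d]
  have e3 : ∑ t ∈ range (l + 1), Delta l t * ((fus l a d t * fus l t b c : ℕ) : ℝ)
      = ∑ t ∈ range (l + 1), Delta l t * ((fus l a d t * fus l t c b : ℕ) : ℝ) := by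
    apply sum_congr rfl; intro t _; rw [fus_swap23 l t b c]
  rw [e3]
  ring

theorem E4_swap12 (l a b c d : ℕ) : E4 l a b c d = E4 l b a c d := by
  unfold E4; rw [N4_swap12 l a b c d, show a + b + c + d = b + a + c + d by ring]

theorem E4_swap23 (l a b c d : ℕ) : E4 l a b c d = E4 l a c b d := by
  unfold E4; rw [N4_swap23 l a b c d, show a + b + c + d = a + c + b + d by ring]

theorem E4_swap34 (l a b c d : ℕ) : E4 l a b c d = E4 l a b d c := by
  unfold E4; rw [N4_swap34 l a b c d, show a + b + c + d = a + b + d + c by ring]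

theorem sort4 (P : ℕ → ℕ → ℕ → ℕ → Prop) (h1 : ∀ a b c d, P a b c d → P b a c d)
    (h2 : ∀ a b c d, P a b c d → P a c b d) (h3 : ∀ a b c d, P a b c d → P a b d c)
    (h : ∀ a b c d, a ≤ b → b ≤ c → c ≤ d → P a b c d) : ∀ a b c d, P a b c d := by
  -- three sorted, arbitrary last
  have hA : ∀ a b c d, a ≤ b → b ≤ c → P a b c d := by
    intro a b c d hab hbc
    rcases le_total c d with hcd | hcd
    · exact h a b c d hab hbc hcd
    · rcases le_total b d with hbd | hbd
      · exact h3 _ _ _ _ (h a b d c hab hbd hcd)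
      · rcases le_total a d with had | had
        · exact h3 _ _ _ _ (h2 _ _ _ _ (h a d b c had hbd hbc))
        · exact h3 _ _ _ _ (h2 _ _ _ _ (h1 _ _ _ _ (h d a b c had hab hbc)))
  have hB : ∀ a b c d, a ≤ b → P a b c d := by
    intro a b c d hab
    rcases le_total b c with hbc | hbc
    · exact hA a b c d hab hbc
    · rcases le_total a c with hac | hac
      · exact h2 _ _ _ _ (hA a c b d hac hbc)
      · exact h2 _ _ _ _ (h1 _ _ _ _ (hA c a b d hac hab))
  intro a b c d
  rcases le_total a b with hab | hab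
  · exact hB a b c d hab
  · exact h1 _ _ _ _ (hB b a c d hab)

/-- the value of `c1deg` from the data of the three channels -/
theorem c1deg_of (l a b c d n p q r w : ℕ) (ha : a ≤ l) (hb : b ≤ l) (hc : c ≤ l) (hd : d ≤ l)
    (hp : (a + b + c + d) % 2 = 0)
    (h1 : lo4 a b c d = p) (h2 : lo4 a c b d = q) (h3 : lo4 a d b c = r)
    (hn : N4 l a b c d = n) (hw : (a + b + c + d) / 2 - l = w)
    (key : ((a : ℝ) + 1) ^ 2 + (b + 1) ^ 2 + (c + 1) ^ 2 + (d + 1) ^ 2
      - ((p : ℝ) + n) ^ 2 - (q + n) ^ 2 - (r + n) ^ 2 - (n : ℝ) ^ 2 = 4 * (l + 2) * w) :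
    c1deg l a b c d = (E4 l a b c d : ℝ) := by
  have hl : (4 * ((l : ℝ) + 2)) ≠ 0 := by positivity
  have n1 : (hi4 l a b c d + 2 - lo4 a b c d) / 2 = n := by
    rw [← hn, N4_closed l a b c d ha hb hc hd, if_pos hp]
  have n2 : (hi4 l a c b d + 2 - lo4 a c b d) / 2 = n := by
    rw [← hn, N4_swap23, N4_closed l a c b d ha hc hb hd, if_pos (by omega)]
  have n3 : (hi4 l a d b c + 2 - lo4 a d b c) / 2 = n := by
    rw [← hn, N4_swap34, N4_swap23, N4_closed l a d b c ha hd hb hc, if_pos (by omega)]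
  unfold c1deg
  rw [channel_sum l a b c d ha hb hc hd hp, channel_sum l a c b d ha hc hb hd (by omega),
    channel_sum l a d b c ha hd hb hc (by omega), n1, n2, n3, h1, h2, h3,
    sumDelta, sumDelta, sumDelta, hn]
  unfold E4
  rw [hn, hw]
  unfold Delta
  push_cast
  have hl2 : ((l : ℝ) + 2) ≠ 0 := by positivity
  have key2 : (w : ℝ) = (((a : ℝ) + 1) ^ 2 + (b + 1) ^ 2 + (c + 1) ^ 2 + (d + 1) ^ 2
      - ((p : ℝ) + n) ^ 2 - (q + n) ^ 2 - (r + n) ^ 2 - (n : ℝ) ^ 2) / (4 * (l + 2)) := by
    rw [key]; field_simp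
  rw [key2]
  field_simp
  ring

theorem c1deg_eq_E4_sorted (l a b c d : ℕ) (hab : a ≤ b) (hbc : b ≤ c) (hcd : c ≤ d)
    (hd : d ≤ l) : c1deg l a b c d = (E4 l a b c d : ℝ) := by
  have hc : c ≤ l := by omega
  have hb : b ≤ l := by omega
  have ha : a ≤ l := by omega
  by_cases hp : (a + b + c + d) % 2 = 0
  swap
  · have hN : N4 l a b c d = 0 := by rw [N4_closed l a b c d ha hb hc hd, if_neg hp]
    unfold c1deg E4
    rw [channel_sum_odd l a b c d ha hb hc hd hp, channel_sum_odd l a c b d ha hc hb hd (by omega),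
      channel_sum_odd l a d b c ha hd hb hc (by omega), hN]
    simp
  by_cases hn0 : N4 l a b c d = 0
  · have n1 : (hi4 l a b c d + 2 - lo4 a b c d) / 2 = 0 := by
      rw [← hn0, N4_closed l a b c d ha hb hc hd, if_pos hp]
    have n2 : (hi4 l a c b d + 2 - lo4 a c b d) / 2 = 0 := by
      rw [← hn0, N4_swap23, N4_closed l a c b d ha hc hb hd, if_pos (by omega)]
    have n3 : (hi4 l a d b c + 2 - lo4 a d b c) / 2 = 0 := by
      rw [← hn0, N4_swap34, N4_swap23, N4_closed l a d b c ha hd hb hc, if_pos (by omega)]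
    unfold c1deg E4
    rw [channel_sum l a b c d ha hb hc hd hp, channel_sum l a c b d ha hc hb hd (by omega),
      channel_sum l a d b c ha hd hb hc (by omega), n1, n2, n3, hn0]
    simp
  have hdn : d ≤ a + b + c := by
    by_contra hcon
    have : ¬ (1 ≤ N4 l a b c d) := by
      rw [le_N4_iff l a b c d 1 ha hb hc hd hp le_rfl]
      rintro ⟨_, ⟨_, _, _, k⟩, _, _⟩
      omega
    omega
  have hdn2 : b + c + d ≤ 2 * l + a := by
    by_contra hcon
    have : ¬ (1 ≤ N4 l a b c d) := by
      rw [le_N4_iff l a b c d 1 ha hb hc hd hp le_rfl]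
      rintro ⟨_, _, _, ⟨k, _, _, _⟩⟩
      omega
    omega
  have l3 : lo4 a d b c = d - a := by unfold lo4; omega
  obtain ⟨s, hs⟩ : ∃ s, a + b + c + d = 2 * s := ⟨(a + b + c + d) / 2, by omega⟩
  have hsR : (a : ℝ) + b + c + d = 2 * s := by exact_mod_cast hs
  rcases le_total (a + d) (b + c) with hx | hx
  · have l1 : lo4 a b c d = b - a := by unfold lo4; omega
    have l2 : lo4 a c b d = c - a := by unfold lo4; omega
    rcases le_total s l with hsl | hsl
    · have hh : hi4 l a b c d = a + b := by unfold hi4; omega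
      have hN : N4 l a b c d = a + 1 := by
        rw [N4_closed l a b c d ha hb hc hd, if_pos hp, l1, hh]; omega
      apply c1deg_of l a b c d (a + 1) (b - a) (c - a) (d - a) 0 ha hb hc hd hp l1 l2 l3 hN (by omega)
      rw [Nat.cast_sub hab, Nat.cast_sub (hab.trans hbc), Nat.cast_sub (hab.trans (hbc.trans hcd))]
      push_cast
      ring
    · obtain ⟨w, hw⟩ : ∃ w, s = l + w := ⟨s - l, by omega⟩
      have hh : hi4 l a b c d = 2 * l - c - d := by unfold hi4; omega
      have hN : N4 l a b c d = a + 1 - w := by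
        rw [N4_closed l a b c d ha hb hc hd, if_pos hp, l1, hh]; omega
      have hwa : w ≤ a + 1 := by omega
      apply c1deg_of l a b c d (a + 1 - w) (b - a) (c - a) (d - a) w ha hb hc hd hp l1 l2 l3 hN
        (by omega)
      rw [Nat.cast_sub hab, Nat.cast_sub (hab.trans hbc), Nat.cast_sub (hab.trans (hbc.trans hcd)),
        Nat.cast_sub hwa]
      have hl : (l : ℝ) = ((a : ℝ) + b + c + d) / 2 - w := by
        rw [hsR, hw]; push_cast; ring
      rw [hl]
      push_cast
      ring
  · have l1 : lo4 a b c d = d - c := by unfold lo4; omega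
    have l2 : lo4 a c b d = d - b := by unfold lo4; omega
    rcases le_total s l with hsl | hsl
    · have hh : hi4 l a b c d = a + b := by unfold hi4; omega
      have hN : N4 l a b c d = s - d + 1 := by
        rw [N4_closed l a b c d ha hb hc hd, if_pos hp, l1, hh]; omega
      have hds : d ≤ s := by omega
      apply c1deg_of l a b c d (s - d + 1) (d - c) (d - b) (d - a) 0 ha hb hc hd hp l1 l2 l3 hN
        (by omega)
      rw [Nat.cast_sub hcd, Nat.cast_sub (hbc.trans hcd), Nat.cast_sub (hab.trans (hbc.trans hcd))]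
      push_cast
      rw [Nat.cast_sub hds]
      have hs' : (s : ℝ) = ((a : ℝ) + b + c + d) / 2 := by rw [hsR]; ring
      rw [hs']
      ring
    · obtain ⟨w, hw⟩ : ∃ w, s = l + w := ⟨s - l, by omega⟩
      have hh : hi4 l a b c d = 2 * l - c - d := by unfold hi4; omega
      have hN : N4 l a b c d = l - d + 1 := by
        rw [N4_closed l a b c d ha hb hc hd, if_pos hp, l1, hh]; omega
      apply c1deg_of l a b c d (l - d + 1) (d - c) (d - b) (d - a) w ha hb hc hd hp l1 l2 l3 hN
        (by omega)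
      rw [Nat.cast_sub hcd, Nat.cast_sub (hbc.trans hcd), Nat.cast_sub (hab.trans (hbc.trans hcd))]
      push_cast
      rw [Nat.cast_sub hd]
      have hw' : (w : ℝ) = ((a : ℝ) + b + c + d) / 2 - l := by
        rw [hsR, hw]; push_cast; ring
      rw [hw']
      ring

theorem c1deg_eq_E4 (l a b c d : ℕ) (ha : a ≤ l) (hb : b ≤ l) (hc : c ≤ l) (hd : d ≤ l) :
    c1deg l a b c d = (E4 l a b c d : ℝ) := by
  have := sort4 (fun a b c d => a ≤ l → b ≤ l → c ≤ l → d ≤ l →
      c1deg l a b c d = (E4 l a b c d : ℝ))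
    (fun a b c d h ha hb hc hd => by
      rw [c1deg_swap12, E4_swap12]; exact h hb ha hc hd)
    (fun a b c d h ha hb hc hd => by
      rw [c1deg_swap23, E4_swap23]; exact h ha hc hb hd)
    (fun a b c d h ha hb hc hd => by
      rw [c1deg_swap34, E4_swap34]; exact h ha hb hd hc)
    (fun a b c d hab hbc hcd _ _ _ hd => c1deg_eq_E4_sorted l a b c d hab hbc hcd hd)
  exact this a b c d ha hb hc hd

end Pool.Agent.CBSl2
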