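import Pool.Agent.CBSl2.ClassProp

open Finset

namespace Pool.Agent.CBSl2

theorem dl_pos {c x : ℕ} (h : 0 < dl c x) : x = c := by
  unfold dl at h
  by_contra hc
  rw [if_neg hc] at h
  omega

/-- vanishing of type `O` on the family -/
theorem famO (m : ℕ) (hm : 1 ≤ m) :
    val (8 * m) (conv (8 * m) (dl 1) (dl (2 * m - 1))) (dl (4 * m))
      (conv (8 * m) (dl (4 * m)) (dl (6 * m))) (conv (8 * m) (dl (6 * m)) (dl (6 * m))) = 0 := by
  by_contra hc
  have hp := Nat.pos_of_ne_zero hc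
  rw [val_pos_iff] at hp
  obtain ⟨t, r, κ, v, _, _, _, _, h1, h2, h3, h4, hP⟩ := hp
  rw [conv_dl_dl_pos (by omega) (by omega)] at h1 h3 h4
  have := dl_pos h2
  obtain ⟨_, _, _, a1, _⟩ := h1
  obtain ⟨_, _, _, _, b1⟩ := h3
  obtain ⟨_, _, _, _, c1⟩ := h4
  obtain ⟨_, p1, _, _, _, _⟩ := hP
  omega

/-- vanishing of type `K` on the family -/
theorem famK (m : ℕ) (hm : 1 ≤ m) (u : ℕ → ℕ) :
    val (8 * m) (dl 1) (dl (2 * m - 1)) u (dl (6 * m)) = 0 := by
  by_contra hc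
  have hp := Nat.pos_of_ne_zero hc
  rw [val_pos_iff] at hp
  obtain ⟨a, b, κ, z, _, _, h0, _, h1, h2, h3, h4, hP⟩ := hp
  have := dl_pos h1
  have := dl_pos h2
  have := dl_pos h4
  obtain ⟨_, p1, _, _, _, _⟩ := hP
  omega

theorem famV (m : ℕ) (hm : 1 ≤ m) :
    m * m ≤ val (8 * m) (dl 1) (dl (2 * m - 1)) (conv (8 * m) (dl (4 * m)) (dl (4 * m)))
      (conv (8 * m) (dl (6 * m)) (conv (8 * m) (dl (6 * m)) (dl (6 * m)))) := by
  rw [val_dl2 _ _ _ (by omega) (by omega), ← sum_product']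
  have hs : (range m).image (fun i => ((6 * m + 2 + 2 * i, 8 * m - 2 * i) : ℕ × ℕ)) ⊆
      range (8 * m + 1) ×ˢ range (8 * m + 1) := by
    intro p hp
    rw [mem_image] at hp
    obtain ⟨i, hi, rfl⟩ := hp
    have := mem_range.1 hi
    rw [mem_product, mem_range, mem_range]
    constructor
    · show 6 * m + 2 + 2 * i < 8 * m + 1
      omega
    · show 8 * m - 2 * i < 8 * m + 1
      omega
  refine le_trans ?_ (sum_le_sum_of_subset hs)
  rw [sum_image]
  swap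
  · intro i _ j _ hij
    simp only [Prod.mk.injEq] at hij
    omega
  have e : m * m = ∑ i ∈ range m, (0 + 2 * i + 1) := by
    rw [sum_lin1]; ring
  rw [e]
  apply sum_le_sum
  intro i hi
  have hi' := mem_range.1 hi
  show 0 + 2 * i + 1 ≤ conv (8 * m) (dl (4 * m)) (dl (4 * m)) (6 * m + 2 + 2 * i) *
    conv (8 * m) (dl (6 * m)) (conv (8 * m) (dl (6 * m)) (dl (6 * m))) (8 * m - 2 * i) *
    E4 (8 * m) 1 (2 * m - 1) (6 * m + 2 + 2 * i) (8 * m - 2 * i)
  rw [conv_dl_dl _ _ _ (by omega) (by omega), conv3 _ _ _ _ (by omega) (by omega) (by omega)]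
  have e1 : fus (8 * m) (4 * m) (4 * m) (6 * m + 2 + 2 * i) = 1 := by
    rw [fus_eq_one_iff]
    refine ⟨by omega, by omega, by omega, by omega, by omega⟩
  have e2 : 2 * i + 1 ≤ N4 (8 * m) (6 * m) (6 * m) (6 * m) (8 * m - 2 * i) := by
    rw [le_N4_iff _ _ _ _ _ _ (by omega) (by omega) (by omega) (by omega) (by omega) (by omega)]
    refine ⟨⟨by omega, by omega, by omega, by omega⟩, ⟨by omega, by omega, by omega, by omega⟩,
        ⟨by omega, by omega, by omega, by omega⟩, ⟨by omega, by omega, by omega, by omega⟩⟩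
  have e3 : 0 < E4 (8 * m) 1 (2 * m - 1) (6 * m + 2 + 2 * i) (8 * m - 2 * i) := by
    rw [E4_pos_iff _ _ _ _ _ (by omega) (by omega) (by omega) (by omega)]
    refine ⟨by omega, by omega, by omega, by omega, by omega, by omega⟩
  rw [e1, one_mul]
  calc 0 + 2 * i + 1 = (2 * i + 1) * 1 := by ring
    _ ≤ _ := Nat.mul_le_mul e2 e3

theorem famY (m : ℕ) (hm : 1 ≤ m) :
    val (8 * m) (dl 1) (conv (8 * m) (dl (2 * m - 1))
      (conv (8 * m) (dl (4 * m)) (dl (4 * m))))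
      (conv (8 * m) (dl (6 * m)) (dl (6 * m))) (dl (6 * m)) ≤ m * (m + 1) := by
  rw [val_dl14 _ _ _ (by omega) (by omega), sum_comm]
  have e : m * (m + 1) = ∑ v ∈ range (8 * m + 1),
      if 2 * m ≤ v ∧ v ≤ 4 * m ∧ (v + 2 * m) % 2 = 0 then v - 2 * m else 0 := by
    rw [sum_AP (8 * m) (2 * m) (4 * m) (by omega) (fun v => v - 2 * m),
      show (4 * m + 2 - 2 * m) / 2 = m + 1 by omega]
    have : ∑ i ∈ range (m + 1), (2 * m + 2 * i - 2 * m) = ∑ i ∈ range (m + 1), (0 + 2 * i) := by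
      apply sum_congr rfl; intro i _; omega
    rw [this, sum_lin]; ring
  rw [e]
  apply sum_le_sum
  intro v hv
  have hvl : v ≤ 8 * m := by have := mem_range.1 hv; omega
  rw [conv_dl_dl _ _ _ (by omega) (by omega)]
  by_cases hv2 : 2 * m + 1 ≤ v ∧ v ≤ 4 * m ∧ v % 2 = 0
  swap
  · -- everything vanishes
    have : ∑ x ∈ range (8 * m + 1), conv (8 * m) (dl (2 * m - 1))
        (conv (8 * m) (dl (4 * m)) (dl (4 * m))) x * fus (8 * m) (6 * m) (6 * m) v *
        E4 (8 * m) 1 x v (6 * m) = 0 := by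
      apply sum_eq_zero
      intro κ hκ
      have hκl : κ ≤ 8 * m := by have := mem_range.1 hκ; omega
      by_cases hf : fus (8 * m) (6 * m) (6 * m) v = 0
      · rw [hf]; ring
      by_cases hE : E4 (8 * m) 1 κ v (6 * m) = 0
      · rw [hE]; ring
      exfalso
      have h1 := (fus_pos_iff _ _ _ _).1 (Nat.pos_of_ne_zero hf)
      have h2 := (E4_pos_iff _ _ _ _ _ (by omega) hκl hvl (by omega)).1 (Nat.pos_of_ne_zero hE)
      obtain ⟨a1, a2, a3, a4, a5⟩ := h1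
      obtain ⟨b1, b2, b3, b4, b5, b6⟩ := h2
      apply hv2
      refine ⟨by omega, by omega, ?_⟩
      clear * - a1
      omega
    rw [this]; exact Nat.zero_le _
  obtain ⟨v1, v2, v3⟩ := hv2
  rw [if_pos ⟨by omega, v2, by omega⟩]
  rw [sum_eq_single (10 * m + 1 - v)]
  rotate_left
  · intro κ hκ hne
    have hκl : κ ≤ 8 * m := by have := mem_range.1 hκ; omega
    by_cases hE : E4 (8 * m) 1 κ v (6 * m) = 0
    · rw [hE]; ring
    exfalso
    have h2 := (E4_pos_iff _ _ _ _ _ (by omega) hκl hvl (by omega)).1 (Nat.pos_of_ne_zero hE)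
    obtain ⟨b1, b2, b3, b4, b5, b6⟩ := h2
    omega
  · intro h; exact absurd (mem_range.2 (by omega)) h
  have hE : E4 (8 * m) 1 (10 * m + 1 - v) v (6 * m) ≤ 1 := by
    unfold E4
    have e1 : (1 + (10 * m + 1 - v) + v + 6 * m) / 2 - 8 * m = 1 := by omega
    rw [e1, mul_one]
    by_contra hc
    have h2 : 2 ≤ N4 (8 * m) 1 (10 * m + 1 - v) v (6 * m) := by omega
    rw [le_N4_iff _ _ _ _ _ _ (by omega) (by omega) (by omega) (by omega) (by omega)
      (by omega)] at h2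
    obtain ⟨_, _, _, ⟨k, _, _, _⟩⟩ := h2
    omega
  have hf : fus (8 * m) (6 * m) (6 * m) v ≤ 1 := fus_le_one _ _ _ _
  have hu : conv (8 * m) (dl (2 * m - 1)) (conv (8 * m) (dl (4 * m)) (dl (4 * m)))
      (10 * m + 1 - v) ≤ v - 2 * m := by
    rw [conv_dl_left _ _ (by omega)]
    have e2 : v - 2 * m = ∑ t ∈ range (8 * m + 1),
        if 8 * m + 2 - v ≤ t ∧ t ≤ 4 * m + v ∧ (t + (8 * m + 2 - v)) % 2 = 0 then 1 else 0 := by
      rw [sum_AP (8 * m) (8 * m + 2 - v) (4 * m + v) (by omega) (fun _ => 1)]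
      simp only [sum_const, card_range, smul_eq_mul, mul_one]
      omega
    rw [e2]
    apply sum_le_sum
    intro t ht
    have htl : t ≤ 8 * m := by have := mem_range.1 ht; omega
    rw [conv_dl_dl _ _ _ (by omega) (by omega)]
    by_cases hft : fus (8 * m) (2 * m - 1) t (10 * m + 1 - v) = 0
    · rw [hft, mul_zero]; exact Nat.zero_le _
    have h1 := (fus_pos_iff _ _ _ _).1 (Nat.pos_of_ne_zero hft)
    obtain ⟨a1, a2, a3, a4, a5⟩ := h1
    rw [if_pos]
    · have q1 := fus_le_one (8 * m) (4 * m) (4 * m) t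
      have q2 := fus_le_one (8 * m) (2 * m - 1) t (10 * m + 1 - v)
      calc _ ≤ 1 * 1 := Nat.mul_le_mul q1 q2
        _ = 1 := rfl
    · refine ⟨by omega, by omega, ?_⟩
      clear * - a1 v1 v2 v3 hm
      omega
  calc _ ≤ (v - 2 * m) * 1 * 1 := Nat.mul_le_mul (Nat.mul_le_mul hu hf) hE
    _ = v - 2 * m := by ring

/-- the weights of the family -/
def fam (n m : ℕ) : Fin n → ℕ := fun i =>
  if i.1 = 0 then 1 else if i.1 = 1 then 2 * m - 1 else if i.1 ≤ 3 then 4 * m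
  else if i.1 ≤ 6 then 6 * m else 0

theorem fam_le (n m : ℕ) (hm : 1 ≤ m) (i : Fin n) : fam n m i ≤ 8 * m := by
  unfold fam; split_ifs <;> omega

theorem rk_zero {n : ℕ} (l : ℕ) (lam : Fin n → ℕ) (A : Finset (Fin n)) (h : ∀ i ∈ A, lam i = 0) :
    rk l lam A = dl 0 := by
  induction A using Finset.induction_on with
  | empty => exact rk_empty l lam
  | insert i A hi ih =>
    rw [rk_insert l lam i A hi, ih (fun j hj => h j (mem_insert_of_mem hj)),
      h i (mem_insert_self i A), conv_unit]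
    intro c hc
    simp [dl]; omega

theorem fam_last {n : ℕ} (h7 : 7 ≤ n) (m : ℕ) (hm : 1 ≤ m) :
    rk (8 * m) (fam n m) (pre n {6}) = dl (6 * m) := by
  have e : pre n {6} = insert (⟨6, by omega⟩ : Fin n) (univ.filter (fun i : Fin n => 6 < i.1)) := by
    ext i
    simp only [pre, mem_filter, mem_univ, true_and, mem_singleton, col, Fin.ext_iff, mem_insert]
    omega
  rw [e, rk_insert _ _ _ _ (by simp), rk_zero, conv_comm, conv_unit]
  · congr 1
  · intro c hc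
    have f6 : fam n m ⟨6, by omega⟩ = 6 * m := rfl
    simp only [dl]
    rw [if_neg]
    rw [f6]
    omega
  · intro i hi
    rw [mem_filter] at hi
    unfold fam
    rw [if_neg (by omega), if_neg (by omega), if_neg (by omega), if_neg (by omega)]

theorem fam_vals {n : ℕ} (h7 : 7 ≤ n) (m : ℕ) (hm : 1 ≤ m) :
    Zf h7 (cbDiv (8 * m) (fam n m)) = 0 ∧ (m * m : ℝ) ≤ Vf h7 (cbDiv (8 * m) (fam n m)) ∧
    Yf h7 (cbDiv (8 * m) (fam n m)) ≤ 3 * (m * (m + 1)) := by
  have hl := fam_le n m hm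
  unfold Zf Vf Yf
  rw [eval_O5 h7 _ _ hl, eval_O6 h7 _ _ hl, eval_O7 h7 _ _ hl, eval_P5 h7 _ _ hl,
    eval_P6 h7 _ _ hl, eval_P7 h7 _ _ hl, eval_K5 h7 _ _ hl, eval_K6 h7 _ _ hl,
    eval_K7 h7 _ _ hl, eval_V h7 _ _ hl, eval_Y5 h7 _ _ hl, eval_Y6 h7 _ _ hl,
    eval_Y7 h7 _ _ hl, fam_last h7 m hm]
  have f0 : fam n m ⟨0, by omega⟩ = 1 := rfl
  have f1 : fam n m ⟨1, by omega⟩ = 2 * m - 1 := rfl
  have f2 : fam n m ⟨2, by omega⟩ = 4 * m := rfl
  have f3 : fam n m ⟨3, by omega⟩ = 4 * m := rfl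
  have f4 : fam n m ⟨4, by omega⟩ = 6 * m := rfl
  have f5 : fam n m ⟨5, by omega⟩ = 6 * m := rfl
  rw [f0, f1, f2, f3, f4, f5]
  unfold fO5 fO6 fO7 fP5 fP6 fP7 fK5 fK6 fK7 fV fY5 fY6 fY7
  rw [famO m hm, famK m hm]
  have hV := famV m hm
  have hY := famY m hm
  refine ⟨by simp, by exact_mod_cast hV, ?_⟩
  have : ((val (8 * m) (dl 1) (conv (8 * m) (dl (2 * m - 1))
      (conv (8 * m) (dl (4 * m)) (dl (4 * m))))
      (conv (8 * m) (dl (6 * m)) (dl (6 * m))) (dl (6 * m)) : ℕ) : ℝ) ≤ m * (m + 1) := by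
    exact_mod_cast hY
  linarith

end Pool.Agent.CBSl2
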