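import Pool.Agent.CBSl2.Defs

open Finset

namespace Pool.Agent.CBSl2

theorem sum_AP {M : Type*} [AddCommMonoid M] (L lo hi : ℕ) (hL : hi ≤ L) (f : ℕ → M) :
    ∑ t ∈ range (L + 1), (if lo ≤ t ∧ t ≤ hi ∧ (t + lo) % 2 = 0 then f t else 0)
      = ∑ i ∈ range ((hi + 2 - lo) / 2), f (lo + 2 * i) := by
  rw [← sum_filter]
  have h : (range (L + 1)).filter (fun t => lo ≤ t ∧ t ≤ hi ∧ (t + lo) % 2 = 0)
      = (range ((hi + 2 - lo) / 2)).image (fun i => lo + 2 * i) := by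
    ext t
    simp only [mem_filter, mem_range, mem_image]
    constructor
    · rintro ⟨h1, h2, h3, h4⟩
      exact ⟨(t - lo) / 2, by omega, by omega⟩
    · rintro ⟨i, h1, h2⟩
      omega
  rw [h, sum_image]
  intro a _ b _ hab
  simpa using hab

/-- fusion is commutative -/
theorem fus_swap12 (l a b c : ℕ) : fus l a b c = fus l b a c := by
  unfold fus; congr 1; apply propext; constructor <;> (rintro ⟨_, _, _, _, _⟩; omega)

theorem fus_swap23 (l a b c : ℕ) : fus l a b c = fus l a c b := by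
  unfold fus; congr 1; apply propext; constructor <;> (rintro ⟨_, _, _, _, _⟩; omega)

theorem fus_le_one (l a b c : ℕ) : fus l a b c ≤ 1 := by
  unfold fus; split_ifs <;> simp

theorem fus_pos_iff (l a b c : ℕ) : 0 < fus l a b c ↔
    ((a + b + c) % 2 = 0 ∧ a ≤ b + c ∧ b ≤ a + c ∧ c ≤ a + b ∧ a + b + c ≤ 2 * l) := by
  unfold fus; split_ifs with h <;> simp [h]

theorem fus_eq_one_iff (l a b c : ℕ) : fus l a b c = 1 ↔
    ((a + b + c) % 2 = 0 ∧ a ≤ b + c ∧ b ≤ a + c ∧ c ≤ a + b ∧ a + b + c ≤ 2 * l) := by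
  unfold fus; split_ifs with h <;> simp [h]

theorem fus_zero_left (l b c : ℕ) (hb : b ≤ l) : fus l 0 b c = if c = b then 1 else 0 := by
  unfold fus; congr 1; apply propext; constructor
  · rintro ⟨_, _, _, _, _⟩; omega
  · rintro rfl; omega

/-- lower end of the joint channel -/
def lo4 (a b c d : ℕ) : ℕ := max (max (a - b) (b - a)) (max (c - d) (d - c))
/-- upper end of the joint channel -/
def hi4 (l a b c d : ℕ) : ℕ := min (min (a + b) (c + d)) (min (2 * l - a - b) (2 * l - c - d))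

theorem lo4_spec (a b c d : ℕ) : (a ≤ b + lo4 a b c d ∧ b ≤ a + lo4 a b c d ∧
    c ≤ d + lo4 a b c d ∧ d ≤ c + lo4 a b c d) ∧
    (lo4 a b c d + b = a ∨ lo4 a b c d + a = b ∨ lo4 a b c d + d = c ∨ lo4 a b c d + c = d) := by
  unfold lo4
  omega

theorem hi4_spec (l a b c d : ℕ) (ha : a ≤ l) (hb : b ≤ l) (hc : c ≤ l) (hd : d ≤ l) :
    (hi4 l a b c d ≤ a + b ∧ hi4 l a b c d ≤ c + d ∧
    hi4 l a b c d + a + b ≤ 2 * l ∧ hi4 l a b c d + c + d ≤ 2 * l) ∧
    (hi4 l a b c d = a + b ∨ hi4 l a b c d = c + d ∨ hi4 l a b c d + a + b = 2 * l ∨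
      hi4 l a b c d + c + d = 2 * l) := by
  unfold hi4
  omega

theorem fus_mul_fus (l a b c d t : ℕ) (ha : a ≤ l) (hb : b ≤ l) (hc : c ≤ l) (hd : d ≤ l) :
    fus l a b t * fus l t c d =
      if (a + b + c + d) % 2 = 0 then
        (if lo4 a b c d ≤ t ∧ t ≤ hi4 l a b c d ∧ (t + lo4 a b c d) % 2 = 0 then 1 else 0)
      else 0 := by
  obtain ⟨⟨l1, l2, l3, l4⟩, l5⟩ := lo4_spec a b c d
  obtain ⟨⟨h1, h2, h3, h4⟩, h5⟩ := hi4_spec l a b c d ha hb hc hd
  generalize lo4 a b c d = lo at *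
  generalize hi4 l a b c d = hi at *
  unfold fus
  rw [← ite_and, ite_mul, zero_mul, one_mul, ← ite_and]
  congr 1
  apply propext
  constructor
  · rintro ⟨⟨k1, k2, k3, k4, k5⟩, ⟨k6, k7, k8, k9, k10⟩⟩
    refine ⟨by omega, ?_, ?_, ?_⟩
    · rcases l5 with l5 | l5 | l5 | l5 <;> omega
    · rcases h5 with h5 | h5 | h5 | h5 <;> omega
    · rcases l5 with l5 | l5 | l5 | l5 <;> omega
  · rintro ⟨k1, k2, k3, k4⟩
    have par1 : (a + b + t) % 2 = 0 := by rcases l5 with l5 | l5 | l5 | l5 <;> omega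
    have par2 : (t + c + d) % 2 = 0 := by omega
    clear l5 h5
    refine ⟨⟨by omega, by omega, by omega, by omega, by omega⟩,
      ⟨by omega, by omega, by omega, by omega, by omega⟩⟩

/-- a channel sum -/
theorem channel_sum {M : Type*} [Semiring M] (l a b c d : ℕ) (ha : a ≤ l) (hb : b ≤ l)
    (hc : c ≤ l) (hd : d ≤ l) (hpar : (a + b + c + d) % 2 = 0) (g : ℕ → M) :
    ∑ t ∈ range (l + 1), g t * ((fus l a b t * fus l t c d : ℕ) : M)
      = ∑ i ∈ range ((hi4 l a b c d + 2 - lo4 a b c d) / 2), g (lo4 a b c d + 2 * i) := by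
  rw [← sum_AP l (lo4 a b c d) (hi4 l a b c d) (by unfold hi4; omega) g]
  apply sum_congr rfl
  intro t _
  rw [fus_mul_fus l a b c d t ha hb hc hd, if_pos hpar]
  split_ifs <;> simp

theorem channel_sum_odd {M : Type*} [Semiring M] (l a b c d : ℕ) (ha : a ≤ l) (hb : b ≤ l)
    (hc : c ≤ l) (hd : d ≤ l) (hpar : (a + b + c + d) % 2 ≠ 0) (g : ℕ → M) :
    ∑ t ∈ range (l + 1), g t * ((fus l a b t * fus l t c d : ℕ) : M) = 0 := by
  apply sum_eq_zero
  intro t _
  rw [fus_mul_fus l a b c d t ha hb hc hd, if_neg hpar]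
  simp

/-- rank of the four point bundle -/
def N4 (l a b c d : ℕ) : ℕ := ∑ t ∈ range (l + 1), fus l a b t * fus l t c d

theorem N4_closed (l a b c d : ℕ) (ha : a ≤ l) (hb : b ≤ l) (hc : c ≤ l) (hd : d ≤ l) :
    N4 l a b c d = if (a + b + c + d) % 2 = 0 then
      (hi4 l a b c d + 2 - lo4 a b c d) / 2 else 0 := by
  split_ifs with h
  · have := channel_sum (M := ℕ) l a b c d ha hb hc hd h (fun _ => 1)
    simpa [N4] using this
  · have := channel_sum_odd (M := ℕ) l a b c d ha hb hc hd h (fun _ => 1)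
    simpa [N4] using this

theorem fus_gt (l a b c : ℕ) (h : l < a ∨ l < b ∨ l < c) : fus l a b c = 0 := by
  unfold fus; rw [if_neg]; omega

theorem N4_gt (l a b c d : ℕ) (h : l < a ∨ l < b ∨ l < c ∨ l < d) : N4 l a b c d = 0 := by
  unfold N4
  apply sum_eq_zero
  intro t _
  rcases h with h | h | h | h
  · rw [fus_gt l a b t (by omega), zero_mul]
  · rw [fus_gt l a b t (by omega), zero_mul]
  · rw [fus_gt l t c d (by omega), mul_zero]
  · rw [fus_gt l t c d (by omega), mul_zero]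

theorem N4_swap12 (l a b c d : ℕ) : N4 l a b c d = N4 l b a c d := by
  unfold N4; apply sum_congr rfl; intro t _; rw [fus_swap12]

theorem N4_swap34 (l a b c d : ℕ) : N4 l a b c d = N4 l a b d c := by
  unfold N4; apply sum_congr rfl; intro t _; rw [fus_swap23 l t c d]

theorem le_len_iff (l a b c d n : ℕ) (ha : a ≤ l) (hb : b ≤ l) (hc : c ≤ l) (hd : d ≤ l) :
    lo4 a b c d + 2 * n ≤ hi4 l a b c d + 2 ↔
      ((n ≤ a + 1 ∧ n ≤ b + 1 ∧ n ≤ c + 1 ∧ n ≤ d + 1) ∧
      (a + 2 * n ≤ b + c + d + 2 ∧ b + 2 * n ≤ a + c + d + 2 ∧ c + 2 * n ≤ a + b + d + 2 ∧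
        d + 2 * n ≤ a + b + c + 2) ∧
      (n + a ≤ l + 1 ∧ n + b ≤ l + 1 ∧ n + c ≤ l + 1 ∧ n + d ≤ l + 1) ∧
      (b + c + d + 2 * n ≤ 2 * l + 2 + a ∧ a + c + d + 2 * n ≤ 2 * l + 2 + b ∧
        a + b + d + 2 * n ≤ 2 * l + 2 + c ∧ a + b + c + 2 * n ≤ 2 * l + 2 + d)) := by
  obtain ⟨⟨l1, l2, l3, l4⟩, l5⟩ := lo4_spec a b c d
  obtain ⟨⟨h1, h2, h3, h4⟩, h5⟩ := hi4_spec l a b c d ha hb hc hd
  generalize lo4 a b c d = lo at *
  generalize hi4 l a b c d = hi at *
  constructor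
  · intro h
    clear l5 h5
    refine ⟨⟨by omega, by omega, by omega, by omega⟩, ⟨by omega, by omega, by omega, by omega⟩,
      ⟨by omega, by omega, by omega, by omega⟩, ⟨by omega, by omega, by omega, by omega⟩⟩
  · rintro ⟨⟨k1, k2, k3, k4⟩, ⟨k5, k6, k7, k8⟩, ⟨k9, k10, k11, k12⟩, ⟨k13, k14, k15, k16⟩⟩
    clear l1 l2 l3 l4 h1 h2 h3 h4
    rcases l5 with l5 | l5 | l5 | l5 <;> rcases h5 with h5 | h5 | h5 | h5 <;> omega

theorem le_N4_iff (l a b c d n : ℕ) (ha : a ≤ l) (hb : b ≤ l) (hc : c ≤ l) (hd : d ≤ l)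
    (hp : (a + b + c + d) % 2 = 0) (hn : 1 ≤ n) :
    n ≤ N4 l a b c d ↔
      ((n ≤ a + 1 ∧ n ≤ b + 1 ∧ n ≤ c + 1 ∧ n ≤ d + 1) ∧
      (a + 2 * n ≤ b + c + d + 2 ∧ b + 2 * n ≤ a + c + d + 2 ∧ c + 2 * n ≤ a + b + d + 2 ∧
        d + 2 * n ≤ a + b + c + 2) ∧
      (n + a ≤ l + 1 ∧ n + b ≤ l + 1 ∧ n + c ≤ l + 1 ∧ n + d ≤ l + 1) ∧
      (b + c + d + 2 * n ≤ 2 * l + 2 + a ∧ a + c + d + 2 * n ≤ 2 * l + 2 + b ∧
        a + b + d + 2 * n ≤ 2 * l + 2 + c ∧ a + b + c + 2 * n ≤ 2 * l + 2 + d)) := by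
  rw [← le_len_iff l a b c d n ha hb hc hd, N4_closed l a b c d ha hb hc hd, if_pos hp]
  generalize lo4 a b c d = lo
  generalize hi4 l a b c d = hi
  omega

theorem N4_swap23 (l a b c d : ℕ) : N4 l a b c d = N4 l a c b d := by
  by_cases h : a ≤ l ∧ b ≤ l ∧ c ≤ l ∧ d ≤ l
  · obtain ⟨ha, hb, hc, hd⟩ := h
    by_cases hp : (a + b + c + d) % 2 = 0
    · have key : ∀ n, 1 ≤ n → (n ≤ N4 l a b c d ↔ n ≤ N4 l a c b d) := by
        intro n hn
        rw [le_N4_iff l a b c d n ha hb hc hd hp hn,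
          le_N4_iff l a c b d n ha hc hb hd (by omega) hn]
        constructor
        · rintro ⟨⟨k1, k2, k3, k4⟩, ⟨k5, k6, k7, k8⟩, ⟨k9, k10, k11, k12⟩, ⟨k13, k14, k15, k16⟩⟩
          refine ⟨⟨by omega, by omega, by omega, by omega⟩, ⟨by omega, by omega, by omega, by omega⟩,
            ⟨by omega, by omega, by omega, by omega⟩, ⟨by omega, by omega, by omega, by omega⟩⟩
        · rintro ⟨⟨k1, k2, k3, k4⟩, ⟨k5, k6, k7, k8⟩, ⟨k9, k10, k11, k12⟩, ⟨k13, k14, k15, k16⟩⟩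
          refine ⟨⟨by omega, by omega, by omega, by omega⟩, ⟨by omega, by omega, by omega, by omega⟩,
            ⟨by omega, by omega, by omega, by omega⟩, ⟨by omega, by omega, by omega, by omega⟩⟩
      apply le_antisymm
      · by_cases h1 : 1 ≤ N4 l a b c d
        · exact (key _ h1).1 le_rfl
        · omega
      · by_cases h1 : 1 ≤ N4 l a c b d
        · exact (key _ h1).2 le_rfl
        · omega
    · rw [N4_closed l a b c d ha hb hc hd, N4_closed l a c b d ha hc hb hd, if_neg hp, if_neg]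
      omega
  · rw [N4_gt l a b c d (by omega), N4_gt l a c b d (by omega)]

theorem conv_comm (l : ℕ) (u v : ℕ → ℕ) : conv l u v = conv l v u := by
  funext c
  unfold conv
  rw [sum_comm]
  apply sum_congr rfl; intro b _
  apply sum_congr rfl; intro a _
  rw [fus_swap12, mul_comm (u a)]

theorem conv_conv (l : ℕ) (u v w : ℕ → ℕ) (m : ℕ) : conv l (conv l u v) w m =
    ∑ a ∈ range (l + 1), ∑ b ∈ range (l + 1), ∑ c ∈ range (l + 1),
      u a * v b * w c * N4 l a b c m := by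
  unfold conv N4
  simp only [sum_mul, mul_sum]
  calc ∑ x ∈ range (l + 1), ∑ c ∈ range (l + 1), ∑ a ∈ range (l + 1), ∑ b ∈ range (l + 1),
          u a * v b * fus l a b x * w c * fus l x c m
      = ∑ x ∈ range (l + 1), ∑ a ∈ range (l + 1), ∑ b ∈ range (l + 1), ∑ c ∈ range (l + 1),
          u a * v b * fus l a b x * w c * fus l x c m := by
        apply sum_congr rfl; intro x _
        rw [sum_comm]
        apply sum_congr rfl; intro a _
        rw [sum_comm]
    _ = ∑ a ∈ range (l + 1), ∑ b ∈ range (l + 1), ∑ c ∈ range (l + 1), ∑ x ∈ range (l + 1),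
          u a * v b * fus l a b x * w c * fus l x c m := by
        rw [sum_comm]
        apply sum_congr rfl; intro a _
        rw [sum_comm]
        apply sum_congr rfl; intro b _
        rw [sum_comm]
    _ = _ := by
        apply sum_congr rfl; intro a _
        apply sum_congr rfl; intro b _
        apply sum_congr rfl; intro c _
        apply sum_congr rfl; intro x _
        ring

theorem conv_assoc (l : ℕ) (u v w : ℕ → ℕ) : conv l (conv l u v) w = conv l u (conv l v w) := by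
  funext m
  rw [conv_conv, conv_comm l u (conv l v w), conv_conv]
  symm
  calc ∑ b ∈ range (l + 1), ∑ c ∈ range (l + 1), ∑ a ∈ range (l + 1),
        v b * w c * u a * N4 l b c a m
      = ∑ b ∈ range (l + 1), ∑ a ∈ range (l + 1), ∑ c ∈ range (l + 1),
        v b * w c * u a * N4 l b c a m := by
        apply sum_congr rfl; intro b _
        rw [sum_comm]
    _ = ∑ a ∈ range (l + 1), ∑ b ∈ range (l + 1), ∑ c ∈ range (l + 1),
        v b * w c * u a * N4 l b c a m := by rw [sum_comm]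
    _ = _ := by
        apply sum_congr rfl; intro a _
        apply sum_congr rfl; intro b _
        apply sum_congr rfl; intro c _
        rw [N4_swap23 l b c a m, N4_swap12 l b a c m]
        ring

instance (l : ℕ) : Std.Commutative (conv l) := ⟨conv_comm l⟩
instance (l : ℕ) : Std.Associative (conv l) := ⟨conv_assoc l⟩

end Pool.Agent.CBSl2
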