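import Pool.Agent.CBSl2.Struct2

open Finset

namespace Pool.Agent.CBSl2

theorem sum_lin (e n : ℕ) : ∑ i ∈ range (n + 1), (e + 2 * i) = (n + 1) * (e + n) := by
  induction n with
  | zero => simp
  | succ n ih => rw [sum_range_succ, ih]; ring

theorem sum_lin1 (e n : ℕ) : ∑ i ∈ range n, (e + 2 * i + 1) = n * (e + n) := by
  induction n with
  | zero => simp
  | succ n ih => rw [sum_range_succ, ih]; ring

theorem sum_id1 (n : ℕ) : 2 * ∑ i ∈ range n, (i + 1) = n * (n + 1) := by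
  induction n with
  | zero => simp
  | succ n ih => rw [sum_range_succ, mul_add, ih]; ring

theorem sum_min (e P k : ℕ) : ∑ i ∈ range (P + 1 + k), min (e + 2 * i) (2 * P + e)
    = (P + 1) * (e + P) + k * (2 * P + e) := by
  induction k with
  | zero =>
    rw [Nat.add_zero, Nat.zero_mul, Nat.add_zero, ← sum_lin e P]
    apply sum_congr rfl
    intro i hi
    have := mem_range.1 hi
    omega
  | succ k ih =>
    rw [← Nat.add_assoc, sum_range_succ, ih]
    have : min (e + 2 * (P + 1 + k)) (2 * P + e) = 2 * P + e := by omega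
    rw [this]; ring

theorem sum_min' (r K k : ℕ) : ∑ i ∈ range (K + k), min (r + 2 * i) (r + 2 * K) + K
    = K * (r + K) + k * (r + 2 * K) := by
  induction k with
  | zero =>
    rw [Nat.add_zero, Nat.zero_mul, Nat.add_zero, ← sum_lin1 r K]
    have : ∑ i ∈ range K, min (r + 2 * i) (r + 2 * K) + K
        = ∑ i ∈ range K, (min (r + 2 * i) (r + 2 * K) + 1) := by
      rw [sum_add_distrib]; simp
    rw [this]
    apply sum_congr rfl
    intro i hi
    have := mem_range.1 hi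
    omega
  | succ k ih =>
    rw [← Nat.add_assoc, sum_range_succ]
    have : min (r + 2 * (K + k)) (r + 2 * K) = r + 2 * K := by omega
    rw [this]
    have e : (k + 1) * (r + 2 * K) = k * (r + 2 * K) + (r + 2 * K) := by ring
    rw [e]
    omega

theorem sum_nb (e ρ k : ℕ) : 2 * ∑ i ∈ range (ρ + k), (e + 1 + i + min i ρ) + k
    = 2 * ρ * (e + ρ) + 2 * k * (e + 1 + 2 * ρ) + k * k := by
  induction k with
  | zero =>
    have : ∑ i ∈ range (ρ + 0), (e + 1 + i + min i ρ) = ρ * (e + ρ) := by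
      rw [Nat.add_zero, ← sum_lin1 e ρ]
      apply sum_congr rfl
      intro i hi
      have := mem_range.1 hi
      omega
    rw [this]; ring
  | succ k ih =>
    have h : ρ + (k + 1) = (ρ + k) + 1 := rfl
    rw [h, sum_range_succ]
    have : min (ρ + k) ρ = ρ := by omega
    rw [this]
    have e1 : 2 * ρ * (e + ρ) + 2 * (k + 1) * (e + 1 + 2 * ρ) + (k + 1) * (k + 1)
      = (2 * ρ * (e + ρ) + 2 * k * (e + 1 + 2 * ρ) + k * k) + 2 * (e + 1 + 2 * ρ) + 2 * k + 1 := by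
      ring
    rw [e1, ← ih]
    ring

/-- lower bound for a window sum by a progression -/
theorem win_ge (l lo hi n : ℕ) (f : ℕ → ℕ) (W : ℕ → Prop) [DecidablePred W] (hhi : hi ≤ l)
    (hn : n = (hi + 2 - lo) / 2)
    (hW : ∀ c, lo ≤ c → c ≤ hi → (c + lo) % 2 = 0 → W c) :
    ∑ i ∈ range n, f (lo + 2 * i) ≤ ∑ c ∈ range (l + 1), if W c then f c else 0 := by
  rw [hn, ← sum_AP l lo hi hhi f]
  apply sum_le_sum
  intro c _
  split_ifs with h1 h2
  · exact le_rfl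
  · exact absurd (hW c h1.1 h1.2.1 h1.2.2) h2
  · exact Nat.zero_le _
  · exact le_rfl


/-- core inequality, full windows -/
theorem coreA (l p P e ya yb yc V1 Ya Yb Yc : ℕ) (nu : ℕ → ℕ) (hp : p = 2 * P + e) (he : e ≤ 1)
    (hP : 1 ≤ P) (hpl : p ≤ l) (h1 : ya ≤ yc) (h2 : yb ≤ yc) (hR : p + yc ≤ ya + yb)
    (hpar : (ya + yb + yc + p) % 2 = 0)
    (hV1 : V1 ≤ ∑ i ∈ range P, nu (e + 2 * i))
    (hnu : ∀ μ, nu μ ≤ μ + 1)
    (hYa : (∑ c ∈ range (l + 1), if ad yb yc ≤ ya + c ∧ ya + c ≤ yb + yc ∧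
      (ya + yb + yc + c) % 2 = 0 then min c p else 0) ≤ Ya)
    (hYb : (∑ c ∈ range (l + 1), if ad ya yc ≤ yb + c ∧ yb + c ≤ ya + yc ∧
      (ya + yb + yc + c) % 2 = 0 then min c p else 0) ≤ Yb)
    (hYc : (∑ c ∈ range (l + 1), if ad ya yb ≤ yc + c ∧ yc + c ≤ ya + yb ∧
      (ya + yb + yc + c) % 2 = 0 then min c p else 0) ≤ Yc) :
    3 * V1 < Ya + Yb + Yc := by
  have A1 := ad_spec yb yc
  have A2 := ad_spec ya yc
  have A3 := ad_spec ya yb
  have key : ∑ i ∈ range (P + 1), min (e + 2 * i) p = (P + 1) * (e + P) := by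
    have := sum_min e P 0
    simp only [Nat.add_zero, Nat.zero_mul] at this
    rw [← this, hp]
  have ga := (win_ge l e p (P + 1) (fun c => min c p) (fun c => ad yb yc ≤ ya + c ∧
    ya + c ≤ yb + yc ∧ (ya + yb + yc + c) % 2 = 0) hpl (by omega) (by
      intro c c1 c2 c3
      refine ⟨?_, by omega, ?_⟩
      · obtain ⟨_, A⟩ := A1; rcases A with A | A <;> omega
      · clear A1 A2 A3; omega)).trans hYa
  have gb := (win_ge l e p (P + 1) (fun c => min c p) (fun c => ad ya yc ≤ yb + c ∧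
    yb + c ≤ ya + yc ∧ (ya + yb + yc + c) % 2 = 0) hpl (by omega) (by
      intro c c1 c2 c3
      refine ⟨?_, by omega, ?_⟩
      · obtain ⟨_, A⟩ := A2; rcases A with A | A <;> omega
      · clear A1 A2 A3; omega)).trans hYb
  have gc := (win_ge l e p (P + 1) (fun c => min c p) (fun c => ad ya yb ≤ yc + c ∧
    yc + c ≤ ya + yb ∧ (ya + yb + yc + c) % 2 = 0) hpl (by omega) (by
      intro c c1 c2 c3
      refine ⟨?_, by omega, ?_⟩
      · obtain ⟨_, A⟩ := A3; rcases A with A | A <;> omega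
      · clear A1 A2 A3; omega)).trans hYc
  have ga' : (P + 1) * (e + P) ≤ Ya := by rw [← key]; exact ga
  have gb' : (P + 1) * (e + P) ≤ Yb := by rw [← key]; exact gb
  have gc' : (P + 1) * (e + P) ≤ Yc := by rw [← key]; exact gc
  clear ga gb gc hYa hYb hYc A1 A2 A3
  have hV : V1 ≤ P * (e + P) := by
    refine hV1.trans ?_
    rw [← sum_lin1 e P]
    exact sum_le_sum (fun i _ => hnu _)
  nlinarith

/-- core inequality, one truncated window, nonnegative -/
theorem coreB1 (l p q P e ρ k ya yb yc V1 Ya Yb Yc : ℕ) (nu : ℕ → ℕ) (hp : p = 2 * P + e)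
    (he : e ≤ 1) (hk : P = ρ + (k + 1)) (hR : ya + yb = yc + (e + 2 * ρ)) (hpq : p ≤ q)
    (h1 : ya ≤ yc) (h2 : yb ≤ yc) (hya : q ≤ ya + 1) (hyb : q ≤ yb + 1)
    (la : ya + yc ≤ l) (lb : yb + yc ≤ l)
    (hV1 : V1 ≤ ∑ i ∈ range P, nu (e + 2 * i))
    (hnu : ∀ μ, nu μ ≤ μ + 1) (hnu2 : ∀ μ, 1 ≤ nu μ → 2 * nu μ + yc ≤ ya + yb + μ + 2)
    (hYa : (∑ c ∈ range (l + 1), if ad yb yc ≤ ya + c ∧ ya + c ≤ yb + yc ∧
      (ya + yb + yc + c) % 2 = 0 then min c p else 0) ≤ Ya)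
    (hYb : (∑ c ∈ range (l + 1), if ad ya yc ≤ yb + c ∧ yb + c ≤ ya + yc ∧
      (ya + yb + yc + c) % 2 = 0 then min c p else 0) ≤ Yb)
    (hYc : (∑ c ∈ range (l + 1), if ad ya yb ≤ yc + c ∧ yc + c ≤ ya + yb ∧
      (ya + yb + yc + c) % 2 = 0 then min c p else 0) ≤ Yc) :
    3 * V1 < Ya + Yb + Yc := by
  have A1 := ad_spec yb yc
  have A2 := ad_spec ya yc
  have A3 := ad_spec ya yb
  have par : (ya + yb + yc + e) % 2 = 0 := by clear A1 A2 A3; omega
  have key : ∑ i ∈ range (P + 1 + k), min (e + 2 * i) p = (P + 1) * (e + P) + k * p := by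
    have := sum_min e P k
    rw [hp, this]
  have hhi : e + 2 * (P + k) + (e + 2 * ρ) + 2 ≤ 2 * q := by omega
  have ga := (win_ge l e (e + 2 * (P + k)) (P + 1 + k) (fun c => min c p)
    (fun c => ad yb yc ≤ ya + c ∧
    ya + c ≤ yb + yc ∧ (ya + yb + yc + c) % 2 = 0) (by omega) (by omega) (by
      intro c c1 c2 c3
      refine ⟨?_, by omega, ?_⟩
      · obtain ⟨_, A⟩ := A1; rcases A with A | A <;> omega
      · clear A1 A2 A3 hhi; omega)).trans hYa
  have gb := (win_ge l e (e + 2 * (P + k)) (P + 1 + k) (fun c => min c p)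
    (fun c => ad ya yc ≤ yb + c ∧
    yb + c ≤ ya + yc ∧ (ya + yb + yc + c) % 2 = 0) (by omega) (by omega) (by
      intro c c1 c2 c3
      refine ⟨?_, by omega, ?_⟩
      · obtain ⟨_, A⟩ := A2; rcases A with A | A <;> omega
      · clear A1 A2 A3 hhi; omega)).trans hYb
  have gc := (win_ge l e (e + 2 * ρ) (ρ + 1) (fun c => min c p) (fun c => ad ya yb ≤ yc + c ∧
    yc + c ≤ ya + yb ∧ (ya + yb + yc + c) % 2 = 0) (by omega) (by omega) (by
      intro c c1 c2 c3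
      refine ⟨?_, by omega, ?_⟩
      · obtain ⟨_, A⟩ := A3; rcases A with A | A <;> omega
      · clear A1 A2 A3 hhi; omega)).trans hYc
  have ga' : (P + 1) * (e + P) + k * p ≤ Ya := by rw [← key]; exact ga
  have gb' : (P + 1) * (e + P) + k * p ≤ Yb := by rw [← key]; exact gb
  have gc' : (ρ + 1) * (e + ρ) ≤ Yc := by
    rw [← sum_lin e ρ]
    refine le_trans (le_of_eq ?_) gc
    apply sum_congr rfl
    intro i hi
    have := mem_range.1 hi
    show e + 2 * i = min (e + 2 * i) p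
    omega
  have hV : 2 * V1 + (k + 1) ≤ 2 * ρ * (e + ρ) + 2 * (k + 1) * (e + 1 + 2 * ρ)
      + (k + 1) * (k + 1) := by
    rw [← sum_nb e ρ (k + 1)]
    have : V1 ≤ ∑ i ∈ range (ρ + (k + 1)), (e + 1 + i + min i ρ) := by
      refine hV1.trans ?_
      rw [hk]
      apply sum_le_sum
      intro i hi
      have q1 := hnu (e + 2 * i)
      by_cases q2 : 1 ≤ nu (e + 2 * i)
      · have q3 := hnu2 _ q2
        omega
      · omega
    omega
  clear ga gb gc hYa hYb hYc A1 A2 A3 hV1 hnu hnu2 key hhi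
  subst hk
  subst hp
  have e2 : 2 * (3 * V1) < 2 * (Ya + Yb + Yc) := by
    have E1 : 2 * (3 * V1) + 3 * (k + 1) ≤ 3 * (2 * ρ * (e + ρ) + 2 * (k + 1) * (e + 1 + 2 * ρ)
      + (k + 1) * (k + 1)) := by linarith
    have E2 : 2 * ((ρ + (k + 1) + 1) * (e + (ρ + (k + 1))) + k * (2 * (ρ + (k + 1)) + e))
      + 2 * ((ρ + (k + 1) + 1) * (e + (ρ + (k + 1))) + k * (2 * (ρ + (k + 1)) + e))
      + 2 * ((ρ + 1) * (e + ρ)) ≤ 2 * (Ya + Yb + Yc) := by linarith
    have E3 : 3 * (2 * ρ * (e + ρ) + 2 * (k + 1) * (e + 1 + 2 * ρ)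
      + (k + 1) * (k + 1)) + (2 * ρ * (2 * k + 1) + 9 * k * k + 11 * k + 2 + 2 * e + 2 * (k + 1) * e)
      = (2 * ((ρ + (k + 1) + 1) * (e + (ρ + (k + 1))) + k * (2 * (ρ + (k + 1)) + e))
      + 2 * ((ρ + (k + 1) + 1) * (e + (ρ + (k + 1))) + k * (2 * (ρ + (k + 1)) + e))
      + 2 * ((ρ + 1) * (e + ρ))) + 3 * (k + 1) := by ring
    have E4 : 0 ≤ 2 * ρ * (2 * k + 1) + 9 * k * k + 11 * k + 2 * e + 2 * (k + 1) * e := by positivity
    linarith
  linarith

/-- core inequality, one truncated window, negative -/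
theorem coreB2 (l q r K K' ya yb yc V1 Ya Yb : ℕ) (nu : ℕ → ℕ)
    (hK : 1 ≤ K) (hR : ya + yb + r = yc) (hq : q = K + K') (hK' : K + r ≤ K')
    (hya : q ≤ ya + 1) (hyb : q ≤ yb + 1)
    (la : ya + yc ≤ l) (lb : yb + yc ≤ l)
    (hV1 : V1 ≤ ∑ i ∈ range K, nu (r + 2 * i))
    (hnu2 : ∀ μ, 1 ≤ nu μ → 2 * nu μ + yc ≤ ya + yb + μ + 2)
    (hYa : (∑ c ∈ range (l + 1), if ad yb yc ≤ ya + c ∧ ya + c ≤ yb + yc ∧
      (ya + yb + yc + c) % 2 = 0 then min c (r + 2 * K) else 0) ≤ Ya)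
    (hYb : (∑ c ∈ range (l + 1), if ad ya yc ≤ yb + c ∧ yb + c ≤ ya + yc ∧
      (ya + yb + yc + c) % 2 = 0 then min c (r + 2 * K) else 0) ≤ Yb) :
    3 * V1 < Ya + Yb := by
  have A1 := ad_spec yb yc
  have A2 := ad_spec ya yc
  have par : (ya + yb + yc + r) % 2 = 0 := by clear A1 A2; omega
  have key := sum_min' r K K'
  have ga := (win_ge l r (r + 2 * (q - 1)) q (fun c => min c (r + 2 * K))
    (fun c => ad yb yc ≤ ya + c ∧
    ya + c ≤ yb + yc ∧ (ya + yb + yc + c) % 2 = 0) (by omega) (by omega) (by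
      intro c c1 c2 c3
      refine ⟨?_, by omega, ?_⟩
      · obtain ⟨_, A⟩ := A1; rcases A with A | A <;> omega
      · clear A1 A2; omega)).trans hYa
  have gb := (win_ge l r (r + 2 * (q - 1)) q (fun c => min c (r + 2 * K))
    (fun c => ad ya yc ≤ yb + c ∧
    yb + c ≤ ya + yc ∧ (ya + yb + yc + c) % 2 = 0) (by omega) (by omega) (by
      intro c c1 c2 c3
      refine ⟨?_, by omega, ?_⟩
      · obtain ⟨_, A⟩ := A2; rcases A with A | A <;> omega
      · clear A1 A2; omega)).trans hYb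
  rw [← hq] at key
  have ga' : K * (r + K) + K' * (r + 2 * K) ≤ Ya + K := by rw [← key]; exact Nat.add_le_add_right ga K
  have gb' : K * (r + K) + K' * (r + 2 * K) ≤ Yb + K := by rw [← key]; exact Nat.add_le_add_right gb K
  have hV : 2 * V1 ≤ K * (K + 1) := by
    rw [← sum_id1 K]
    have : V1 ≤ ∑ i ∈ range K, (i + 1) := by
      refine hV1.trans ?_
      apply sum_le_sum
      intro i hi
      by_cases q2 : 1 ≤ nu (r + 2 * i)
      · have q3 := hnu2 _ q2
        omega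
      · omega
    omega
  clear ga gb hYa hYb A1 A2 hV1 hnu2 key
  obtain ⟨K1, rfl⟩ : ∃ K1, K = K1 + 1 := ⟨K - 1, by omega⟩
  obtain ⟨k', rfl⟩ : ∃ k', K' = K1 + 1 + r + k' := ⟨K' - (K1 + 1 + r), by omega⟩
  nlinarith [Nat.zero_le (K1 * r), Nat.zero_le (k' * K1), Nat.zero_le (k' * r), Nat.zero_le (r * r)]

end Pool.Agent.CBSl2
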