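import Pool.Agent.CBSl2.Ineq1

open Finset

namespace Pool.Agent.CBSl2

/-- The core inequality (the case of weight one at the first point), largest `y` last. -/
theorem core (l x δ q ya yb yc V1 Ya Yb Yc : ℕ) (nu : ℕ → ℕ)
    (h1 : ya ≤ yc) (h2 : yb ≤ yc) (hxq : x + 1 ≤ q) (hya : q ≤ ya + 1) (hyb : q ≤ yb + 1)
    (la : ya + yc ≤ l) (lb : yb + yc ≤ l) (lq : q ≤ l)
    (hV1 : V1 ≤ ∑ μ ∈ range (l + 1),
      if μ + 1 + δ ≤ x ∧ (x + μ + 1 + δ) % 2 = 0 then nu μ else 0)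
    (hnu : ∀ μ, nu μ ≤ μ + 1) (hnu2 : ∀ μ, 1 ≤ nu μ → 2 * nu μ + yc ≤ ya + yb + μ + 2)
    (hnu3 : ∀ μ, 1 ≤ nu μ → (μ + ya + yb + yc) % 2 = 0)
    (hYa : (∑ c ∈ range (l + 1), if ad yb yc ≤ ya + c ∧ ya + c ≤ yb + yc ∧
      (ya + yb + yc + c) % 2 = 0 then min c (x + 1 - δ) else 0) ≤ Ya)
    (hYb : (∑ c ∈ range (l + 1), if ad ya yc ≤ yb + c ∧ yb + c ≤ ya + yc ∧
      (ya + yb + yc + c) % 2 = 0 then min c (x + 1 - δ) else 0) ≤ Yb)
    (hYc : (∑ c ∈ range (l + 1), if ad ya yb ≤ yc + c ∧ yc + c ≤ ya + yb ∧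
      (ya + yb + yc + c) % 2 = 0 then min c (x + 1 - δ) else 0) ≤ Yc)
    (hpx : δ + 1 ≤ x → (x + 1 + δ + ya + yb + yc) % 2 = 0 → True) :
    3 * V1 < Ya + Yb + Yc ∨ V1 = 0 := by
  by_cases hx : δ + 1 ≤ x
  swap
  · right
    have : (∑ μ ∈ range (l + 1),
      if μ + 1 + δ ≤ x ∧ (x + μ + 1 + δ) % 2 = 0 then nu μ else 0) = 0 := by
      apply sum_eq_zero
      intro μ _
      rw [if_neg]
      omega
    omega
  by_cases hpar : (x + 1 + δ + ya + yb + yc) % 2 = 0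
  swap
  · right
    have : (∑ μ ∈ range (l + 1),
      if μ + 1 + δ ≤ x ∧ (x + μ + 1 + δ) % 2 = 0 then nu μ else 0) = 0 := by
      apply sum_eq_zero
      intro μ _
      split_ifs with h
      · by_contra hc
        have := hnu3 μ (by omega)
        have h' := h.2
        clear h hYa hYb hYc hV1 hnu hnu2 hnu3 hc hx
        omega
      · rfl
    omega
  -- p
  obtain ⟨p, hp⟩ : ∃ p, x + 1 = δ + p := ⟨x + 1 - δ, by omega⟩
  have hp2 : 2 ≤ p := by omega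
  have e1 : x + 1 - δ = p := by omega
  rw [e1] at hYa hYb hYc
  obtain ⟨P, e, hPe, he⟩ : ∃ P e, p = 2 * P + e ∧ e ≤ 1 := ⟨p / 2, p % 2, by omega, by omega⟩
  have hparp : (p + ya + yb + yc) % 2 = 0 := by
    clear hYa hYb hYc hV1 hnu hnu2 hnu3 hPe he e1 hx hp2
    omega
  have hVle : V1 ≤ ∑ i ∈ range P, nu (e + 2 * i) := by
    refine hV1.trans ?_
    have : P = ((p - 2) + 2 - e) / 2 := by omega
    rw [this, ← sum_AP l e (p - 2) (by omega) nu]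
    apply sum_le_sum
    intro μ _
    split_ifs with g1 g2
    · exact le_rfl
    · exfalso
      apply g2
      obtain ⟨g3, g4⟩ := g1
      have g5 : (μ + e) % 2 = 0 := by
        clear hYa hYb hYc hV1 hnu hnu2 hnu3 g2 g3 hparp hpar this
        omega
      refine ⟨?_, ?_, g5⟩
      · clear hYa hYb hYc hV1 hnu hnu2 hnu3 g2 hparp hpar this
        omega
      · omega
    · exact Nat.zero_le _
    · exact le_rfl
  rcases Nat.lt_or_ge (ya + yb) yc with hR | hR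
  · -- negative
    obtain ⟨r, hr⟩ : ∃ r, ya + yb + r = yc := ⟨yc - (ya + yb), by omega⟩
    by_cases hrp : r + 2 ≤ p
    · left
      obtain ⟨K, hK⟩ : ∃ K, p = r + 2 * K := ⟨(p - r) / 2, by
        clear hYa hYb hYc hV1 hnu hnu2 hnu3 hVle hPe he e1 hpar; omega⟩
      rw [hK] at hYa hYb
      have hV2 : V1 ≤ ∑ i ∈ range K, nu (r + 2 * i) := by
        refine hV1.trans ?_
        have : K = ((p - 2) + 2 - r) / 2 := by omega
        rw [this, ← sum_AP l r (p - 2) (by omega) nu]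
        apply sum_le_sum
        intro μ _
        split_ifs with g1 g2
        · exact le_rfl
        · by_contra hc
          have f1 := hnu2 μ (by omega)
          have f2 : 1 ≤ nu μ := by omega
          apply g2
          obtain ⟨g3, g4⟩ := g1
          refine ⟨by omega, by omega, ?_⟩
          clear hYa hYb hYc hV1 hnu hnu2 hnu3 g2 g3 hVle f1 f2 hc this
          omega
        · exact Nat.zero_le _
        · exact le_rfl
      have := coreB2 l q r K (q - K) ya yb yc V1 Ya Yb nu (by omega) hr (by omega) (by omega)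
        hya hyb la lb hV2 hnu2 hYa hYb
      omega
    · right
      have : (∑ μ ∈ range (l + 1),
        if μ + 1 + δ ≤ x ∧ (x + μ + 1 + δ) % 2 = 0 then nu μ else 0) = 0 := by
        apply sum_eq_zero
        intro μ _
        split_ifs with h
        · by_contra hc
          have f1 := hnu2 μ (by omega)
          have f2 : 1 ≤ nu μ := by omega
          obtain ⟨g3, g4⟩ := h
          omega
        · rfl
      omega
  · obtain ⟨R, hR'⟩ : ∃ R, ya + yb = yc + R := ⟨ya + yb - yc, by omega⟩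
    rcases Nat.lt_or_ge R p with hRp | hRp
    · left
      have hRpar : (R + p) % 2 = 0 := by
        clear hYa hYb hYc hV1 hnu hnu2 hnu3 hVle hPe he e1 hpar; omega
      obtain ⟨ρ, hρ⟩ : ∃ ρ, R = e + 2 * ρ := ⟨(R - e) / 2, by
        clear hYa hYb hYc hV1 hnu hnu2 hnu3 hVle hpar hparp; omega⟩
      obtain ⟨k, hk⟩ : ∃ k, P = ρ + (k + 1) := ⟨P - ρ - 1, by omega⟩
      rw [hρ] at hR'
      exact coreB1 l p q P e ρ k ya yb yc V1 Ya Yb Yc nu hPe he hk hR' (by omega) h1 h2 hya hyb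
        la lb hVle hnu hnu2 hYa hYb hYc
    · left
      exact coreA l p P e ya yb yc V1 Ya Yb Yc nu hPe he (by omega) (by omega) h1 h2 (by omega)
        (by clear hYa hYb hYc hV1 hnu hnu2 hnu3 hVle hPe he e1 hpar; omega) hVle hnu hYa hYb hYc

/-- The core inequality, symmetric form. -/
theorem core_sym (l x δ q y5 y6 y7 V1 Y5 Y6 Y7 : ℕ) (nu : ℕ → ℕ)
    (hxq : x + 1 ≤ q) (hy5 : q ≤ y5 + 1) (hy6 : q ≤ y6 + 1) (hy7 : q ≤ y7 + 1)
    (l56 : y5 + y6 ≤ l) (l57 : y5 + y7 ≤ l) (l67 : y6 + y7 ≤ l) (lq : q ≤ l)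
    (hV1 : V1 ≤ ∑ μ ∈ range (l + 1),
      if μ + 1 + δ ≤ x ∧ (x + μ + 1 + δ) % 2 = 0 then nu μ else 0)
    (hnu : ∀ μ, nu μ ≤ μ + 1) (hnu5 : ∀ μ, 1 ≤ nu μ → 2 * nu μ + y5 ≤ y6 + y7 + μ + 2)
    (hnu6 : ∀ μ, 1 ≤ nu μ → 2 * nu μ + y6 ≤ y5 + y7 + μ + 2)
    (hnu7 : ∀ μ, 1 ≤ nu μ → 2 * nu μ + y7 ≤ y5 + y6 + μ + 2)
    (hnup : ∀ μ, 1 ≤ nu μ → (μ + y5 + y6 + y7) % 2 = 0)
    (hY5 : (∑ c ∈ range (l + 1), if ad y6 y7 ≤ y5 + c ∧ y5 + c ≤ y6 + y7 ∧
      (y5 + y6 + y7 + c) % 2 = 0 then min c (x + 1 - δ) else 0) ≤ Y5)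
    (hY6 : (∑ c ∈ range (l + 1), if ad y5 y7 ≤ y6 + c ∧ y6 + c ≤ y5 + y7 ∧
      (y5 + y6 + y7 + c) % 2 = 0 then min c (x + 1 - δ) else 0) ≤ Y6)
    (hY7 : (∑ c ∈ range (l + 1), if ad y5 y6 ≤ y7 + c ∧ y7 + c ≤ y5 + y6 ∧
      (y5 + y6 + y7 + c) % 2 = 0 then min c (x + 1 - δ) else 0) ≤ Y7) :
    3 * V1 < Y5 + Y6 + Y7 ∨ V1 = 0 := by
  have adc : ∀ a b, ad a b = ad b a := by intro a b; unfold ad; omega
  by_cases h7 : y5 ≤ y7 ∧ y6 ≤ y7
  · exact core l x δ q y5 y6 y7 V1 Y5 Y6 Y7 nu h7.1 h7.2 hxq hy5 hy6 l57 l67 lq hV1 hnu hnu7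
      hnup hY5 hY6 hY7 (fun _ _ => trivial)
  by_cases h6 : y5 ≤ y6 ∧ y7 ≤ y6
  · have := core l x δ q y5 y7 y6 V1 Y5 Y7 Y6 nu h6.1 h6.2 hxq hy5 hy7 l56 (by omega) lq hV1 hnu
      hnu6 (fun μ h => by rw [← hnup μ h]; congr 1; ring)
      (by
        rw [adc y7 y6, show y5 + y7 + y6 = y5 + y6 + y7 by ring, show y7 + y6 = y6 + y7 by ring]
        exact hY5)
      (by
        rw [show y5 + y7 + y6 = y5 + y6 + y7 by ring]
        exact hY7)
      (by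
        rw [show y5 + y7 + y6 = y5 + y6 + y7 by ring]
        exact hY6) (fun _ _ => trivial)
    omega
  · have h5 : y6 ≤ y5 ∧ y7 ≤ y5 := by omega
    have := core l x δ q y6 y7 y5 V1 Y6 Y7 Y5 nu h5.1 h5.2 hxq hy6 hy7 (by omega) (by omega) lq
      hV1 hnu
      hnu5 (fun μ h => by rw [← hnup μ h]; congr 1; ring)
      (by
        rw [adc y7 y5, show y6 + y7 + y5 = y5 + y6 + y7 by ring, show y7 + y5 = y5 + y7 by ring]
        exact hY6)
      (by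
        rw [adc y6 y5, show y6 + y7 + y5 = y5 + y6 + y7 by ring, show y6 + y5 = y5 + y6 by ring]
        exact hY7)
      (by
        rw [show y6 + y7 + y5 = y5 + y6 + y7 by ring]
        exact hY5) (fun _ _ => trivial)
    omega

end Pool.Agent.CBSl2
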