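import Pool.Agent.CBSl2.Ineq2

open Finset

namespace Pool.Agent.CBSl2

/-- multiplicities -/
def wg (a τ : ℕ) : ℕ := if (τ + a) % 2 = 1 then τ + 1 else 0

theorem wsum_eq (l a b x : ℕ) (ha : 1 ≤ a) (hb : b ≤ l) (hx : x ≤ l) (hp : (a + b + x) % 2 = 1) :
    ∑ τ ∈ range a, wg a τ * fus l τ b x =
      ((min (a - 1) (mx l b x) + 2 - ad b x) / 2) *
        (ad b x + (min (a - 1) (mx l b x) + 2 - ad b x) / 2) := by
  rw [← sum_lin1]
  have h := sum_AP (a - 1) (ad b x) (min (a - 1) (mx l b x)) (Nat.min_le_left _ _) (fun τ => τ + 1)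
  rw [← h, show a - 1 + 1 = a by omega]
  apply sum_congr rfl
  intro τ hτ
  have hτa := mem_range.1 hτ
  obtain ⟨⟨a1, a2⟩, a3⟩ := ad_spec b x
  obtain ⟨m1, m2, m3⟩ := mx_spec l b x hb hx
  have par : (ad b x + b + x) % 2 = 0 := by clear m1 m2 m3 a1 a2 hp hτ hτa h; omega
  unfold wg
  by_cases hpar : (τ + a) % 2 = 1
  · rw [if_pos hpar]
    have p2 : (τ + ad b x) % 2 = 0 := by clear m1 m2 m3 a1 a2 a3 hτ hτa h; omega
    have p3 : (τ + b + x) % 2 = 0 := by clear m1 m2 m3 a1 a2 a3 hτ hτa h p2; omega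
    clear hp hpar par
    by_cases hf : ad b x ≤ τ ∧ τ ≤ min (a - 1) (mx l b x)
    · rw [if_pos ⟨hf.1, hf.2, p2⟩]
      have : fus l τ b x = 1 := by
        rw [fus_eq_one_iff]
        have g1 := hf.1
        have g2 := (le_min_iff.1 hf.2).2
        clear h hf p2
        exact ⟨p3, by omega, by omega, by omega, by omega⟩
      rw [this, mul_one]
    · rw [if_neg (by tauto)]
      have : fus l τ b x = 0 := by
        by_contra hc
        have h1 : 0 < fus l τ b x := Nat.pos_of_ne_zero hc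
        rw [fus_pos_iff] at h1
        apply hf
        obtain ⟨_, q2, q3, q4, q5⟩ := h1
        clear h hf p2 p3 hc
        constructor
        · rcases a3 with a3 | a3 <;> omega
        · apply le_min (by omega)
          rcases m3 with m3 | m3 <;> omega
      rw [this, mul_zero]
  · rw [if_neg hpar, zero_mul, if_neg]
    intro hc
    have := hc.2.2
    clear hc m1 m2 m3 a1 a2 a3 hτ h
    omega

theorem wsum_even (l a b x : ℕ) (hp : (a + b + x) % 2 = 0) :
    ∑ τ ∈ range a, wg a τ * fus l τ b x = 0 := by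
  apply sum_eq_zero
  intro τ _
  unfold wg fus
  by_cases h1 : (τ + a) % 2 = 1
  · rw [if_pos h1, if_neg, mul_zero]
    intro h2
    have := h2.1
    clear h2
    omega
  · rw [if_neg h1, zero_mul]

/-- V side -/
theorem wsum_ge (l a b x T : ℕ) (hT : 1 ≤ T) (hTa : T ≤ a) (hTb : T ≤ b)
    (hx : x + 2 * T = a + b + 1) (hl : a + b ≤ l) :
    T * (1 + a - T) ≤ ∑ τ ∈ range a, wg a τ * fus l τ b x := by
  have hxl : x ≤ l := by omega
  rw [wsum_eq l a b x (by omega) (by omega) hxl (by omega)]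
  have hm : min (a - 1) (mx l b x) = a - 1 := by
    apply min_eq_left
    have := (mx_spec l b x (by omega) hxl).2.2
    omega
  rw [hm]
  rcases le_total (2 * T) (a + 1) with h | h
  · have h1 : ad b x = a + 1 - 2 * T := by unfold ad; omega
    have h2 : (a - 1 + 2 - ad b x) / 2 = T := by rw [h1]; omega
    rw [h2, h1]
    apply Nat.mul_le_mul_left
    omega
  · have h1 : ad b x = 2 * T - (a + 1) := by unfold ad; omega
    have h2 : (a - 1 + 2 - ad b x) / 2 = a + 1 - T := by rw [h1]; omega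
    rw [h2, h1, mul_comm T]
    apply Nat.mul_le_mul <;> omega

/-- Y side -/
theorem wsum_le (l a κ c1 T : ℕ) (ha : 1 ≤ a) (hκ : κ ≤ l) (hc : c1 ≤ l) (hT : 1 ≤ T)
    (hTe : a + c1 + 1 = κ + 2 * T) :
    ∑ τ ∈ range a, wg a τ * fus l τ κ c1 ≤ T * (1 + min κ (a - T)) := by
  rw [wsum_eq l a κ c1 ha hκ hc (by omega)]
  obtain ⟨m1, m2, m3⟩ := mx_spec l κ c1 hκ hc
  generalize hM : min (a - 1) (mx l κ c1) = M
  have M1 : M ≤ a - 1 := by rw [← hM]; exact Nat.min_le_left _ _
  have M2 : M ≤ κ + c1 := by rw [← hM]; exact (Nat.min_le_right _ _).trans m1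
  clear hM m1 m2 m3
  by_cases hTa : T ≤ a
  swap
  · have h1 : ad κ c1 ≥ a := by unfold ad; omega
    have h2 : (M + 2 - ad κ c1) / 2 = 0 := by omega
    rw [h2, zero_mul]; exact Nat.zero_le _
  rcases le_total κ (a - T) with h | h
  · rw [min_eq_left h]
    -- c1 + 1 ≤ T
    have h1 : c1 + 1 ≤ T := by omega
    rcases le_total κ c1 with h2 | h2
    · have e1 : ad κ c1 = c1 - κ := by unfold ad; omega
      rw [e1]
      have h3 : (M + 2 - (c1 - κ)) / 2 ≤ κ + 1 := by omega
      calc (M + 2 - (c1 - κ)) / 2 * (c1 - κ + (M + 2 - (c1 - κ)) / 2)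
          ≤ (κ + 1) * (c1 - κ + (κ + 1)) := by gcongr
        _ ≤ T * (1 + κ) := by
          rw [mul_comm T, add_comm 1 κ]
          apply Nat.mul_le_mul_left
          omega
    · have e1 : ad κ c1 = κ - c1 := by unfold ad; omega
      rw [e1]
      have h3 : (M + 2 - (κ - c1)) / 2 ≤ c1 + 1 := by omega
      calc (M + 2 - (κ - c1)) / 2 * (κ - c1 + (M + 2 - (κ - c1)) / 2)
          ≤ (c1 + 1) * (κ - c1 + (c1 + 1)) := by gcongr
        _ ≤ T * (1 + κ) := by
          apply Nat.mul_le_mul <;> omega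
  · rw [min_eq_right h]
    rcases le_total κ c1 with h2 | h2
    · have e1 : ad κ c1 = c1 - κ := by unfold ad; omega
      rw [e1]
      have h3 : (M + 2 - (c1 - κ)) / 2 ≤ 1 + (a - T) := by omega
      calc (M + 2 - (c1 - κ)) / 2 * (c1 - κ + (M + 2 - (c1 - κ)) / 2)
          ≤ (1 + (a - T)) * (c1 - κ + (1 + (a - T))) := by gcongr
        _ ≤ T * (1 + (a - T)) := by
          rw [mul_comm T]
          apply Nat.mul_le_mul_left
          omega
    · have e1 : ad κ c1 = κ - c1 := by unfold ad; omega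
      rw [e1]
      have h3 : (M + 2 - (κ - c1)) / 2 ≤ T := by omega
      calc (M + 2 - (κ - c1)) / 2 * (κ - c1 + (M + 2 - (κ - c1)) / 2)
          ≤ T * (κ - c1 + T) := by gcongr
        _ ≤ T * (1 + (a - T)) := by
          apply Nat.mul_le_mul_left
          omega

end Pool.Agent.CBSl2
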