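import Pool.Agent.CBSl2.Ineq3

open Finset

namespace Pool.Agent.CBSl2

/-- indicator of the reflected support of `{34}` (without the upper end) -/
def ind (δ m : ℕ) : ℕ := if δ ≤ m ∧ (m + δ) % 2 = 0 then 1 else 0

/-- pointwise upper bound for the terms of `V` -/
theorem V_point (l a b r s m μ : ℕ) (hm : m ≤ l) (hμ : μ ≤ l) (hab : a + b ≤ l)
    (hr : r ≤ l) (hs : s ≤ l) :
    fus l r s (l - m) * E4 l a b (l - m) (l - μ) ≤
      ind (ad l (r + s)) m * ∑ τ ∈ range a, wg a τ * fus l τ b (m + μ + 1) := by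
  rcases Nat.eq_zero_or_pos (fus l r s (l - m) * E4 l a b (l - m) (l - μ)) with h0 | h0
  · rw [h0]; exact Nat.zero_le _
  have hf : 0 < fus l r s (l - m) := Nat.pos_of_ne_zero (by rintro h; simp [h] at h0)
  have hE : 0 < E4 l a b (l - m) (l - μ) := Nat.pos_of_ne_zero (by rintro h; simp [h] at h0)
  have hf1 : fus l r s (l - m) = 1 := by
    have := fus_le_one l r s (l - m); omega
  rw [fus_pos_iff] at hf
  have hi : ind (ad l (r + s)) m = 1 := by
    unfold ind
    rw [if_pos]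
    obtain ⟨f1, f2, f3, f4, f5⟩ := hf
    obtain ⟨⟨c1, c2⟩, c3⟩ := ad_spec l (r + s)
    clear h0 hE hf1
    constructor
    · rcases c3 with c3 | c3 <;> omega
    · clear f2 f3 f4 f5 c1 c2
      have : (ad l (r + s) + l + (r + s)) % 2 = 0 := by
        rcases c3 with c3 | c3 <;> omega
      clear c3
      have e : l - m + m = l := by omega
      omega
  rw [hf1, hi, one_mul, one_mul]
  have hP := (E4_pos_iff l a b (l - m) (l - μ) (by omega) (by omega) (Nat.sub_le _ _)
    (Nat.sub_le _ _)).1 hE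
  have hN : 0 < N4 l a b (l - m) (l - μ) := by
    apply Nat.pos_of_ne_zero; rintro h; unfold E4 at hE; simp [h] at hE
  obtain ⟨p1, p2, p3, p4, p5, p6⟩ := hP
  have hNle := (le_N4_iff l a b (l - m) (l - μ) _ (by omega) (by omega) (Nat.sub_le _ _)
    (Nat.sub_le _ _) p1 hN).1 le_rfl
  obtain ⟨_, _, _, ⟨n1, n2, _, _⟩⟩ := hNle
  obtain ⟨T, hT⟩ : ∃ T, a + b = m + μ + 2 * T := ⟨(a + b - (m + μ)) / 2, by
    clear n1 n2 hN hE h0 hf hi hf1
    omega⟩
  have hT1 : 1 ≤ T := by omega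
  have hTa : T ≤ a := by omega
  have hTb : T ≤ b := by omega
  have hw := wsum_ge l a b (m + μ + 1) T hT1 hTa hTb (by omega) hab
  refine le_trans ?_ hw
  unfold E4
  have e1 : (a + b + (l - m) + (l - μ)) / 2 - l = T := by omega
  rw [e1, mul_comm]
  apply Nat.mul_le_mul_left
  omega

/-- lower bound for the degree in `Y` -/
theorem E4_ge (l a κ c y T : ℕ) (hκ : κ ≤ l) (hc : 1 ≤ c) (hT : 1 ≤ T) (hTa : T ≤ a)
    (hTe : a + c = κ + 2 * T) (hy : a ≤ y) (hyl : y ≤ l) (hl : 2 * a + c + y ≤ l)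
    (hκl : κ + y ≤ l) (hl2 : y + c + a ≤ l) :
    T * (1 + min κ (a - T)) ≤ E4 l a (l - κ) (y + c) (l - y) := by
  have hN : 1 + min κ (a - T) ≤ N4 l a (l - κ) (y + c) (l - y) := by
    apply (le_N4_iff l a (l - κ) (y + c) (l - y) _ (by omega) (Nat.sub_le _ _) (by omega)
      (Nat.sub_le _ _) (by omega) (by omega)).2
    have g1 : min κ (a - T) ≤ κ := Nat.min_le_left _ _
    have g2 : min κ (a - T) ≤ a - T := Nat.min_le_right _ _
    generalize min κ (a - T) = n at g1 g2
    refine ⟨⟨by omega, by omega, by omega, by omega⟩, ⟨by omega, by omega, by omega, by omega⟩,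
        ⟨by omega, by omega, by omega, by omega⟩, ⟨by omega, by omega, by omega, by omega⟩⟩
  unfold E4
  have e1 : (a + (l - κ) + (y + c) + (l - y)) / 2 - l = T := by omega
  rw [e1, mul_comm]
  exact Nat.mul_le_mul_right _ hN

end Pool.Agent.CBSl2
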