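import Pool.Agent.CBSl2.Ineq4

open Finset

namespace Pool.Agent.CBSl2

theorem fus_one {l a b c : ℕ} (h : fus l a b c ≠ 0) : fus l a b c = 1 ∧
    ((a + b + c) % 2 = 0 ∧ a ≤ b + c ∧ b ≤ a + c ∧ c ≤ a + b ∧ a + b + c ≤ 2 * l) := by
  have := fus_le_one l a b c
  refine ⟨by omega, (fus_pos_iff l a b c).1 (by omega)⟩

/-- pointwise lower bound for the terms of `Y` -/
theorem Y_point (l a b r s y ya yb m κ c : ℕ) (ha : 1 ≤ a) (hb : 1 ≤ b)
    (hm : m ≤ l) (hκ : κ ≤ l) (hc : 1 ≤ c) (hcw : y + c ≤ ya + yb) (hr : r ≤ l) (hs : s ≤ l)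
    (C1 : a + b + y + ya + yb + r ≤ l + s) (C1' : a + b + y + ya + yb + s ≤ l + r)
    (C2 : a + b ≤ y + 1) :
    ind (ad l (r + s)) m * (fus l b m κ * ∑ τ ∈ range a, wg a τ * fus l κ τ (c - 1)) ≤
      fus l r s (l - m) * (fus l b (l - m) (l - κ) * E4 l a (l - κ) (y + c) (l - y)) := by
  rcases Nat.eq_zero_or_pos
    (ind (ad l (r + s)) m * (fus l b m κ * ∑ τ ∈ range a, wg a τ * fus l κ τ (c - 1))) with h0 | h0
  · rw [h0]; exact Nat.zero_le _
  have hi : ind (ad l (r + s)) m ≠ 0 := by rintro h; simp [h] at h0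
  have hf : fus l b m κ ≠ 0 := by rintro h; simp [h] at h0
  have hS : ∑ τ ∈ range a, wg a τ * fus l κ τ (c - 1) ≠ 0 := by rintro h; simp [h] at h0
  obtain ⟨τ, hτ, hτ0⟩ := Finset.exists_ne_zero_of_sum_ne_zero hS
  have hτa := mem_range.1 hτ
  have hw : wg a τ ≠ 0 := by rintro h; simp [h] at hτ0
  have hg : fus l κ τ (c - 1) ≠ 0 := by rintro h; simp [h] at hτ0
  have hwp : (τ + a) % 2 = 1 := by
    unfold wg at hw
    by_contra hc
    rw [if_neg hc] at hw
    exact hw rfl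
  obtain ⟨_, g1, g2, g3, g4, g5⟩ := fus_one hg
  obtain ⟨hf1, f1, f2, f3, f4, f5⟩ := fus_one hf
  have hi1 : ind (ad l (r + s)) m = 1 ∧ ad l (r + s) ≤ m ∧ (m + ad l (r + s)) % 2 = 0 := by
    unfold ind at hi ⊢
    by_cases hh : ad l (r + s) ≤ m ∧ (m + ad l (r + s)) % 2 = 0
    · rw [if_pos hh]; exact ⟨rfl, hh⟩
    · rw [if_neg hh] at hi; exact absurd rfl hi
  obtain ⟨i1, i2, i3⟩ := hi1
  clear h0 hi hf hS hτ hτ0 hw hg
  -- T
  have hκc : κ + 2 ≤ a + c := by omega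
  obtain ⟨T, hT⟩ : ∃ T, a + c = κ + 2 * T := ⟨(a + c - κ) / 2, by
    clear f1 f2 f3 f4 f5 i1 i2 i3 C1 C1' C2 g2 g3 g4 g5
    omega⟩
  have hT1 : 1 ≤ T := by omega
  have hTa : T ≤ a := by omega
  clear g1 g2 g3 g4 g5 hwp hτa
  have hcl : c - 1 ≤ l := by omega
  have hsum : ∑ τ ∈ range a, wg a τ * fus l κ τ (c - 1) ≤ T * (1 + min κ (a - T)) := by
    have := wsum_le l a κ (c - 1) T ha hκ hcl hT1 (by omega)
    refine le_trans (le_of_eq ?_) this
    apply sum_congr rfl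
    intro t _
    rw [fus_swap12 l κ t]
  have hE := E4_ge l a κ c y T hκ hc hT1 hTa hT (by omega) (by omega) (by omega) (by omega)
    (by omega)
  obtain ⟨⟨c1, c2⟩, c3⟩ := ad_spec l (r + s)
  have e1 : fus l r s (l - m) = 1 := by
    rw [fus_eq_one_iff]
    refine ⟨?_, by omega, by omega, by omega, by omega⟩
    clear c1 c2 f1 f2 f3 f4 f5 C1 C1' C2 hcw hκc hT hsum hE i1 i2
    have : (ad l (r + s) + l + (r + s)) % 2 = 0 := by
      rcases c3 with c3 | c3 <;> omega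
    have e : l - m + m = l := by omega
    clear c3
    omega
  have e2 : fus l b (l - m) (l - κ) = 1 := by
    rw [fus_eq_one_iff]
    clear c1 c2 c3 hsum hE i1 i2 i3 e1
    refine ⟨?_, by omega, by omega, by omega, by omega⟩
    have e : l - m + m = l := by omega
    have e' : l - κ + κ = l := by omega
    clear C1 C1' C2 hcw hκc hT f2 f3 f4 f5
    omega
  rw [e1, e2, i1, hf1, one_mul, one_mul, one_mul, one_mul]
  exact hsum.trans hE

/-- the inner count -/
theorem count_ge (l x c δ : ℕ) (hc : 1 ≤ c) (hl : x + c ≤ l + 1)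
    (hpar : (x + 1 + δ + c) % 2 = 0) :
    min c (x + 1 - δ) ≤ ∑ m ∈ range (l + 1), ind δ m * fus l x m (c - 1) := by
  rcases Nat.eq_zero_or_pos (min c (x + 1 - δ)) with h0 | h0
  · rw [h0]; exact Nat.zero_le _
  have g1 : min c (x + 1 - δ) ≤ c := Nat.min_le_left _ _
  have g2 : min c (x + 1 - δ) ≤ x + 1 - δ := Nat.min_le_right _ _
  generalize min c (x + 1 - δ) = n at g1 g2 h0 ⊢
  have h := sum_AP l (x + c + 1 - 2 * n) (x + c - 1) (by omega) (fun _ => 1)
  have e1 : (x + c - 1 + 2 - (x + c + 1 - 2 * n)) / 2 = n := by omega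
  rw [e1] at h
  simp only [sum_const, card_range, smul_eq_mul, mul_one] at h
  rw [← h]
  apply sum_le_sum
  intro m hm
  have hml := mem_range.1 hm
  split_ifs with hc1
  · obtain ⟨q1, q2, q3⟩ := hc1
    have par : (m + x + c + 1) % 2 = 0 := by
      clear hpar h g1 g2 q1 q2 hml hm
      omega
    have i1 : ind δ m = 1 := by
      unfold ind
      rw [if_pos]
      constructor
      · clear q3 par h hpar; omega
      · clear q3 q1 q2 h g1 g2; omega
    have i2 : fus l x m (c - 1) = 1 := by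
      rw [fus_eq_one_iff]
      clear hpar h
      refine ⟨?_, by omega, by omega, by omega, by omega⟩
      clear q1 q2 q3 g1 g2
      omega
    rw [i1, i2]
  · exact Nat.zero_le _

end Pool.Agent.CBSl2
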