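import Pool.Agent.CBSl2.Ineq5

open Finset

namespace Pool.Agent.CBSl2

theorem sum4_comm (A B C D : Finset ℕ) (f : ℕ → ℕ → ℕ → ℕ → ℕ) :
    ∑ m ∈ A, ∑ μ ∈ B, ∑ τ ∈ C, ∑ x ∈ D, f m μ τ x
      = ∑ τ ∈ C, ∑ x ∈ D, ∑ m ∈ A, ∑ μ ∈ B, f m μ τ x := by
  calc ∑ m ∈ A, ∑ μ ∈ B, ∑ τ ∈ C, ∑ x ∈ D, f m μ τ x
      = ∑ m ∈ A, ∑ τ ∈ C, ∑ μ ∈ B, ∑ x ∈ D, f m μ τ x := by
        apply sum_congr rfl; intro m _; exact sum_comm
    _ = ∑ τ ∈ C, ∑ m ∈ A, ∑ μ ∈ B, ∑ x ∈ D, f m μ τ x := sum_comm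
    _ = ∑ τ ∈ C, ∑ m ∈ A, ∑ x ∈ D, ∑ μ ∈ B, f m μ τ x := by
        apply sum_congr rfl; intro τ _; apply sum_congr rfl; intro m _; exact sum_comm
    _ = _ := by
        apply sum_congr rfl; intro τ _; exact sum_comm

theorem sum3_comm (A B C : Finset ℕ) (f : ℕ → ℕ → ℕ → ℕ) :
    ∑ m ∈ A, ∑ τ ∈ B, ∑ x ∈ C, f m τ x
      = ∑ τ ∈ B, ∑ x ∈ C, ∑ m ∈ A, f m τ x := by
  rw [sum_comm]; apply sum_congr rfl; intro τ _; exact sum_comm

theorem reflect (l : ℕ) (f : ℕ → ℕ) : ∑ m ∈ range (l + 1), f m = ∑ m ∈ range (l + 1), f (l - m) := by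
  have := Finset.sum_range_reflect f (l + 1)
  rw [← this]
  apply sum_congr rfl; intro m _
  congr 1

theorem val_dl2 (l a b : ℕ) (ha : a ≤ l) (hb : b ≤ l) (u v : ℕ → ℕ) :
    val l (dl a) (dl b) u v = ∑ c ∈ range (l + 1), ∑ d ∈ range (l + 1), u c * v d * E4 l a b c d := by
  unfold val
  rw [sum_eq_single a, sum_eq_single b]
  · apply sum_congr rfl; intro c _; apply sum_congr rfl; intro d _
    simp [dl]
  · intro x _ hx
    apply sum_eq_zero; intro c _; apply sum_eq_zero; intro d _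
    simp [dl, hx]
  · intro h; exact absurd (mem_range.2 (by omega)) h
  · intro x _ hx
    apply sum_eq_zero; intro b _; apply sum_eq_zero; intro c _; apply sum_eq_zero; intro d _
    simp [dl, hx]
  · intro h; exact absurd (mem_range.2 (by omega)) h

theorem val_dl14 (l a z : ℕ) (ha : a ≤ l) (hz : z ≤ l) (u v : ℕ → ℕ) :
    val l (dl a) u v (dl z) = ∑ b ∈ range (l + 1), ∑ c ∈ range (l + 1), u b * v c * E4 l a b c z := by
  unfold val
  rw [sum_eq_single a]
  · apply sum_congr rfl; intro b _; apply sum_congr rfl; intro c _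
    rw [sum_eq_single z]
    · simp [dl]
    · intro x _ hx; simp [dl, hx]
    · intro h; exact absurd (mem_range.2 (by omega)) h
  · intro x _ hx
    apply sum_eq_zero; intro b _; apply sum_eq_zero; intro c _; apply sum_eq_zero; intro d _
    simp [dl, hx]
  · intro h; exact absurd (mem_range.2 (by omega)) h

theorem conv3 (l x y z : ℕ) (hx : x ≤ l) (hy : y ≤ l) (hz : z ≤ l) (c : ℕ) :
    conv l (dl x) (conv l (dl y) (dl z)) c = N4 l y z x c := by
  rw [conv_dl_left l x hx]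
  unfold N4
  apply sum_congr rfl; intro t _
  rw [conv_dl_dl l y z hy hz, fus_swap12 l x t c]

/-- reflected multiplicities -/
def nuN (l z5 z6 z7 μ : ℕ) : ℕ := if μ ≤ l then N4 l z6 z7 z5 (l - μ) else 0

/-- the `V` of the reduction -/
def V1 (l δ x : ℕ) (nu : ℕ → ℕ) : ℕ :=
  ∑ m ∈ range (l + 1), ∑ μ ∈ range (l + 1), ind δ m * nu μ * (if m + μ + 1 = x then 1 else 0)

theorem V_le (l a b r s z5 z6 z7 : ℕ) (hab : a + b ≤ l) (hr : r ≤ l) (hs : s ≤ l)
    (h5 : z5 ≤ l) (h6 : z6 ≤ l) (h7 : z7 ≤ l) :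
    val l (dl a) (dl b) (conv l (dl r) (dl s)) (conv l (dl z5) (conv l (dl z6) (dl z7))) ≤
    ∑ τ ∈ range a, ∑ x ∈ range (l + 1), wg a τ * fus l τ b x *
      V1 l (ad l (r + s)) x (nuN l z5 z6 z7) := by
  rw [val_dl2 l a b (by omega) (by omega), reflect]
  have e1 : ∀ m, ∑ d ∈ range (l + 1), conv l (dl r) (dl s) (l - m) *
      conv l (dl z5) (conv l (dl z6) (dl z7)) d * E4 l a b (l - m) d =
      ∑ μ ∈ range (l + 1), conv l (dl r) (dl s) (l - m) *
      conv l (dl z5) (conv l (dl z6) (dl z7)) (l - μ) * E4 l a b (l - m) (l - μ) := by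
    intro m; exact reflect l _
  simp only [e1]
  have e2 : ∑ τ ∈ range a, ∑ x ∈ range (l + 1), wg a τ * fus l τ b x *
      V1 l (ad l (r + s)) x (nuN l z5 z6 z7) = ∑ m ∈ range (l + 1), ∑ μ ∈ range (l + 1),
      ∑ τ ∈ range a, ∑ x ∈ range (l + 1), wg a τ * fus l τ b x *
        (ind (ad l (r + s)) m * nuN l z5 z6 z7 μ * (if m + μ + 1 = x then 1 else 0)) := by
    rw [sum4_comm]
    apply sum_congr rfl; intro τ _; apply sum_congr rfl; intro x _
    unfold V1
    rw [mul_sum]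
    apply sum_congr rfl; intro m _
    rw [mul_sum]
  rw [e2]
  apply sum_le_sum; intro m hm
  apply sum_le_sum; intro μ hμ
  have hml : m ≤ l := by have := mem_range.1 hm; omega
  have hμl : μ ≤ l := by have := mem_range.1 hμ; omega
  rw [conv_dl_dl l r s hr hs, conv3 l z5 z6 z7 h5 h6 h7]
  have hp := V_point l a b r s m μ hml hμl hab hr hs
  have hn : nuN l z5 z6 z7 μ = N4 l z6 z7 z5 (l - μ) := by unfold nuN; rw [if_pos hμl]
  rw [hn]
  calc fus l r s (l - m) * N4 l z6 z7 z5 (l - μ) * E4 l a b (l - m) (l - μ)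
      = N4 l z6 z7 z5 (l - μ) * (fus l r s (l - m) * E4 l a b (l - m) (l - μ)) := by ring
    _ ≤ N4 l z6 z7 z5 (l - μ) * (ind (ad l (r + s)) m *
        ∑ τ ∈ range a, wg a τ * fus l τ b (m + μ + 1)) := Nat.mul_le_mul_left _ hp
    _ = _ := by
      rw [mul_sum, mul_sum]
      apply sum_congr rfl; intro τ _
      by_cases hx : m + μ + 1 ≤ l
      · rw [sum_eq_single (m + μ + 1)]
        · rw [if_pos rfl]; ring
        · intro x _ hx'
          rw [if_neg (Ne.symm hx')]; ring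
        · intro h; exact absurd (mem_range.2 (by omega)) h
      · rw [fus_gt l τ b (m + μ + 1) (by omega)]
        symm
        rw [mul_zero, mul_zero, mul_zero]
        apply sum_eq_zero; intro x hx'
        have := mem_range.1 hx'
        rw [if_neg (by omega)]
        ring

/-- the `Y` of the reduction -/
def Y1 (l δ y ya yb x : ℕ) : ℕ :=
  ∑ c ∈ range (l + 1), if 1 ≤ c ∧ ad ya yb ≤ y + c ∧ y + c ≤ ya + yb ∧ (y + ya + yb + c) % 2 = 0
    then ∑ m ∈ range (l + 1), ind δ m * fus l x m (c - 1) else 0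

theorem shift_le (l y : ℕ) (W : ℕ → Prop) [DecidablePred W] (g : ℕ → ℕ)
    (hW : ∀ c, W c → y + c ≤ l) :
    ∑ c ∈ range (l + 1), (if W c then g (y + c) else 0) ≤ ∑ v ∈ range (l + 1), g v := by
  rw [← sum_filter]
  have : ∑ c ∈ (range (l + 1)).filter W, g (y + c) =
      ∑ v ∈ ((range (l + 1)).filter W).image (fun c => y + c), g v := by
    rw [sum_image]
    intro a _ b _ h
    simpa using h
  rw [this]
  apply sum_le_sum_of_subset
  intro v hv
  rw [mem_image] at hv
  obtain ⟨c, hc, rfl⟩ := hv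
  rw [mem_filter] at hc
  rw [mem_range]
  have := hW c hc.2
  omega

theorem Y_ge (l a b r s z za zb y ya yb : ℕ) (ha : 1 ≤ a) (hb : 1 ≤ b)
    (hr : r ≤ l) (hs : s ≤ l) (hz : z + y = l) (hza : za + ya = l) (hzb : zb + yb = l)
    (C1 : a + b + y + ya + yb + r ≤ l + s) (C1' : a + b + y + ya + yb + s ≤ l + r)
    (C2 : a + b ≤ y + 1) :
    ∑ τ ∈ range a, ∑ x ∈ range (l + 1), wg a τ * fus l τ b x *
      Y1 l (ad l (r + s)) y ya yb x ≤
    val l (dl a) (conv l (dl b) (conv l (dl r) (dl s))) (conv l (dl za) (dl zb)) (dl z) := by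
  have hR := (val_dl14 l a z (by omega) (by omega) (conv l (dl b) (conv l (dl r) (dl s)))
    (conv l (dl za) (dl zb))).trans sum_comm
  rw [hR]
  set δ := ad l (r + s) with hδ
  -- left side
  have e2 : ∑ τ ∈ range a, ∑ x ∈ range (l + 1), wg a τ * fus l τ b x * Y1 l δ y ya yb x
      = ∑ c ∈ range (l + 1), if (1 ≤ c ∧ ad ya yb ≤ y + c ∧ y + c ≤ ya + yb ∧
        (y + ya + yb + c) % 2 = 0) then
        ∑ τ ∈ range a, ∑ x ∈ range (l + 1), wg a τ * fus l τ b x *
          ∑ m ∈ range (l + 1), ind δ m * fus l x m (c - 1) else 0 := by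
    unfold Y1
    simp only [mul_sum]
    rw [← sum3_comm]
    apply sum_congr rfl; intro c _
    split_ifs with h
    · apply sum_congr rfl; intro τ _; apply sum_congr rfl; intro x _; rw [mul_sum]
    · simp
  rw [e2]
  refine le_trans ?_ (shift_le l y (fun c => 1 ≤ c ∧ ad ya yb ≤ y + c ∧ y + c ≤ ya + yb ∧
        (y + ya + yb + c) % 2 = 0) _ (by
          rintro c ⟨_, _, h, _⟩; omega))
  apply sum_le_sum; intro c hc
  have hcl : c ≤ l := by have := mem_range.1 hc; omega
  split_ifs with hW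
  swap
  · exact le_rfl
  obtain ⟨w1, w2, w3, w4⟩ := hW
  have hf : conv l (dl za) (dl zb) (y + c) = 1 := by
    rw [conv_dl_dl l za zb (by omega) (by omega), fus_eq_one_iff]
    obtain ⟨⟨a1, a2⟩, a3⟩ := ad_spec ya yb
    refine ⟨?_, ?_, ?_, ?_, ?_⟩
    · clear w1 w2 w3 a1 a2 a3 hc hcl C1 C1' C2; omega
    · clear w1 w4 hc hcl C2; rcases a3 with a3 | a3 <;> omega
    · clear w1 w4 hc hcl C2; rcases a3 with a3 | a3 <;> omega
    · clear w1 w4 hc hcl C2; rcases a3 with a3 | a3 <;> omega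
    · clear w1 w4 hc hcl C2; rcases a3 with a3 | a3 <;> omega
  rw [hf, reflect]
  -- right side
  have e3 : ∀ κ, conv l (dl b) (conv l (dl r) (dl s)) (l - κ) = ∑ m ∈ range (l + 1),
      fus l r s (l - m) * fus l b (l - m) (l - κ) := by
    intro κ
    rw [conv_dl_left l b (by omega), reflect]
    apply sum_congr rfl; intro m _
    rw [conv_dl_dl l r s hr hs]
  simp only [e3, mul_one]
  have hzl : z = l - y := by omega
  rw [hzl]
  -- left side rewriting
  have e4 : ∑ τ ∈ range a, ∑ x ∈ range (l + 1), wg a τ * fus l τ b x *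
          ∑ m ∈ range (l + 1), ind δ m * fus l x m (c - 1)
      = ∑ κ ∈ range (l + 1), ∑ m ∈ range (l + 1),
        ind δ m * (fus l b m κ * ∑ τ ∈ range a, wg a τ * fus l κ τ (c - 1)) := by
    calc ∑ τ ∈ range a, ∑ x ∈ range (l + 1), wg a τ * fus l τ b x *
          ∑ m ∈ range (l + 1), ind δ m * fus l x m (c - 1)
        = ∑ τ ∈ range a, ∑ m ∈ range (l + 1), wg a τ * ind δ m * N4 l b τ m (c - 1) := by
          apply sum_congr rfl; intro τ _
          unfold N4
          simp only [mul_sum]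
          rw [sum_comm]
          apply sum_congr rfl; intro m _
          apply sum_congr rfl; intro x _
          rw [fus_swap12 l τ b x]
          ring
      _ = ∑ τ ∈ range a, ∑ m ∈ range (l + 1), wg a τ * ind δ m *
            ∑ κ ∈ range (l + 1), fus l b m κ * fus l κ τ (c - 1) := by
          apply sum_congr rfl; intro τ _
          apply sum_congr rfl; intro m _
          rw [N4_swap23 l b τ m (c - 1)]
          rfl
      _ = _ := by
          simp only [mul_sum]
          refine (sum3_comm (range a) (range (l + 1)) (range (l + 1)) _).trans ?_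
          refine sum_comm.trans ?_
          apply sum_congr rfl; intro κ _
          apply sum_congr rfl; intro m _
          apply sum_congr rfl; intro τ _
          ring
  rw [e4]
  apply sum_le_sum; intro κ hκ
  rw [sum_mul]
  apply sum_le_sum; intro m hm
  have hml : m ≤ l := by have := mem_range.1 hm; omega
  have hκl : κ ≤ l := by have := mem_range.1 hκ; omega
  have := Y_point l a b r s y ya yb m κ c ha hb hml hκl w1 w3 hr hs C1 C1' C2
  rw [← hδ] at this
  calc _ ≤ _ := this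
    _ = _ := by ring

end Pool.Agent.CBSl2
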