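import Pool.Agent.CBSl2.Struct3

open Finset

namespace Pool.Agent.CBSl2

theorem S1 (l q R y5 y6 y7 a5 a6 a7 : ℕ) (h5 : y5 ≤ l) (h6 : y6 ≤ l) (h7 : y7 ≤ l)
    (A5 : y5 + 1 ≤ l → y5 + 2 ≤ q → R + q ≤ a5 + y5)
    (A6 : y6 + 1 ≤ l → y6 + 2 ≤ q → R + q ≤ a6 + y6)
    (A7 : y7 + 1 ≤ l → y7 + 2 ≤ q → R + q ≤ a7 + y7)
    (s5 : a5 + y6 = y7 ∨ a5 + y7 = y6) (s6 : a6 + y5 = y7 ∨ a6 + y7 = y5)
    (s7 : a7 + y5 = y6 ∨ a7 + y6 = y5) (hne : ¬ (y5 = l ∧ y6 = l ∧ y7 = l)) : q ≤ l := by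
  by_contra hq
  rcases Nat.lt_or_ge y5 l with g5 | g5
  · have B5 := A5 (by omega) (by omega)
    rcases Nat.lt_or_ge y6 l with g6 | g6
    · have B6 := A6 (by omega) (by omega)
      rcases Nat.lt_or_ge y7 l with g7 | g7
      · have B7 := A7 (by omega) (by omega)
        clear A5 A6 A7
        rcases s5 with s5 | s5 <;> rcases s6 with s6 | s6 <;> rcases s7 with s7 | s7 <;> omega
      · clear A5 A6 A7
        rcases s5 with s5 | s5 <;> rcases s6 with s6 | s6 <;> omega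
    · rcases Nat.lt_or_ge y7 l with g7 | g7
      · have B7 := A7 (by omega) (by omega)
        clear A5 A6 A7
        rcases s5 with s5 | s5 <;> rcases s7 with s7 | s7 <;> omega
      · clear A5 A6 A7
        rcases s5 with s5 | s5 <;> omega
  · rcases Nat.lt_or_ge y6 l with g6 | g6
    · have B6 := A6 (by omega) (by omega)
      rcases Nat.lt_or_ge y7 l with g7 | g7
      · have B7 := A7 (by omega) (by omega)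
        clear A5 A6 A7
        rcases s6 with s6 | s6 <;> rcases s7 with s7 | s7 <;> omega
      · clear A5 A6 A7
        rcases s6 with s6 | s6 <;> omega
    · rcases Nat.lt_or_ge y7 l with g7 | g7
      · have B7 := A7 (by omega) (by omega)
        clear A5 A6 A7
        rcases s7 with s7 | s7 <;> omega
      · omega

theorem r_pos (l q x1 x2 r s z za zb m μ v Y M : ℕ) (hq : q = x1 + x2)
    (Q : 1 ≤ q → 1 ≤ s → 1 ≤ M → q + s + M + Y ≤ 2 * l) (hM : r = 0 → M = z)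
    (h2 : 2 ≤ q) (hz : 1 ≤ z) (hm : Fs l r s m) (hv : v ≤ Y) (hμ : Fs l z v μ)
    (hP : Ps l x1 x2 m μ) : 1 ≤ r := by
  by_contra hc
  have r0 : r = 0 := by omega
  subst r0
  obtain ⟨_, m2, m3, m4, m5⟩ := hm
  obtain ⟨_, u2, u3, u4, u5⟩ := hμ
  obtain ⟨_, p2, p3, p4, p5, p6⟩ := hP
  have := hM rfl
  subst this
  have hs : 1 ≤ s := by omega
  have := Q (by omega) hs hz
  omega

theorem s_ge (l q x1 x2 r s z m μ v Y M : ℕ) (hq : q = x1 + x2)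
    (P : 1 ≤ q → 1 ≤ r → 1 ≤ M → q + r + M + Y ≤ 2 * l) (hM : s + z ≤ l → M = s + z)
    (h2 : 2 ≤ q) (hr : 1 ≤ r) (hs : 1 ≤ s) (hm : Fs l r s m) (hv : v ≤ Y) (hμ : Fs l z v μ)
    (hP : Ps l x1 x2 m μ) : l ≤ s + z := by
  by_contra hc
  have e := hM (by omega)
  subst e
  obtain ⟨_, m2, m3, m4, m5⟩ := hm
  obtain ⟨_, u2, u3, u4, u5⟩ := hμ
  obtain ⟨_, p2, p3, p4, p5, p6⟩ := hP
  have := P (by omega) hr (by omega)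
  omega

theorem s_lt (l q x1 x2 r s z m μ v Y M : ℕ) (hq : q = x1 + x2) (hsl : s ≤ l) (hrl : r ≤ l)
    (hzl : z ≤ l)
    (Q : 1 ≤ q → 1 ≤ s → 1 ≤ M → q + s + M + Y ≤ 2 * l) (hM : l ≤ r + z → M + r + z = 2 * l)
    (hrz : l ≤ r + z) (h2 : 2 ≤ q) (hs : 1 ≤ s) (hm : Fs l r s m) (hμl : μ ≤ l)
    (hP : Ps l x1 x2 m μ) : s + 1 ≤ l := by
  by_contra hc
  have e := hM hrz
  obtain ⟨_, m2, m3, m4, m5⟩ := hm
  obtain ⟨_, p2, p3, p4, p5, p6⟩ := hP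
  have hr1 : r + 1 ≤ l := by omega
  have := Q (by omega) hs (by omega)
  omega

theorem C1 (l q r s z5 z6 z7 y5 y6 y7 Y5 Y6 Y7 : ℕ) (zy5 : z5 + y5 = l) (zy6 : z6 + y6 = l)
    (zy7 : z7 + y7 = l)
    (c5 : q + r + Y5 ≤ s + z5) (c6 : q + r + Y6 ≤ s + z6) (c7 : q + r + Y7 ≤ s + z7)
    (d5 : q + s + Y5 ≤ r + z5) (d6 : q + s + Y6 ≤ r + z6) (d7 : q + s + Y7 ≤ r + z7)
    (e5 : Y5 = y6 + y7 ∨ Y5 + y6 + y7 = 2 * l) (e6 : Y6 = y5 + y7 ∨ Y6 + y5 + y7 = 2 * l)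
    (e7 : Y7 = y5 + y6 ∨ Y7 + y5 + y6 = 2 * l) (h2 : 2 ≤ q) :
    q + y5 + y6 + y7 + r ≤ l + s ∧ q + y5 + y6 + y7 + s ≤ l + r := by
  rcases e5 with e5 | e5 <;> rcases e6 with e6 | e6 <;> rcases e7 with e7 | e7 <;>
    constructor <;> omega

/-- The structure theorem. -/
theorem struct7 (l x1 x2 r s z5 z6 z7 y5 y6 y7 : ℕ)
    (lx1 : x1 ≤ l) (lx2 : x2 ≤ l) (zy5 : z5 + y5 = l) (zy6 : z6 + y6 = l) (zy7 : z7 + y7 = l)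
    (o5 : ∀ t κ v, Fs l x1 x2 t → Fs l s z5 κ → Fs l z6 z7 v → ¬ Ps l t r κ v)
    (o6 : ∀ t κ v, Fs l x1 x2 t → Fs l s z6 κ → Fs l z5 z7 v → ¬ Ps l t r κ v)
    (o7 : ∀ t κ v, Fs l x1 x2 t → Fs l s z7 κ → Fs l z5 z6 v → ¬ Ps l t r κ v)
    (p5 : ∀ t κ v, Fs l x1 x2 t → Fs l r z5 κ → Fs l z6 z7 v → ¬ Ps l t s κ v)
    (p6 : ∀ t κ v, Fs l x1 x2 t → Fs l r z6 κ → Fs l z5 z7 v → ¬ Ps l t s κ v)
    (p7 : ∀ t κ v, Fs l x1 x2 t → Fs l r z7 κ → Fs l z5 z6 v → ¬ Ps l t s κ v)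
    (k5 : ∀ m v κ, Fs l r s m → Fs l z6 z7 v → Fs l m v κ → ¬ Ps l x1 x2 κ z5)
    (k6 : ∀ m v κ, Fs l r s m → Fs l z5 z7 v → Fs l m v κ → ¬ Ps l x1 x2 κ z6)
    (k7 : ∀ m v κ, Fs l r s m → Fs l z5 z6 v → Fs l m v κ → ¬ Ps l x1 x2 κ z7)
    (m μ v5 v6 v7 : ℕ) (hm : Fs l r s m) (hP : Ps l x1 x2 m μ)
    (hv5 : Fs l z6 z7 v5) (hμ5 : Fs l z5 v5 μ)
    (hv6 : Fs l z5 z7 v6) (hμ6 : Fs l z6 v6 μ)
    (hv7 : Fs l z5 z6 v7) (hμ7 : Fs l z7 v7 μ) :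
    1 ≤ x1 ∧ 1 ≤ x2 ∧ x1 + x2 + y5 + y6 + y7 + r ≤ l + s ∧ x1 + x2 + y5 + y6 + y7 + s ≤ l + r ∧
      x1 + x2 ≤ y5 + 1 ∧ x1 + x2 ≤ y6 + 1 ∧ x1 + x2 ≤ y7 + 1 := by
  obtain ⟨hx1, hx2, v5p, P5, Q5, K5⟩ := perj l x1 x2 r s z5 z6 z7 o5 p5 k5 lx1 lx2 m μ v5 hm hv5 hμ5 hP
  obtain ⟨_, _, v6p, P6, Q6, K6⟩ := perj l x1 x2 r s z6 z5 z7 o6 p6 k6 lx1 lx2 m μ v6 hm hv6 hμ6 hP
  obtain ⟨_, _, v7p, P7, Q7, K7⟩ := perj l x1 x2 r s z7 z5 z6 o7 p7 k7 lx1 lx2 m μ v7 hm hv7 hμ7 hP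
  clear o5 o6 o7 p5 p6 p7 k5 k6 k7
  have lr := hm.le1
  have ls := hm.le2
  have lz5 : z5 ≤ l := hμ5.le1
  have lz6 : z6 ≤ l := hμ6.le1
  have lz7 : z7 ≤ l := hμ7.le1
  have lμ : μ ≤ l := hμ7.le3
  have hsum : 2 * l + 2 ≤ x1 + x2 + m + μ := hP.2.1
  have A5 : y5 + 1 ≤ l → y5 + 2 ≤ x1 + x2 → (l - ad r s) + (x1 + x2) ≤ ad z6 z7 + y5 := by
    intro g1 g2
    exact Kj2 l x1 x2 r s z5 z6 z7 y5 v5 m μ lr ls lz6 lz7 zy5 (K5 (by omega)) g2 hm hv5 hμ5 hsum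
  have A6 : y6 + 1 ≤ l → y6 + 2 ≤ x1 + x2 → (l - ad r s) + (x1 + x2) ≤ ad z5 z7 + y6 := by
    intro g1 g2
    exact Kj2 l x1 x2 r s z6 z5 z7 y6 v6 m μ lr ls lz5 lz7 zy6 (K6 (by omega)) g2 hm hv6 hμ6 hsum
  have A7 : y7 + 1 ≤ l → y7 + 2 ≤ x1 + x2 → (l - ad r s) + (x1 + x2) ≤ ad z5 z6 + y7 := by
    intro g1 g2
    exact Kj2 l x1 x2 r s z7 z5 z6 y7 v7 m μ lr ls lz5 lz6 zy7 (K7 (by omega)) g2 hm hv7 hμ7 hsum
  clear K5 K6 K7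
  have hne : ¬ (y5 = l ∧ y6 = l ∧ y7 = l) := by
    rintro ⟨h1, h2, h3⟩
    have e5 : z5 = 0 := by omega
    have e6 : z6 = 0 := by omega
    have e7 : z7 = 0 := by omega
    subst e5; subst e6; subst e7
    obtain ⟨_, _, _, _, _⟩ := hv7
    omega
  have s5 := (ad_spec z6 z7).2
  have s6 := (ad_spec z5 z7).2
  have s7 := (ad_spec z5 z6).2
  have hq : x1 + x2 ≤ l := by
    apply S1 l (x1 + x2) (l - ad r s) y5 y6 y7 (ad z6 z7) (ad z5 z7) (ad z5 z6) (by omega)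
      (by omega) (by omega) A5 A6 A7 _ _ _ hne
    · clear A5 A6 A7 P5 P6 P7 Q5 Q6 Q7 s6 s7 hne; omega
    · clear A5 A6 A7 P5 P6 P7 Q5 Q6 Q7 s5 s7 hne; omega
    · clear A5 A6 A7 P5 P6 P7 Q5 Q6 Q7 s5 s6 hne; omega
  have hX : mx l x1 x2 = x1 + x2 := by
    unfold mx; clear A5 A6 A7 P5 P6 P7 Q5 Q6 Q7 s5 s6 s7 hne; omega
  rw [hX] at P5 P6 P7 Q5 Q6 Q7
  have h2 : 2 ≤ x1 + x2 := by omega
  have hV5 := hv5.le_mx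
  have hV6 := hv6.le_mx
  have hV7 := hv7.le_mx
  -- mx specs
  have mxr : ∀ z, z ≤ l → (r = 0 → mx l r z = z) := by
    intro z hz h0; subst h0; unfold mx; omega
  have mxs : ∀ z, z ≤ l → (s = 0 → mx l s z = z) := by
    intro z hz h0; subst h0; unfold mx; omega
  have mle : ∀ a z, a ≤ l → z ≤ l → (a + z ≤ l → mx l a z = a + z) := by
    intro a z ha hz h0; unfold mx; omega
  have mge : ∀ a z, a ≤ l → z ≤ l → (l ≤ a + z → mx l a z + a + z = 2 * l) := by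
    intro a z ha hz h0; unfold mx; omega
  have hzz : 1 ≤ z5 ∨ 1 ≤ z6 ∨ 1 ≤ z7 := by
    clear A5 A6 A7 P5 P6 P7 Q5 Q6 Q7 s5 s6 s7 mxr mxs mle mge
    omega
  have hr : 1 ≤ r := by
    rcases hzz with hz | hz | hz
    · exact r_pos l _ x1 x2 r s z5 z6 z7 m μ v5 _ _ rfl Q5 (mxr z5 lz5) h2 hz hm hV5 hμ5 hP
    · exact r_pos l _ x1 x2 r s z6 z5 z7 m μ v6 _ _ rfl Q6 (mxr z6 lz6) h2 hz hm hV6 hμ6 hP
    · exact r_pos l _ x1 x2 r s z7 z5 z6 m μ v7 _ _ rfl Q7 (mxr z7 lz7) h2 hz hm hV7 hμ7 hP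
  have hs : 1 ≤ s := by
    rcases hzz with hz | hz | hz
    · exact r_pos l _ x1 x2 s r z5 z6 z7 m μ v5 _ _ rfl P5 (mxs z5 lz5) h2 hz hm.s12 hV5 hμ5 hP
    · exact r_pos l _ x1 x2 s r z6 z5 z7 m μ v6 _ _ rfl P6 (mxs z6 lz6) h2 hz hm.s12 hV6 hμ6 hP
    · exact r_pos l _ x1 x2 s r z7 z5 z6 m μ v7 _ _ rfl P7 (mxs z7 lz7) h2 hz hm.s12 hV7 hμ7 hP
  have sz5 := s_ge l _ x1 x2 r s z5 m μ v5 _ _ rfl P5 (mle s z5 ls lz5) h2 hr hs hm hV5 hμ5 hP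
  have sz6 := s_ge l _ x1 x2 r s z6 m μ v6 _ _ rfl P6 (mle s z6 ls lz6) h2 hr hs hm hV6 hμ6 hP
  have sz7 := s_ge l _ x1 x2 r s z7 m μ v7 _ _ rfl P7 (mle s z7 ls lz7) h2 hr hs hm hV7 hμ7 hP
  have rz5 := s_ge l _ x1 x2 s r z5 m μ v5 _ _ rfl Q5 (mle r z5 lr lz5) h2 hs hr hm.s12 hV5 hμ5 hP
  have rz6 := s_ge l _ x1 x2 s r z6 m μ v6 _ _ rfl Q6 (mle r z6 lr lz6) h2 hs hr hm.s12 hV6 hμ6 hP
  have rz7 := s_ge l _ x1 x2 s r z7 m μ v7 _ _ rfl Q7 (mle r z7 lr lz7) h2 hs hr hm.s12 hV7 hμ7 hP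
  have sl := s_lt l _ x1 x2 r s z5 m μ v5 _ _ rfl ls lr lz5 Q5 (mge r z5 lr lz5) rz5 h2 hs hm lμ hP
  have rl := s_lt l _ x1 x2 s r z5 m μ v5 _ _ rfl lr ls lz5 P5 (mge s z5 ls lz5) sz5 h2 hr hm.s12 lμ hP
  have ms5 := mge s z5 ls lz5 sz5
  have ms6 := mge s z6 ls lz6 sz6
  have ms7 := mge s z7 ls lz7 sz7
  have mr5 := mge r z5 lr lz5 rz5
  have mr6 := mge r z6 lr lz6 rz6
  have mr7 := mge r z7 lr lz7 rz7
  have p5 := P5 (by omega) hr (by omega)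
  have p6 := P6 (by omega) hr (by omega)
  have p7 := P7 (by omega) hr (by omega)
  have q5 := Q5 (by omega) hs (by omega)
  have q6 := Q6 (by omega) hs (by omega)
  have q7 := Q7 (by omega) hs (by omega)
  have e5 := (mx_spec l z6 z7 lz6 lz7).2.2
  have e6 := (mx_spec l z5 z7 lz5 lz7).2.2
  have e7 := (mx_spec l z5 z6 lz5 lz6).2.2
  clear P5 P6 P7 Q5 Q6 Q7 mxr mxs mle mge hm hP hv5 hv6 hv7 hμ5 hμ6 hμ7 hzz hne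
  have hC := C1 l (x1 + x2) r s z5 z6 z7 y5 y6 y7 (mx l z6 z7) (mx l z5 z7) (mx l z5 z6) zy5 zy6 zy7
    (by clear A5 A6 A7 s5 s6 s7 e5 e6 e7; omega) (by clear A5 A6 A7 s5 s6 s7 e5 e6 e7; omega)
    (by clear A5 A6 A7 s5 s6 s7 e5 e6 e7; omega) (by clear A5 A6 A7 s5 s6 s7 e5 e6 e7; omega)
    (by clear A5 A6 A7 s5 s6 s7 e5 e6 e7; omega) (by clear A5 A6 A7 s5 s6 s7 e5 e6 e7; omega)
    (by clear A5 A6 A7 s5 s6 s7; omega) (by clear A5 A6 A7 s5 s6 s7; omega)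
    (by clear A5 A6 A7 s5 s6 s7; omega) h2
  obtain ⟨hC1, hC2⟩ := hC
  have ars := (ad_spec r s).2
  clear p5 p6 p7 q5 q6 q7 e5 e6 e7 ms5 ms6 ms7 mr5 mr6 mr7 sz5 sz6 sz7 rz5 rz6 rz7
  refine ⟨hx1, hx2, hC1, hC2, ?_, ?_, ?_⟩
  · by_contra hc
    have := A5 (by omega) (by omega)
    clear A5 A6 A7 s6 s7
    rcases ars with ars | ars <;> rcases s5 with s5 | s5 <;> omega
  · by_contra hc
    have := A6 (by omega) (by omega)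
    clear A5 A6 A7 s5 s7
    rcases ars with ars | ars <;> rcases s6 with s6 | s6 <;> omega
  · by_contra hc
    have := A7 (by omega) (by omega)
    clear A5 A6 A7 s5 s6
    rcases ars with ars | ars <;> rcases s7 with s7 | s7 <;> omega

end Pool.Agent.CBSl2
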