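import Pool.Agent.CBSl2.Ineq6
import Pool.Agent.CBSl2.Struct4

open Finset

namespace Pool.Agent.CBSl2

theorem nuN_pos {l z5 z6 z7 μ : ℕ} (h5 : z5 ≤ l) (h6 : z6 ≤ l) (h7 : z7 ≤ l)
    (h : 1 ≤ nuN l z5 z6 z7 μ) : μ ≤ l ∧ (z6 + z7 + z5 + (l - μ)) % 2 = 0 ∧
    nuN l z5 z6 z7 μ = N4 l z6 z7 z5 (l - μ) := by
  unfold nuN at h ⊢
  by_cases hμ : μ ≤ l
  · rw [if_pos hμ] at h ⊢
    refine ⟨hμ, ?_, rfl⟩
    by_contra hc
    rw [N4_closed l z6 z7 z5 (l - μ) h6 h7 h5 (Nat.sub_le _ _), if_neg hc] at h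
    omega
  · rw [if_neg hμ] at h; omega

theorem nuN_bounds (l z5 z6 z7 y5 y6 y7 μ : ℕ) (h5 : z5 + y5 = l) (h6 : z6 + y6 = l)
    (h7 : z7 + y7 = l) (h : 1 ≤ nuN l z5 z6 z7 μ) :
    nuN l z5 z6 z7 μ ≤ μ + 1 ∧ 2 * nuN l z5 z6 z7 μ + y5 ≤ y6 + y7 + μ + 2 ∧
    2 * nuN l z5 z6 z7 μ + y6 ≤ y5 + y7 + μ + 2 ∧ 2 * nuN l z5 z6 z7 μ + y7 ≤ y5 + y6 + μ + 2 ∧
    (μ + y5 + y6 + y7) % 2 = 0 := by
  obtain ⟨hμ, hp, he⟩ := nuN_pos (by omega) (by omega) (by omega) h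
  rw [he] at h ⊢
  have := (le_N4_iff l z6 z7 z5 (l - μ) _ (by omega) (by omega) (by omega) (Nat.sub_le _ _) hp h).1
    le_rfl
  generalize N4 l z6 z7 z5 (l - μ) = n at *
  obtain ⟨_, _, ⟨_, _, _, k12⟩, ⟨k13, k14, k15, k16⟩⟩ := this
  refine ⟨by omega, by omega, by omega, by omega, ?_⟩
  clear k12 k13 k14 k15 k16 h he
  have e1 : l - μ + μ = l := by omega
  omega

theorem V1_le (l δ x : ℕ) (nu : ℕ → ℕ) : V1 l δ x nu ≤ ∑ μ ∈ range (l + 1),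
      if μ + 1 + δ ≤ x ∧ (x + μ + 1 + δ) % 2 = 0 then nu μ else 0 := by
  unfold V1
  rw [sum_comm]
  apply sum_le_sum; intro μ _
  by_cases hx : μ + 1 ≤ x ∧ x - μ - 1 ≤ l
  · rw [sum_eq_single (x - μ - 1)]
    · rw [if_pos (by omega), mul_one]
      unfold ind
      by_cases hd : δ ≤ x - μ - 1 ∧ (x - μ - 1 + δ) % 2 = 0
      · rw [if_pos hd, one_mul, if_pos]
        obtain ⟨hd1, hd2⟩ := hd
        constructor
        · omega
        · clear hd1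
          have e : x - μ - 1 + μ + 1 = x := by omega
          omega
      · rw [if_neg hd, zero_mul]; exact Nat.zero_le _
    · intro m _ hm
      rw [if_neg (by omega), mul_zero]
    · intro h; exact absurd (mem_range.2 (by omega)) h
  · have : ∑ m ∈ range (l + 1), ind δ m * nu μ * (if m + μ + 1 = x then 1 else 0) = 0 := by
      apply sum_eq_zero; intro m hm
      have := mem_range.1 hm
      rw [if_neg (by omega), mul_zero]
    rw [this]; exact Nat.zero_le _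

theorem Y1_ge (l δ y ya yb x : ℕ) (hl : ∀ c, y + c ≤ ya + yb → x + c ≤ l + 1)
    (hpar : (x + 1 + δ + y + ya + yb) % 2 = 0) :
    (∑ c ∈ range (l + 1), if ad ya yb ≤ y + c ∧ y + c ≤ ya + yb ∧
      (y + ya + yb + c) % 2 = 0 then min c (x + 1 - δ) else 0) ≤ Y1 l δ y ya yb x := by
  unfold Y1
  apply sum_le_sum; intro c _
  split_ifs with h1 h2
  · apply count_ge l x c δ h2.1 (hl c h1.2.1)
    obtain ⟨_, _, h3⟩ := h1
    clear h2 hl
    omega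
  · have : c = 0 := by
      by_contra hc
      exact h2 ⟨by omega, h1.1, h1.2.1, h1.2.2⟩
    subst this
    simp
  · exact Nat.zero_le _
  · exact le_rfl

end Pool.Agent.CBSl2
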