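import Pool.Agent.CBSl2.Main7

open Finset

namespace Pool.Agent.CBSl2

theorem conv_dl_dl_pos {l a b c : ℕ} (ha : a ≤ l) (hb : b ≤ l) :
    0 < conv l (dl a) (dl b) c ↔ Fs l a b c := by
  rw [conv_dl_dl l a b ha hb, fus_pos]

/-- The inequality, given the structure. -/
theorem ineq7 (l a b r s z5 z6 z7 y5 y6 y7 : ℕ) (ha : 1 ≤ a) (hb : 1 ≤ b)
    (hr : r ≤ l) (hs : s ≤ l) (h5 : z5 + y5 = l) (h6 : z6 + y6 = l) (h7 : z7 + y7 = l)
    (C1 : a + b + y5 + y6 + y7 + r ≤ l + s) (C1' : a + b + y5 + y6 + y7 + s ≤ l + r)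
    (c5 : a + b ≤ y5 + 1) (c6 : a + b ≤ y6 + 1) (c7 : a + b ≤ y7 + 1)
    (hpar : (a + b + ad l (r + s) + y5 + y6 + y7) % 2 = 0)
    (hV : 0 < val l (dl a) (dl b) (conv l (dl r) (dl s))
      (conv l (dl z5) (conv l (dl z6) (dl z7)))) :
    3 * val l (dl a) (dl b) (conv l (dl r) (dl s)) (conv l (dl z5) (conv l (dl z6) (dl z7))) <
    val l (dl a) (conv l (dl b) (conv l (dl r) (dl s))) (conv l (dl z6) (dl z7)) (dl z5) +
    val l (dl a) (conv l (dl b) (conv l (dl r) (dl s))) (conv l (dl z5) (dl z7)) (dl z6) +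
    val l (dl a) (conv l (dl b) (conv l (dl r) (dl s))) (conv l (dl z5) (dl z6)) (dl z7) := by
  have hVle := V_le l a b r s z5 z6 z7 (by omega) hr hs (by omega) (by omega) (by omega)
  have g5 := Y_ge l a b r s z5 z6 z7 y5 y6 y7 ha hb hr hs h5 h6 h7 C1 C1' c5
  have g6 := Y_ge l a b r s z6 z5 z7 y6 y5 y7 ha hb hr hs h6 h5 h7 (by omega) (by omega) c6
  have g7 := Y_ge l a b r s z7 z5 z6 y7 y5 y6 ha hb hr hs h7 h5 h6 (by omega) (by omega) c7
  set δ := ad l (r + s) with hδ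
  set nu := nuN l z5 z6 z7 with hnu
  have key : ∀ τ x, wg a τ * fus l τ b x ≠ 0 → τ < a →
      (3 * V1 l δ x nu < Y1 l δ y5 y6 y7 x + Y1 l δ y6 y5 y7 x + Y1 l δ y7 y5 y6 x ∨
        V1 l δ x nu = 0) := by
    intro τ x hne hτ
    have hw : wg a τ ≠ 0 := by rintro h; simp [h] at hne
    have hf : fus l τ b x ≠ 0 := by rintro h; simp [h] at hne
    have hwp : (τ + a) % 2 = 1 := by
      unfold wg at hw
      by_contra hc
      rw [if_neg hc] at hw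
      exact hw rfl
    obtain ⟨_, f1, f2, f3, f4, f5⟩ := fus_one hf
    have hxq : x + 1 ≤ a + b := by omega
    have hparx : (x + 1 + δ + y5 + y6 + y7) % 2 = 0 := by
      clear hVle g5 g6 g7 f2 f3 f4 f5 C1 C1' c5 c6 c7
      omega
    apply core_sym l x δ (a + b) y5 y6 y7 (V1 l δ x nu) _ _ _ nu hxq c5 c6 c7 (by omega)
      (by omega) (by omega) (by omega) (V1_le l δ x nu)
    · intro μ
      by_cases h : 1 ≤ nu μ
      · exact (nuN_bounds l z5 z6 z7 y5 y6 y7 μ h5 h6 h7 h).1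
      · omega
    · intro μ h; exact (nuN_bounds l z5 z6 z7 y5 y6 y7 μ h5 h6 h7 h).2.1
    · intro μ h; exact (nuN_bounds l z5 z6 z7 y5 y6 y7 μ h5 h6 h7 h).2.2.1
    · intro μ h; exact (nuN_bounds l z5 z6 z7 y5 y6 y7 μ h5 h6 h7 h).2.2.2.1
    · intro μ h; exact (nuN_bounds l z5 z6 z7 y5 y6 y7 μ h5 h6 h7 h).2.2.2.2
    · exact Y1_ge l δ y5 y6 y7 x (by intro c hc; omega) hparx
    · have := Y1_ge l δ y6 y5 y7 x (by intro c hc; omega)
        (by rw [← hparx]; congr 1; ring)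
      rw [show y6 + y5 + y7 = y5 + y6 + y7 by ring] at this
      exact this
    · have := Y1_ge l δ y7 y5 y6 x (by intro c hc; omega)
        (by rw [← hparx]; congr 1; ring)
      rw [show y7 + y5 + y6 = y5 + y6 + y7 by ring] at this
      exact this
  -- sums
  have hsum : 3 * ∑ τ ∈ range a, ∑ x ∈ range (l + 1), wg a τ * fus l τ b x * V1 l δ x nu <
      ∑ τ ∈ range a, ∑ x ∈ range (l + 1), wg a τ * fus l τ b x *
        (Y1 l δ y5 y6 y7 x + Y1 l δ y6 y5 y7 x + Y1 l δ y7 y5 y6 x) := by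
    have hpos := hV.trans_le hVle
    rw [sum_pos_iff] at hpos
    obtain ⟨τ0, hτ0, hpos⟩ := hpos
    rw [sum_pos_iff] at hpos
    obtain ⟨x0, hx0, hpos⟩ := hpos
    have hle : ∀ τ ∈ range a, ∀ x ∈ range (l + 1), 3 * (wg a τ * fus l τ b x * V1 l δ x nu) ≤
        wg a τ * fus l τ b x *
        (Y1 l δ y5 y6 y7 x + Y1 l δ y6 y5 y7 x + Y1 l δ y7 y5 y6 x) := by
      intro τ hτ x hx
      by_cases hne : wg a τ * fus l τ b x ≠ 0
      · rcases key τ x hne (mem_range.1 hτ) with h | h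
        · rw [mul_left_comm]
          exact Nat.mul_le_mul_left _ h.le
        · rw [h]; simp
      · push Not at hne
        rw [hne]; simp
    rw [mul_sum]
    apply sum_lt_sum
    · intro τ hτ
      rw [mul_sum]
      exact sum_le_sum (hle τ hτ)
    · refine ⟨τ0, hτ0, ?_⟩
      rw [mul_sum]
      apply sum_lt_sum (hle τ0 hτ0)
      refine ⟨x0, hx0, ?_⟩
      have hne : wg a τ0 * fus l τ0 b x0 ≠ 0 := by rintro h; simp [h] at hpos
      have hV0 : V1 l δ x0 nu ≠ 0 := by rintro h; simp [h] at hpos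
      rcases key τ0 x0 hne (mem_range.1 hτ0) with h | h
      · rw [mul_left_comm]
        exact Nat.mul_lt_mul_of_pos_left h (Nat.pos_of_ne_zero hne)
      · exact absurd h hV0
  simp only [mul_add, sum_add_distrib] at hsum
  omega

/-- The seven point theorem. -/
theorem main7 (l a b r s z5 z6 z7 : ℕ) (ha : a ≤ l) (hb : b ≤ l)
    (hr : r ≤ l) (hs : s ≤ l) (h5 : z5 ≤ l) (h6 : z6 ≤ l) (h7 : z7 ≤ l)
    (o5 : val l (conv l (dl a) (dl b)) (dl r) (conv l (dl s) (dl z5)) (conv l (dl z6) (dl z7)) = 0)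
    (o6 : val l (conv l (dl a) (dl b)) (dl r) (conv l (dl s) (dl z6)) (conv l (dl z5) (dl z7)) = 0)
    (o7 : val l (conv l (dl a) (dl b)) (dl r) (conv l (dl s) (dl z7)) (conv l (dl z5) (dl z6)) = 0)
    (p5 : val l (conv l (dl a) (dl b)) (dl s) (conv l (dl r) (dl z5)) (conv l (dl z6) (dl z7)) = 0)
    (p6 : val l (conv l (dl a) (dl b)) (dl s) (conv l (dl r) (dl z6)) (conv l (dl z5) (dl z7)) = 0)
    (p7 : val l (conv l (dl a) (dl b)) (dl s) (conv l (dl r) (dl z7)) (conv l (dl z5) (dl z6)) = 0)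
    (k5 : val l (dl a) (dl b) (conv l (conv l (dl r) (dl s)) (conv l (dl z6) (dl z7))) (dl z5) = 0)
    (k6 : val l (dl a) (dl b) (conv l (conv l (dl r) (dl s)) (conv l (dl z5) (dl z7))) (dl z6) = 0)
    (k7 : val l (dl a) (dl b) (conv l (conv l (dl r) (dl s)) (conv l (dl z5) (dl z6))) (dl z7) = 0)
    (hV : 0 < val l (dl a) (dl b) (conv l (dl r) (dl s))
      (conv l (dl z5) (conv l (dl z6) (dl z7)))) :
    3 * val l (dl a) (dl b) (conv l (dl r) (dl s)) (conv l (dl z5) (conv l (dl z6) (dl z7))) <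
    val l (dl a) (conv l (dl b) (conv l (dl r) (dl s))) (conv l (dl z6) (dl z7)) (dl z5) +
    val l (dl a) (conv l (dl b) (conv l (dl r) (dl s))) (conv l (dl z5) (dl z7)) (dl z6) +
    val l (dl a) (conv l (dl b) (conv l (dl r) (dl s))) (conv l (dl z5) (dl z6)) (dl z7) := by
  have dlp : ∀ c, 0 < dl c c := by intro c; simp [dl]
  have dle : ∀ c x, 0 < dl c x → x = c := by
    intro c x h
    unfold dl at h
    by_contra hc
    rw [if_neg hc] at h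
    omega
  have O : ∀ w z za zb r, w ≤ l → z ≤ l → za ≤ l → zb ≤ l → r ≤ l →
      val l (conv l (dl a) (dl b)) (dl r) (conv l (dl w) (dl z)) (conv l (dl za) (dl zb)) = 0 →
      ∀ t κ v, Fs l a b t → Fs l w z κ → Fs l za zb v → ¬ Ps l t r κ v := by
    intro w z za zb r hw hz hza hzb hr h0 t κ v ht hκ hv
    exact val_zero h0 ht.le3 hr hκ.le3 hv.le3 ((conv_dl_dl_pos ha hb).2 ht) (dlp r)
      ((conv_dl_dl_pos hw hz).2 hκ) ((conv_dl_dl_pos hza hzb).2 hv)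
  have K : ∀ z za zb, z ≤ l → za ≤ l → zb ≤ l →
      val l (dl a) (dl b) (conv l (conv l (dl r) (dl s)) (conv l (dl za) (dl zb))) (dl z) = 0 →
      ∀ m v κ, Fs l r s m → Fs l za zb v → Fs l m v κ → ¬ Ps l a b κ z := by
    intro z za zb hz hza hzb h0 m v κ hm hv hκ
    apply val_zero h0 ha hb hκ.le3 hz (dlp a) (dlp b) _ (dlp z)
    unfold conv
    rw [sum_pos_iff]
    refine ⟨m, mem_range.2 (by have := hm.le3; omega), ?_⟩
    rw [sum_pos_iff]
    refine ⟨v, mem_range.2 (by have := hv.le3; omega), ?_⟩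
    have q1 := (conv_dl_dl_pos hr hs).2 hm
    have q2 := (conv_dl_dl_pos hza hzb).2 hv
    have q3 := (fus_pos l m v κ).2 hκ
    unfold conv at q1 q2
    positivity
  have hV' := hV
  rw [val_pos_iff] at hV'
  obtain ⟨a', b', m, μ, _, _, hm, hμ, ea, eb, em, eμ, hP⟩ := hV'
  have := dle a a' ea; subst this
  have := dle b b' eb; subst this
  rw [conv_dl_dl_pos hr hs] at em
  rw [conv3 l z5 z6 z7 h5 h6 h7] at eμ
  have eμ6 : 0 < N4 l z5 z7 z6 μ := by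
    rw [N4_swap23, N4_swap12, N4_swap23]; exact eμ
  have eμ7 : 0 < N4 l z5 z6 z7 μ := by
    rw [N4_swap12, N4_swap23]; exact eμ
  obtain ⟨v5, hv5, hμ5⟩ := (N4_pos_iff _ _ _ _ _).1 eμ
  obtain ⟨v6, hv6, hμ6⟩ := (N4_pos_iff _ _ _ _ _).1 eμ6
  obtain ⟨v7, hv7, hμ7⟩ := (N4_pos_iff _ _ _ _ _).1 eμ7
  obtain ⟨y5, hy5⟩ : ∃ y, z5 + y = l := ⟨l - z5, by omega⟩
  obtain ⟨y6, hy6⟩ : ∃ y, z6 + y = l := ⟨l - z6, by omega⟩
  obtain ⟨y7, hy7⟩ : ∃ y, z7 + y = l := ⟨l - z7, by omega⟩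
  obtain ⟨s1, s2, s3, s4, s5, s6, s7⟩ := struct7 l a' b' r s z5 z6 z7 y5 y6 y7 ha hb hy5 hy6 hy7
    (O s z5 z6 z7 r hs h5 h6 h7 hr o5) (O s z6 z5 z7 r hs h6 h5 h7 hr o6)
    (O s z7 z5 z6 r hs h7 h5 h6 hr o7)
    (O r z5 z6 z7 s hr h5 h6 h7 hs p5) (O r z6 z5 z7 s hr h6 h5 h7 hs p6)
    (O r z7 z5 z6 s hr h7 h5 h6 hs p7)
    (K z5 z6 z7 h5 h6 h7 k5) (K z6 z5 z7 h6 h5 h7 k6) (K z7 z5 z6 h7 h5 h6 k7)
    m μ v5 v6 v7 em hP hv5 hμ5.s12 hv6 hμ6.s12 hv7 hμ7.s12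
  refine ineq7 l a' b' r s z5 z6 z7 y5 y6 y7 s1 s2 hr hs hy5 hy6 hy7 s3 s4 s5 s6 s7 ?_ hV
  -- parity
  have g1 := hP.1
  have g2 := em.1
  have g3 := hv5.1
  have g4 := hμ5.1
  have g5 : (ad l (r + s) + l + (r + s)) % 2 = 0 := by
    have := (ad_spec l (r + s)).2
    clear * - this
    rcases this with h | h <;> omega
  clear * - g1 g2 g3 g4 g5 hy5 hy6 hy7
  omega

end Pool.Agent.CBSl2
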