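import Pool.Agent.CBSl2.Deg

open Finset

namespace Pool.Agent.CBSl2

theorem conv_gt (l : ℕ) (u v : ℕ → ℕ) (c : ℕ) (h : l < c) : conv l u v c = 0 := by
  unfold conv
  apply sum_eq_zero; intro a _
  apply sum_eq_zero; intro b _
  rw [fus_gt l a b c (by omega), mul_zero]

theorem conv_dl_left (l a : ℕ) (ha : a ≤ l) (v : ℕ → ℕ) (c : ℕ) :
    conv l (dl a) v c = ∑ b ∈ range (l + 1), v b * fus l a b c := by
  unfold conv
  rw [sum_eq_single a]
  · apply sum_congr rfl; intro b _; simp [dl]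
  · intro x _ hx
    apply sum_eq_zero; intro b _
    simp [dl, hx]
  · intro h
    exact absurd (mem_range.2 (by omega)) h

theorem conv_dl_dl (l a b : ℕ) (ha : a ≤ l) (hb : b ≤ l) (c : ℕ) :
    conv l (dl a) (dl b) c = fus l a b c := by
  rw [conv_dl_left l a ha, sum_eq_single b]
  · simp [dl]
  · intro x _ hx; simp [dl, hx]
  · intro h
    exact absurd (mem_range.2 (by omega)) h

theorem conv_unit (l : ℕ) (v : ℕ → ℕ) (hv : ∀ c, l < c → v c = 0) : conv l (dl 0) v = v := by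
  funext c
  rw [conv_dl_left l 0 (Nat.zero_le l)]
  by_cases hc : c ≤ l
  · rw [sum_eq_single c]
    · rw [fus_zero_left l c c hc]; simp
    · intro b hb hbc
      have : b ≤ l := by have := mem_range.1 hb; omega
      rw [fus_zero_left l b c this, if_neg (Ne.symm hbc), mul_zero]
    · intro h
      exact absurd (mem_range.2 (by omega)) h
  · rw [hv c (by omega)]
    apply sum_eq_zero; intro b _
    rw [fus_gt l 0 b c (by omega), mul_zero]

section
variable {n : ℕ} (l : ℕ) (lam : Fin n → ℕ)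

theorem rk_eq_fold (A : Finset (Fin n)) :
    rk l lam A = A.fold (conv l) (dl 0) (fun i => dl (lam i)) := by
  unfold rk
  rw [Finset.fold, ← A.sort_eq (· ≤ ·), Multiset.map_coe, Multiset.coe_fold_r, List.foldr_map]

theorem rk_empty : rk l lam ∅ = dl 0 := by
  rw [rk_eq_fold, Finset.fold_empty]

theorem rk_insert (i : Fin n) (A : Finset (Fin n)) (h : i ∉ A) :
    rk l lam (insert i A) = conv l (dl (lam i)) (rk l lam A) := by
  rw [rk_eq_fold, Finset.fold_insert h, rk_eq_fold]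

theorem rk_gt (A : Finset (Fin n)) (c : ℕ) (h : l < c) : rk l lam A c = 0 := by
  induction A using Finset.induction_on with
  | empty => rw [rk_empty]; simp [dl]; omega
  | insert i A hi _ => rw [rk_insert l lam i A hi]; exact conv_gt _ _ _ _ h

theorem rk_union (A B : Finset (Fin n)) (h : Disjoint A B) :
    rk l lam (A ∪ B) = conv l (rk l lam A) (rk l lam B) := by
  induction A using Finset.induction_on with
  | empty =>
    rw [empty_union, rk_empty, conv_unit l _ (fun c hc => rk_gt l lam B c hc)]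
  | insert i A hi ih =>
    have h1 : i ∉ B := by
      have := Finset.disjoint_left.1 h (mem_insert_self i A); exact this
    have h2 : Disjoint A B := h.mono_left (subset_insert i A)
    rw [insert_union, rk_insert l lam i _ (by simp [hi, h1]), ih h2, rk_insert l lam i A hi,
      conv_assoc]

theorem rk_singleton (i : Fin n) (hi : lam i ≤ l) : rk l lam {i} = dl (lam i) := by
  have : ({i} : Finset (Fin n)) = insert i ∅ := rfl
  rw [this, rk_insert l lam i ∅ (by simp), rk_empty, conv_comm, conv_unit]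
  intro c hc
  simp [dl]; omega

end

/-- the value of an F-curve in terms of the rank vectors of its four blocks -/
def val (l : ℕ) (u0 u1 u2 u3 : ℕ → ℕ) : ℕ :=
  ∑ a ∈ range (l + 1), ∑ b ∈ range (l + 1), ∑ c ∈ range (l + 1), ∑ d ∈ range (l + 1),
    u0 a * u1 b * u2 c * u3 d * E4 l a b c d

section
variable (l : ℕ) (u0 u1 u2 u3 : ℕ → ℕ)

theorem single_term (u0 u1 u2 u3 : ℕ → ℕ) (g : ℕ → ℝ) :
    ∑ m ∈ range (l + 1), g m * ((u3 m : ℝ) * (conv l (conv l u0 u1) u2 m : ℝ)) =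
    ∑ a ∈ range (l + 1), ∑ b ∈ range (l + 1), ∑ c ∈ range (l + 1), ∑ d ∈ range (l + 1),
      (u0 a * u1 b * u2 c * u3 d : ℝ) * (g d * (N4 l a b c d : ℝ)) := by
  calc ∑ m ∈ range (l + 1), g m * ((u3 m : ℝ) * (conv l (conv l u0 u1) u2 m : ℝ))
      = ∑ d ∈ range (l + 1), ∑ a ∈ range (l + 1), ∑ b ∈ range (l + 1), ∑ c ∈ range (l + 1),
        (u0 a * u1 b * u2 c * u3 d : ℝ) * (g d * (N4 l a b c d : ℝ)) := by
        apply sum_congr rfl; intro d _
        rw [conv_conv]
        push_cast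
        simp only [mul_sum]
        apply sum_congr rfl; intro a _
        apply sum_congr rfl; intro b _
        apply sum_congr rfl; intro c _
        ring
    _ = _ := by
        rw [sum_comm]; apply sum_congr rfl; intro a _
        rw [sum_comm]; apply sum_congr rfl; intro b _
        rw [sum_comm]

theorem conv_cast (l : ℕ) (u v : ℕ → ℕ) (m : ℕ) : (conv l u v m : ℝ) =
    ∑ a ∈ range (l + 1), ∑ b ∈ range (l + 1), (u a : ℝ) * (v b : ℝ) * (fus l a b m : ℝ) := by
  unfold conv; push_cast; rfl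

theorem pair_term (u0 u1 u2 u3 : ℕ → ℕ) (g : ℕ → ℝ) :
    ∑ m ∈ range (l + 1), g m * ((conv l u0 u1 m : ℝ) * (conv l u2 u3 m : ℝ)) =
    ∑ a ∈ range (l + 1), ∑ b ∈ range (l + 1), ∑ c ∈ range (l + 1), ∑ d ∈ range (l + 1),
      (u0 a * u1 b * u2 c * u3 d : ℝ) *
        ∑ t ∈ range (l + 1), g t * ((fus l a b t * fus l t c d : ℕ) : ℝ) := by
  calc ∑ m ∈ range (l + 1), g m * ((conv l u0 u1 m : ℝ) * (conv l u2 u3 m : ℝ))
      = ∑ m ∈ range (l + 1), ∑ a ∈ range (l + 1), ∑ b ∈ range (l + 1), ∑ c ∈ range (l + 1),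
        ∑ d ∈ range (l + 1), (u0 a * u1 b * u2 c * u3 d : ℝ) *
          (g m * ((fus l a b m * fus l m c d : ℕ) : ℝ)) := by
        apply sum_congr rfl; intro m _
        rw [conv_cast l u0 u1, sum_mul, mul_sum]
        apply sum_congr rfl; intro a _
        rw [sum_mul, mul_sum]
        apply sum_congr rfl; intro b _
        rw [conv_cast l u2 u3, mul_sum, mul_sum]
        apply sum_congr rfl; intro c _
        rw [mul_sum, mul_sum]
        apply sum_congr rfl; intro d _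
        have e : fus l c d m = fus l m c d := by rw [fus_swap23, fus_swap12]
        rw [e]
        push_cast
        ring
    _ = _ := by
        rw [sum_comm]; apply sum_congr rfl; intro a _
        rw [sum_comm]; apply sum_congr rfl; intro b _
        rw [sum_comm]; apply sum_congr rfl; intro c _
        rw [sum_comm]; apply sum_congr rfl; intro d _
        rw [mul_sum]

theorem comm_bacd (f : ℕ → ℕ → ℕ → ℕ → ℝ) (s : Finset ℕ) :
    ∑ b ∈ s, ∑ a ∈ s, ∑ c ∈ s, ∑ d ∈ s, f a b c d = ∑ a ∈ s, ∑ b ∈ s, ∑ c ∈ s, ∑ d ∈ s, f a b c d :=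
  sum_comm

theorem comm_acbd (f : ℕ → ℕ → ℕ → ℕ → ℝ) (s : Finset ℕ) :
    ∑ a ∈ s, ∑ c ∈ s, ∑ b ∈ s, ∑ d ∈ s, f a b c d = ∑ a ∈ s, ∑ b ∈ s, ∑ c ∈ s, ∑ d ∈ s, f a b c d := by
  apply sum_congr rfl; intro a _; exact sum_comm

theorem comm_abdc (f : ℕ → ℕ → ℕ → ℕ → ℝ) (s : Finset ℕ) :
    ∑ a ∈ s, ∑ b ∈ s, ∑ d ∈ s, ∑ c ∈ s, f a b c d = ∑ a ∈ s, ∑ b ∈ s, ∑ c ∈ s, ∑ d ∈ s, f a b c d := by
  apply sum_congr rfl; intro a _; apply sum_congr rfl; intro b _; exact sum_comm

theorem val_formula :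
    (∑ m ∈ range (l + 1), Delta l m * ((u0 m : ℝ) * (conv l (conv l u1 u2) u3 m : ℝ))
    + ∑ m ∈ range (l + 1), Delta l m * ((u1 m : ℝ) * (conv l (conv l u0 u2) u3 m : ℝ))
    + ∑ m ∈ range (l + 1), Delta l m * ((u2 m : ℝ) * (conv l (conv l u0 u1) u3 m : ℝ))
    + ∑ m ∈ range (l + 1), Delta l m * ((u3 m : ℝ) * (conv l (conv l u0 u1) u2 m : ℝ)))
    - (∑ m ∈ range (l + 1), Delta l m * ((conv l u0 u1 m : ℝ) * (conv l u2 u3 m : ℝ))
    + ∑ m ∈ range (l + 1), Delta l m * ((conv l u0 u2 m : ℝ) * (conv l u1 u3 m : ℝ))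
    + ∑ m ∈ range (l + 1), Delta l m * ((conv l u0 u3 m : ℝ) * (conv l u1 u2 m : ℝ)))
    = (val l u0 u1 u2 u3 : ℝ) := by
  have t1 : ∑ m ∈ range (l + 1), Delta l m * ((u0 m : ℝ) * (conv l (conv l u1 u2) u3 m : ℝ))
      = ∑ a ∈ range (l + 1), ∑ b ∈ range (l + 1), ∑ c ∈ range (l + 1), ∑ d ∈ range (l + 1),
      (u0 a * u1 b * u2 c * u3 d : ℝ) * (Delta l a * (N4 l a b c d : ℝ)) := by
    rw [single_term l u1 u2 u3 u0 (Delta l)]
    symm
    rw [sum_comm]
    apply sum_congr rfl; intro b _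
    rw [sum_comm]
    apply sum_congr rfl; intro c _
    rw [sum_comm]
    apply sum_congr rfl; intro d _
    apply sum_congr rfl; intro a _
    have e : N4 l b c d a = N4 l a b c d := by
      rw [N4_swap34 l b c d a, N4_swap23 l b c a d, N4_swap12 l b a c d]
    rw [e]; ring
  have t2 : ∑ m ∈ range (l + 1), Delta l m * ((u1 m : ℝ) * (conv l (conv l u0 u2) u3 m : ℝ))
      = ∑ a ∈ range (l + 1), ∑ b ∈ range (l + 1), ∑ c ∈ range (l + 1), ∑ d ∈ range (l + 1),
      (u0 a * u1 b * u2 c * u3 d : ℝ) * (Delta l b * (N4 l a b c d : ℝ)) := by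
    rw [single_term l u0 u2 u3 u1 (Delta l)]
    apply sum_congr rfl; intro a _
    symm
    rw [sum_comm]
    apply sum_congr rfl; intro c _
    rw [sum_comm]
    apply sum_congr rfl; intro d _
    apply sum_congr rfl; intro b _
    have e : N4 l a c d b = N4 l a b c d := by
      rw [N4_swap34 l a c d b, N4_swap23 l a c b d]
    rw [e]; ring
  have t3 : ∑ m ∈ range (l + 1), Delta l m * ((u2 m : ℝ) * (conv l (conv l u0 u1) u3 m : ℝ))
      = ∑ a ∈ range (l + 1), ∑ b ∈ range (l + 1), ∑ c ∈ range (l + 1), ∑ d ∈ range (l + 1),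
      (u0 a * u1 b * u2 c * u3 d : ℝ) * (Delta l c * (N4 l a b c d : ℝ)) := by
    rw [single_term l u0 u1 u3 u2 (Delta l)]
    apply sum_congr rfl; intro a _
    apply sum_congr rfl; intro b _
    rw [sum_comm]
    apply sum_congr rfl; intro c _
    apply sum_congr rfl; intro d _
    have e : N4 l a b d c = N4 l a b c d := by
      rw [N4_swap34 l a b d c]
    rw [e]; ring
  have t4 := single_term l u0 u1 u2 u3 (Delta l)
  have p1 := pair_term l u0 u1 u2 u3 (Delta l)
  have p2 : ∑ m ∈ range (l + 1), Delta l m * ((conv l u0 u2 m : ℝ) * (conv l u1 u3 m : ℝ))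
      = ∑ a ∈ range (l + 1), ∑ b ∈ range (l + 1), ∑ c ∈ range (l + 1), ∑ d ∈ range (l + 1),
      (u0 a * u1 b * u2 c * u3 d : ℝ) *
        ∑ t ∈ range (l + 1), Delta l t * ((fus l a c t * fus l t b d : ℕ) : ℝ) := by
    rw [pair_term l u0 u2 u1 u3 (Delta l)]
    apply sum_congr rfl; intro a _
    rw [sum_comm]
    apply sum_congr rfl; intro b _
    apply sum_congr rfl; intro c _
    apply sum_congr rfl; intro d _
    ring
  have p3 : ∑ m ∈ range (l + 1), Delta l m * ((conv l u0 u3 m : ℝ) * (conv l u1 u2 m : ℝ))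
      = ∑ a ∈ range (l + 1), ∑ b ∈ range (l + 1), ∑ c ∈ range (l + 1), ∑ d ∈ range (l + 1),
      (u0 a * u1 b * u2 c * u3 d : ℝ) *
        ∑ t ∈ range (l + 1), Delta l t * ((fus l a d t * fus l t b c : ℕ) : ℝ) := by
    rw [pair_term l u0 u3 u1 u2 (Delta l)]
    apply sum_congr rfl; intro a _
    -- d b c
    rw [sum_comm]
    apply sum_congr rfl; intro b _
    rw [sum_comm]
    apply sum_congr rfl; intro c _
    apply sum_congr rfl; intro d _
    ring
  rw [t1, t2, t3, t4, p1, p2, p3]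
  have hv : (val l u0 u1 u2 u3 : ℝ) = ∑ a ∈ range (l + 1), ∑ b ∈ range (l + 1),
      ∑ c ∈ range (l + 1), ∑ d ∈ range (l + 1),
      (u0 a * u1 b * u2 c * u3 d : ℝ) * c1deg l a b c d := by
    unfold val
    push_cast
    apply sum_congr rfl; intro a ha
    apply sum_congr rfl; intro b hb
    apply sum_congr rfl; intro c hc
    apply sum_congr rfl; intro d hd
    rw [← c1deg_eq_E4 l a b c d (by have := mem_range.1 ha; omega)
      (by have := mem_range.1 hb; omega)
      (by have := mem_range.1 hc; omega) (by have := mem_range.1 hd; omega)]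
  rw [hv]
  have e : ∀ a b c d, (u0 a * u1 b * u2 c * u3 d : ℝ) * c1deg l a b c d =
      (u0 a * u1 b * u2 c * u3 d : ℝ) * (Delta l a * (N4 l a b c d : ℝ)) +
      (u0 a * u1 b * u2 c * u3 d : ℝ) * (Delta l b * (N4 l a b c d : ℝ)) +
      (u0 a * u1 b * u2 c * u3 d : ℝ) * (Delta l c * (N4 l a b c d : ℝ)) +
      (u0 a * u1 b * u2 c * u3 d : ℝ) * (Delta l d * (N4 l a b c d : ℝ)) -
      ((u0 a * u1 b * u2 c * u3 d : ℝ) *
        ∑ t ∈ range (l + 1), Delta l t * ((fus l a b t * fus l t c d : ℕ) : ℝ) +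
      (u0 a * u1 b * u2 c * u3 d : ℝ) *
        ∑ t ∈ range (l + 1), Delta l t * ((fus l a c t * fus l t b d : ℕ) : ℝ) +
      (u0 a * u1 b * u2 c * u3 d : ℝ) *
        ∑ t ∈ range (l + 1), Delta l t * ((fus l a d t * fus l t b c : ℕ) : ℝ)) := by
    intro a b c d
    unfold c1deg
    ring
  simp only [e, sum_add_distrib, sum_sub_distrib]

end

end Pool.Agent.CBSl2
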