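import Pool.Agent.CBSl2.Arith2

open Finset

namespace Pool.Agent.CBSl2

/-- Consequence of the vanishing on `[12|3|4j|ab]`. -/
theorem Pj (l x1 x2 r s z za zb : ℕ)
    (t p κ v : ℕ) (ht : Fs l x1 x2 t) (hp1 : Fs l t r p) (hκ : Fs l s z κ) (hv : Fs l za zb v)
    (hp2 : Fs l p κ v)
    (h : ∀ t κ v, Fs l x1 x2 t → Fs l s z κ → Fs l za zb v → ¬ Ps l t r κ v)
    (hX : 1 ≤ mx l x1 x2) (hr : 1 ≤ r) (hS : 1 ≤ mx l s z) (hY : 1 ≤ mx l za zb) :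
    mx l x1 x2 + r + mx l s z + mx l za zb ≤ 2 * l := by
  have X1 := ht.le_mx
  have X2 := mx_par l x1 x2 ht.le1 ht.le2
  have X3 := (mx_spec l x1 x2 ht.le1 ht.le2)
  have S1 := hκ.le_mx
  have S2 := mx_par l s z hκ.le1 hκ.le2
  have S3 := (mx_spec l s z hκ.le1 hκ.le2)
  have V1 := hv.le_mx
  have V2 := mx_par l za zb hv.le1 hv.le2
  have V3 := (mx_spec l za zb hv.le1 hv.le2)
  have lX : mx l x1 x2 ≤ l := by omega
  have lS : mx l s z ≤ l := by omega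
  have lV : mx l za zb ≤ l := by omega
  have lr : r ≤ l := hp1.le2
  obtain ⟨i, hi⟩ : ∃ i, mx l x1 x2 = t + 2 * i := ⟨(mx l x1 x2 - t) / 2, by
    have := ht.1; clear hp1 hκ hv hp2 S1 S2 S3 V1 V2 V3 X3; omega⟩
  obtain ⟨k, hk⟩ : ∃ k, mx l s z = κ + 2 * k := ⟨(mx l s z - κ) / 2, by
    have := hκ.1; clear hp1 hv hp2 X1 X2 X3 V1 V2 V3 S3; omega⟩
  obtain ⟨m, hm⟩ : ∃ m, mx l za zb = v + 2 * m := ⟨(mx l za zb - v) / 2, by
    have := hv.1; clear hp1 hp2 X1 X2 X3 S1 S2 S3 V3; omega⟩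
  obtain ⟨w, hw⟩ : ∃ w, t + r + κ + v = 2 * w := ⟨(t + r + κ + v) / 2, by
    have h1 := hp1.1; have h2 := hp2.1
    clear X1 X2 X3 S1 S2 S3 V1 V2 V3 hi hk hm; omega⟩
  clear X2 X3 S2 S3 V2 V3
  by_contra hcon
  obtain ⟨a1, a2, a3, a4, a5⟩ := hp1
  obtain ⟨b1, b2, b3, b4, b5⟩ := hp2
  obtain ⟨i', j', k', m', q1, q2, q3, q4, q5⟩ := gcl l t r κ v i 0 k m w (by omega) (by omega)
    (by omega) (by omega) (by omega) (by omega) (by omega) (by omega) hw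
    (by omega) (by omega) (by omega) (by omega) (by omega) (by omega) (by omega) (by omega)
    (by omega)
  have j0 : j' = 0 := by omega
  subst j0
  refine h (t + 2 * i') (κ + 2 * k') (v + 2 * m') (ht.up (by omega) (by omega) (by omega))
    (hκ.up (by omega) (by omega) (by omega)) (hv.up (by omega) (by omega) (by omega)) ?_
  simpa using q5

/-- the support of `{34ab}` climbs in steps of two -/
theorem climb (l r s za zb m0 v0 k0 m v k : ℕ) (h1 : Fs l r s m0) (h2 : Fs l za zb v0)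
    (h3 : Fs l m0 v0 k0) (h4 : Fs l r s m) (h5 : Fs l za zb v) (h6 : Fs l m v k) :
    ∀ n, k0 + 2 * n ≤ k → ∃ m' v', Fs l r s m' ∧ Fs l za zb v' ∧ Fs l m' v' (k0 + 2 * n) := by
  intro n
  induction n with
  | zero => intro _; exact ⟨m0, v0, h1, h2, by simpa using h3⟩
  | succ n ih =>
    intro hn
    obtain ⟨m', v', g1, g2, g3⟩ := ih (by omega)
    obtain ⟨m'', v'', e1, e2, e3⟩ := conn l r s za zb m' v' (k0 + 2 * n) m v k g1 g2 g3 h4 h5 h6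
      (by omega)
    exact ⟨m'', v'', e1, e2, e3⟩

/-- Consequence of the vanishing on `[1|2|34ab|j]`. -/
theorem Kj (l x1 x2 r s z za zb : ℕ)
    (t m0 v0 κ0 : ℕ) (ht : Fs l x1 x2 t) (h1 : Fs l r s m0) (h2 : Fs l za zb v0)
    (h3 : Fs l m0 v0 κ0) (h4 : Fs l κ0 t z)
    (h : ∀ m v κ, Fs l r s m → Fs l za zb v → Fs l m v κ → ¬ Ps l x1 x2 κ z)
    (hx1 : 1 ≤ x1) (hx2 : 1 ≤ x2) (hz : 1 ≤ z) :
    ∀ m v κ, Fs l r s m → Fs l za zb v → Fs l m v κ → x1 + x2 + κ + z ≤ 2 * l := by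
  intro m v κ g1 g2 g3
  by_contra hcon
  have par1 : (κ + κ0) % 2 = 0 := by
    have e1 := h1.1; have e2 := h2.1; have e3 := h3.1; have e4 := g1.1; have e5 := g2.1
    have e6 := g3.1
    clear hcon ht h1 h2 h3 h4 g1 g2 g3 h hx1 hx2 hz
    omega
  have par0 : (x1 + x2 + κ0 + z) % 2 = 0 := by
    have e1 := ht.1; have e2 := h4.1
    clear hcon ht h1 h2 h3 h4 g1 g2 g3 h hx1 hx2 hz par1
    omega
  have hns := h m0 v0 κ0 h1 h2 h3
  have hsm : x1 + x2 + κ0 + z ≤ 2 * l := by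
    by_contra hc2
    apply hns
    obtain ⟨a1, a2, a3, a4, a5⟩ := ht
    obtain ⟨b1, b2, b3, b4, b5⟩ := h4
    clear h hns h1 h2 h3 g1 g2 g3 par1 hcon
    refine ⟨par0, by omega, by omega, by omega, by omega, by omega⟩
  have lz : z ≤ l := h4.le3
  have lx1 : x1 ≤ l := ht.le1
  have lx2 : x2 ≤ l := ht.le2
  obtain ⟨w, hw⟩ : ∃ w, x1 + x2 + κ0 + z = 2 * w := ⟨(x1 + x2 + κ0 + z) / 2, by
    clear hcon ht h1 h2 h3 h4 g1 g2 g3 h hx1 hx2 hz par1 hns; omega⟩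
  have hn : κ0 + 2 * (l + 1 - w) ≤ κ := by
    obtain ⟨c, hc⟩ : ∃ c, κ + κ0 = 2 * c := ⟨(κ + κ0) / 2, by
      clear hcon ht h1 h2 h3 h4 g1 g2 g3 h hx1 hx2 hz hns hw par0 hsm; omega⟩
    clear par0 par1 ht h1 h2 h3 h4 g1 g2 g3 h hns
    omega
  obtain ⟨m', v', e1, e2, e3⟩ := climb l r s za zb m0 v0 κ0 m v κ h1 h2 h3 g1 g2 g3 _ hn
  refine h m' v' _ e1 e2 e3 (Ps_of_sum l _ _ _ _ hx1 hx2 ?_ hz ?_)
  · omega
  · omega

end Pool.Agent.CBSl2
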