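import Pool.Agent.CBSl2.Struct

open Finset

namespace Pool.Agent.CBSl2

/-- absolute difference -/
def ad (a b : ℕ) : ℕ := (a - b) + (b - a)

theorem ad_spec (a b : ℕ) : (a ≤ b + ad a b ∧ b ≤ a + ad a b) ∧
    ((ad a b + b = a) ∨ (ad a b + a = b)) := by
  unfold ad; omega

theorem Ps_path {l a b c d : ℕ} (h : Ps l a b c d) (ha : a ≤ l) (hb : b ≤ l) (hc : c ≤ l)
    (hd : d ≤ l) : ∃ t, Fs l a b t ∧ Fs l t c d := by
  rw [← N4_pos_iff]
  rw [← E4_pos_iff l a b c d ha hb hc hd] at h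
  unfold E4 at h
  rcases Nat.eq_zero_or_pos (N4 l a b c d) with h0 | h0
  · rw [h0] at h; simp at h
  · exact h0

/-- existence of the top element -/
theorem Fs_top (l m v : ℕ) (hm : m ≤ l) (hv : v ≤ l) : Fs l m v (mx l m v) := by
  obtain ⟨h1, h2, h3⟩ := mx_spec l m v hm hv
  refine ⟨by omega, by omega, by omega, by omega, by omega⟩

/-- reflected form of the consequence of the vanishing on `[1|2|34ab|j]` -/
theorem KjSep (l x1 x2 r s z za zb y : ℕ) (hr : r ≤ l) (hs : s ≤ l) (hza : za ≤ l) (hzb : zb ≤ l)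
    (hzy : z + y = l)
    (hK : ∀ m v κ, Fs l r s m → Fs l za zb v → Fs l m v κ → x1 + x2 + κ + z ≤ 2 * l)
    (hD : y + 2 ≤ x1 + x2) :
    (l - ad r s) + (x1 + x2 - y) ≤ ad za zb ∨ mx l za zb + (x1 + x2 - y) ≤ ad l (r + s) := by
  obtain ⟨⟨a1, a2⟩, a3⟩ := ad_spec r s
  obtain ⟨⟨b1, b2⟩, b3⟩ := ad_spec za zb
  obtain ⟨⟨c1, c2⟩, c3⟩ := ad_spec l (r + s)
  obtain ⟨d1, d2, d3⟩ := mx_spec l za zb hza hzb
  have ars : ad r s ≤ l := by omega
  have h1 : ad l (r + s) ≤ l - ad r s := by omega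
  have h2 : ad za zb ≤ mx l za zb := by omega
  have p1 : (ad l (r + s) + (l - ad r s)) % 2 = 0 := by
    clear d1 d2 d3 b1 b2 b3 h2 hK hD hza hzb a1 a2 c1 c2
    omega
  have p2 : (ad za zb + mx l za zb) % 2 = 0 := by
    clear c1 c2 c3 a1 a2 a3 h1 p1 hK hD ars hr hs
    omega
  apply sep _ _ _ _ _ h1 h2 (by omega) p1 p2
  intro m v g1 g2 g3 g4 g5 g6
  have hm : Fs l r s (l - m) := by
    refine ⟨?_, by omega, by omega, by omega, by omega⟩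
    have hml : m ≤ l := by omega
    have : (ad l (r + s) + l + (r + s)) % 2 = 0 := by
      clear d1 d2 d3 b1 b2 b3 h2 hK hD hza hzb a1 a2 a3 c1 c2 g1 g2 g3 g4 g5 g6 p1 p2 h1
      omega
    clear d1 d2 d3 b1 b2 b3 h2 hK hD hza hzb a1 a2 a3 c1 c2 c3 g1 g2 g4 g5 g6 p1 p2 h1 ars
    omega
  have hv : Fs l za zb v := by
    have : (ad za zb + za + zb) % 2 = 0 := by
      clear d1 d2 d3 c1 c2 c3 h2 hK hD hza hzb a1 a2 a3 b1 b2 g1 g2 g3 g4 g5 g6 p1 p2 h1 hm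
      omega
    refine ⟨?_, by omega, by omega, by omega, by omega⟩
    clear d1 d2 d3 b1 b2 b3 h2 hK hD hza hzb a1 a2 a3 c1 c2 c3 g1 g2 g4 g5 g3 p1 p2 h1 ars hm
    omega
  have hk := hK _ _ _ hm hv (Fs_top l (l - m) v (Nat.sub_le _ _) hv.le3)
  have e3 := (mx_spec l (l - m) v (Nat.sub_le _ _) hv.le3).2.2
  have hml : m ≤ l := by omega
  clear d1 d2 d3 b1 b2 b3 h2 hK hza hzb a1 a2 a3 c1 c2 c3 g1 g2 g4 g5 g3 p1 p2 h1 ars hm hv g6
  rcases e3 with e3 | e3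
  · right; omega
  · left; omega

theorem Kj2 (l x1 x2 r s z za zb y v m μ : ℕ) (hr : r ≤ l) (hs : s ≤ l) (hza : za ≤ l)
    (hzb : zb ≤ l) (hzy : z + y = l)
    (hK : ∀ m v κ, Fs l r s m → Fs l za zb v → Fs l m v κ → x1 + x2 + κ + z ≤ 2 * l)
    (hD : y + 2 ≤ x1 + x2) (hm : Fs l r s m) (hv : Fs l za zb v) (hμ : Fs l z v μ)
    (hsum : 2 * l + 2 ≤ x1 + x2 + m + μ) :
    (l - ad r s) + (x1 + x2) ≤ ad za zb + y := by
  rcases KjSep l x1 x2 r s z za zb y hr hs hza hzb hzy hK hD with h | h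
  · omega
  · exfalso
    have h1 := hv.le_mx
    obtain ⟨_, a2, a3, a4, a5⟩ := hμ
    obtain ⟨_, b2, b3, b4, b5⟩ := hm
    obtain ⟨⟨c1, c2⟩, c3⟩ := ad_spec l (r + s)
    clear hK hv
    omega

end Pool.Agent.CBSl2
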