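import Pool.Agent.CBSl2.Struct2

open Finset

namespace Pool.Agent.CBSl2

/-- data extracted at one of the points `5, 6, 7` -/
theorem perj (l x1 x2 r s z za zb : ℕ)
    (o : ∀ t κ v, Fs l x1 x2 t → Fs l s z κ → Fs l za zb v → ¬ Ps l t r κ v)
    (p : ∀ t κ v, Fs l x1 x2 t → Fs l r z κ → Fs l za zb v → ¬ Ps l t s κ v)
    (k : ∀ m v κ, Fs l r s m → Fs l za zb v → Fs l m v κ → ¬ Ps l x1 x2 κ z)
    (lx1 : x1 ≤ l) (lx2 : x2 ≤ l)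
    (m μ v : ℕ) (hm : Fs l r s m) (hv : Fs l za zb v) (hμ : Fs l z v μ) (hP : Ps l x1 x2 m μ) :
    1 ≤ x1 ∧ 1 ≤ x2 ∧
    (1 ≤ v) ∧
    (1 ≤ mx l x1 x2 → 1 ≤ r → 1 ≤ mx l s z → mx l x1 x2 + r + mx l s z + mx l za zb ≤ 2 * l) ∧
    (1 ≤ mx l x1 x2 → 1 ≤ s → 1 ≤ mx l r z → mx l x1 x2 + s + mx l r z + mx l za zb ≤ 2 * l) ∧
    (1 ≤ z → ∀ m v κ, Fs l r s m → Fs l za zb v → Fs l m v κ → x1 + x2 + κ + z ≤ 2 * l) := by
  obtain ⟨t, ht1, ht2⟩ := Ps_path hP lx1 lx2 hm.le3 hμ.le3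
  have hx1 : 1 ≤ x1 := by obtain ⟨_, _, _, _, _, _⟩ := hP; omega
  have hx2 : 1 ≤ x2 := by obtain ⟨_, _, _, _, _, _⟩ := hP; omega
  have hK : 1 ≤ z → ∀ m v κ, Fs l r s m → Fs l za zb v → Fs l m v κ →
      x1 + x2 + κ + z ≤ 2 * l := by
    intro hz
    obtain ⟨κ0, e1, e2⟩ := exch (ht2.s12) (hμ.s23.s12.s23)
    exact Kj l x1 x2 r s z za zb t m v κ0 ht1 hm hv e1 e2 k hx1 hx2 hz
  have hv1 : 1 ≤ v := by
    by_contra hc
    have v0 : v = 0 := by omega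
    subst v0
    have hzμ : μ = z := by
      obtain ⟨_, _, _, _, _⟩ := hμ; omega
    subst hzμ
    rcases Nat.eq_zero_or_pos μ with h0 | h0
    · subst h0
      obtain ⟨_, _, _, _, _, _⟩ := hP; omega
    · have := hK h0 m 0 m hm hv (by
        have := hm.le3
        refine ⟨by omega, by omega, by omega, by omega, by omega⟩)
      obtain ⟨_, _, _, _, _, _⟩ := hP; omega
  have hV : 1 ≤ mx l za zb := hv1.trans hv.le_mx
  refine ⟨hx1, hx2, hv1, ?_, ?_, hK⟩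
  · intro hX hr hS
    obtain ⟨q, q1, q2⟩ := exch hm ht2.s12
    obtain ⟨κ, e1, e2⟩ := exch (q2.s12) (hμ.s23.s12)
    exact Pj l x1 x2 r s z za zb t q κ v ht1 q1.s12 e1 hv e2.s12 o hX hr hS hV
  · intro hX hr hS
    obtain ⟨q, q1, q2⟩ := exch hm.s12 ht2.s12
    obtain ⟨κ, e1, e2⟩ := exch (q2.s12) (hμ.s23.s12)
    exact Pj l x1 x2 s r z za zb t q κ v ht1 q1.s12 e1 hv e2.s12 p hX hr hS hV

end Pool.Agent.CBSl2
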